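import Mathlib

set_option autoImplicit false

namespace Pool.Agent.BZ

open Finset

/-- There are at most `n / 2 + 1` primes up to `n + 1`: the prime 2 and odd numbers in `[3, n + 1]`. -/
theorem card_primes_le {n a : ℕ} (ha : a ≤ 1) :
    ((range (n + a + 1)).filter Nat.Prime).card ≤ n / 2 + 1 := by
  have h := card_le_card_of_injOn (s := (range (n + a + 1)).filter Nat.Prime)
    (t := range (n / 2 + 1)) (fun p => if p = 2 then 0 else p / 2) (by
      intro p hp
      rw [mem_coe, mem_filter, mem_range] at hp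
      rw [mem_coe, mem_range]
      obtain ⟨h1, h2⟩ := hp
      show (if p = 2 then 0 else p / 2) < n / 2 + 1
      split_ifs with h3
      · omega
      · have h4 := h2.eq_two_or_odd
        omega) (by
      intro p hp q hq hpq
      rw [mem_coe, mem_filter, mem_range] at hp hq
      have h2 := hp.2.eq_two_or_odd
      have h3 := hq.2.eq_two_or_odd
      have h4 := hp.2.two_le
      have h5 := hq.2.two_le
      have h6 : (if p = 2 then 0 else p / 2) = (if q = 2 then 0 else q / 2) := hpq
      split_ifs at h6 <;> omega)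
  rwa [card_range] at h

set_option maxRecDepth 100000 in
/-- There are at most 172 primes below 1024 (cheap certificate: trial division by the primes up to 31 as one
gcd, so that the kernel only evaluates `Nat.gcd`). -/
theorem card_primes_1024 : ((range 1024).filter Nat.Prime).card ≤ 172 := by
  have hsub : (range 1024).filter Nat.Prime ⊆ (range 1024).filter
      (fun n => n = 2 ∨ n = 3 ∨ n = 5 ∨ n = 7 ∨ n = 11 ∨ n = 13 ∨ n = 17 ∨ n = 19 ∨ n = 23 ∨ n = 29 ∨
        n = 31 ∨ (1 < n ∧ Nat.gcd n 200560490130 = 1)) := by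
    intro n hn
    rw [mem_filter] at hn ⊢
    refine ⟨hn.1, ?_⟩
    by_cases h : Nat.gcd n 200560490130 = 1
    · have := hn.2.one_lt
      tauto
    · have h1 : n ∣ 200560490130 := by
        rcases (Nat.dvd_prime hn.2).mp (Nat.gcd_dvd_left n 200560490130) with h2 | h2
        · exact absurd h2 h
        · rw [← h2]; exact Nat.gcd_dvd_right _ _
      have h3 : n ∈ Nat.primeFactors 200560490130 :=
        Nat.mem_primeFactors.mpr ⟨hn.2, h1, by norm_num⟩
      have h4 : (200560490130 : ℕ) = 2 * (3 * (5 * (7 * (11 * (13 * (17 * (19 * (23 * (29 * 31))))))))) := by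
        norm_num
      rw [h4] at h1
      have h5 : ∀ q : ℕ, q.Prime → n ∣ q → n = q := fun q hq h => (Nat.prime_dvd_prime_iff_eq hn.2 hq).mp h
      rcases hn.2.dvd_mul.mp h1 with h1 | h1
      · exact Or.inl (h5 _ (by norm_num) h1)
      rcases hn.2.dvd_mul.mp h1 with h1 | h1
      · exact Or.inr (Or.inl (h5 _ (by norm_num) h1))
      rcases hn.2.dvd_mul.mp h1 with h1 | h1
      · exact Or.inr (Or.inr (Or.inl (h5 _ (by norm_num) h1)))
      rcases hn.2.dvd_mul.mp h1 with h1 | h1
      · have := h5 _ (by norm_num) h1; tauto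
      rcases hn.2.dvd_mul.mp h1 with h1 | h1
      · have := h5 _ (by norm_num) h1; tauto
      rcases hn.2.dvd_mul.mp h1 with h1 | h1
      · have := h5 _ (by norm_num) h1; tauto
      rcases hn.2.dvd_mul.mp h1 with h1 | h1
      · have := h5 _ (by norm_num) h1; tauto
      rcases hn.2.dvd_mul.mp h1 with h1 | h1
      · have := h5 _ (by norm_num) h1; tauto
      rcases hn.2.dvd_mul.mp h1 with h1 | h1
      · have := h5 _ (by norm_num) h1; tauto
      rcases hn.2.dvd_mul.mp h1 with h1 | h1
      · have := h5 _ (by norm_num) h1; tauto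
      · have := h5 _ (by norm_num) h1; tauto
  refine (card_le_card hsub).trans ?_
  decide +kernel

/-- **A common multiple of the window exponents.**

Proof. `Λ = (∏_{p < 1024 prime} Nat.log p W) * Nat.lcmUpto (Nat.log 1024 W)`. The product has 172 factors (the
number of primes below 1024 is at most 172: `card_primes_1024`), each of
them positive (`p ≤ 1024 ≤ W`) and at most `Nat.log 2 W` (`Nat.log_anti_left`). For `p ∈ G`: if `p < 1024`,
`Nat.log p W` is one of the factors; if `p ≥ 1024`, `1 ≤ Nat.log p W ≤ Nat.log 1024 W` (`p ≤ W`,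
`Nat.log_pos`, `Nat.log_anti_left`) and so `Nat.log p W ∣ Nat.lcmUpto (Nat.log 1024 W)` (`Finset.dvd_lcm`). -/
theorem lam_exists {W : ℕ} (hW : 1024 ≤ W) (G : Finset ℕ) (hG : ∀ p ∈ G, p.Prime)
    (hGW : ∀ p ∈ G, p ≤ W) :
    ∃ Λ : ℕ, 0 < Λ ∧ (∀ p ∈ G, Nat.log p W ∣ Λ) ∧
      Λ ≤ (Nat.log 2 W) ^ 172 * Nat.lcmUpto (Nat.log 1024 W) := by
  have hmem : ∀ p ∈ (range 1024).filter Nat.Prime, p.Prime ∧ p < 1024 := by
    intro p hp
    rw [mem_filter, mem_range] at hp
    exact ⟨hp.2, hp.1⟩
  refine ⟨(∏ p ∈ (range 1024).filter Nat.Prime, Nat.log p W) * Nat.lcmUpto (Nat.log 1024 W),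
    Nat.mul_pos ?_ (Nat.lcmUpto_pos _), ?_, ?_⟩
  · refine prod_pos fun p hp => ?_
    obtain ⟨h1, h2⟩ := hmem p hp
    exact Nat.log_pos h1.one_lt (by omega)
  · intro p hp
    by_cases hlt : p < 1024
    · exact Dvd.dvd.mul_right (dvd_prod_of_mem _ (mem_filter.2 ⟨mem_range.2 hlt, hG p hp⟩)) _
    · refine Dvd.dvd.mul_left ?_ _
      have h1 : 0 < Nat.log p W := Nat.log_pos (hG p hp).one_lt (hGW p hp)
      have h2 : Nat.log p W ≤ Nat.log 1024 W := Nat.log_anti_left (by norm_num) (by omega)
      exact dvd_lcm (f := id) (mem_Icc.2 ⟨h1, h2⟩)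
  · refine Nat.mul_le_mul_right _ ?_
    calc (∏ p ∈ (range 1024).filter Nat.Prime, Nat.log p W)
        ≤ ∏ p ∈ (range 1024).filter Nat.Prime, Nat.log 2 W :=
          prod_le_prod' fun p hp => Nat.log_anti_left (by norm_num) (hmem p hp).1.two_le
      _ ≤ (Nat.log 2 W) ^ 172 := by
          rw [prod_const]
          exact Nat.pow_le_pow_right (Nat.log_pos (by norm_num) (by omega)) card_primes_1024

end Pool.Agent.BZ
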