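import Mathlib

set_option autoImplicit false

namespace Pool.Agent.BZ

open Finset

/-- **Sizes in logarithms.**  `y = m ∏ p^(μ p)`, every `p ∈ G` has `p ^ (g p)` in `[w + 1, W]`, and `y ≤ w`.

Proof. Let `S = ∑_{p ∈ G} μ p / g p`. `p ≥ 1` for `p ∈ G` (`p ^ g p ≥ 1`, `g p ≥ 1`), so all factors are positive
and `log y = log m + ∑ μ p log p`. From `w + 1 ≤ p ^ g p ≤ W`: `log (w+1) / g p ≤ log p ≤ log W / g p`. So
`S log (w+1) ≤ log y - log m ≤ S log W`.
(1) `S log (w+1) ≤ log y - log m ≤ log y < log (w+1)` and `log (w+1) > 0`, so `S < 1`.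
(2) `(1 - S) log W ≥ (1 - S) log (w+1) = log (w+1) - S log (w+1) ≥ log (w+1) - log y + log m ≥ log m`.
(3) `(1 - S) log W = log W - S log W ≤ log W - log y + log m`. -/
theorem core_bounds {w W y m : ℕ} {G : Finset ℕ} {μ g : ℕ → ℕ} (hw : 1 ≤ w) (hwW : w + 1 ≤ W)
    (hm : 1 ≤ m) (hG : ∀ p ∈ G, 1 ≤ g p ∧ w + 1 ≤ p ^ g p ∧ p ^ g p ≤ W)
    (hy : y = m * ∏ p ∈ G, p ^ μ p) (hyw : y ≤ w) :
    ∑ p ∈ G, (μ p : ℝ) / g p < 1 ∧
    Real.log m ≤ (1 - ∑ p ∈ G, (μ p : ℝ) / g p) * Real.log W ∧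
    (1 - ∑ p ∈ G, (μ p : ℝ) / g p) * Real.log W ≤ Real.log m + (Real.log W - Real.log y) := by
  have hp : ∀ p ∈ G, (1 : ℝ) ≤ p := by
    intro p hpG
    obtain ⟨h1, h2, -⟩ := hG p hpG
    have : p ≠ 0 := by
      rintro rfl
      rw [zero_pow (by omega)] at h2
      omega
    exact_mod_cast Nat.one_le_iff_ne_zero.mpr this
  have hmpos : (0 : ℝ) < m := by exact_mod_cast hm
  have hy1 : (y : ℝ) = m * ∏ p ∈ G, (p : ℝ) ^ μ p := by
    rw [hy]
    push_cast
    rfl
  have hne : ∀ p ∈ G, ((p : ℝ) ^ μ p) ≠ 0 := fun p hpG =>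
    (pow_pos (lt_of_lt_of_le one_pos (hp p hpG)) _).ne'
  have hlog : Real.log y = Real.log m + ∑ p ∈ G, (μ p : ℝ) * Real.log p := by
    rw [hy1, Real.log_mul hmpos.ne' (Finset.prod_ne_zero_iff.mpr hne), Real.log_prod hne]
    congr 1
    refine Finset.sum_congr rfl fun p _ => ?_
    rw [Real.log_pow]
  have hypos : (1 : ℝ) ≤ y := by
    rw [hy1]
    refine one_le_mul_of_one_le_of_one_le (by exact_mod_cast hm) ?_
    have : (1 : ℝ) = ∏ p ∈ G, (1 : ℝ) := by simp
    rw [this]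
    exact Finset.prod_le_prod (fun _ _ => zero_le_one) fun p hpG => one_le_pow₀ (hp p hpG)
  have hw1 : (0 : ℝ) < (w : ℝ) + 1 := by positivity
  have hwlog : 0 < Real.log ((w : ℝ) + 1) := by
    refine Real.log_pos ?_
    have : (1 : ℝ) ≤ w := by exact_mod_cast hw
    linarith
  have hywl : Real.log y < Real.log ((w : ℝ) + 1) := by
    refine Real.log_lt_log (by linarith) ?_
    have : (y : ℝ) ≤ w := by exact_mod_cast hyw
    linarith
  have hlm : 0 ≤ Real.log m := Real.log_nonneg (by exact_mod_cast hm)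
  have hwWl : Real.log ((w : ℝ) + 1) ≤ Real.log W := by
    refine Real.log_le_log hw1 ?_
    exact_mod_cast hwW
  set S : ℝ := ∑ p ∈ G, (μ p : ℝ) / g p with hSdef
  have hS0 : 0 ≤ S := Finset.sum_nonneg fun p _ => by positivity
  have hS1 : S * Real.log ((w : ℝ) + 1) ≤ Real.log y - Real.log m := by
    rw [hlog, add_sub_cancel_left, hSdef, Finset.sum_mul]
    refine Finset.sum_le_sum fun p hpG => ?_
    obtain ⟨h1, h2, -⟩ := hG p hpG
    have hg : (0 : ℝ) < g p := by exact_mod_cast h1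
    have h3 : Real.log ((w : ℝ) + 1) ≤ g p * Real.log p := by
      rw [← Real.log_pow]
      exact Real.log_le_log hw1 (by exact_mod_cast h2)
    calc (μ p : ℝ) / g p * Real.log ((w : ℝ) + 1)
        ≤ (μ p : ℝ) / g p * (g p * Real.log p) :=
          mul_le_mul_of_nonneg_left h3 (by positivity)
      _ = (μ p : ℝ) * Real.log p := by field_simp
  have hS2 : Real.log y - Real.log m ≤ S * Real.log W := by
    rw [hlog, add_sub_cancel_left, hSdef, Finset.sum_mul]
    refine Finset.sum_le_sum fun p hpG => ?_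
    obtain ⟨h1, h2, h4⟩ := hG p hpG
    have hg : (0 : ℝ) < g p := by exact_mod_cast h1
    have h3 : g p * Real.log p ≤ Real.log W := by
      rw [← Real.log_pow]
      exact Real.log_le_log (pow_pos (lt_of_lt_of_le one_pos (hp p hpG)) _)
        (by exact_mod_cast h4)
    calc (μ p : ℝ) * Real.log p = (μ p : ℝ) / g p * (g p * Real.log p) := by field_simp
      _ ≤ (μ p : ℝ) / g p * Real.log W :=
          mul_le_mul_of_nonneg_left h3 (by positivity)
  have hS : S < 1 := by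
    by_contra h
    push Not at h
    nlinarith
  refine ⟨hS, ?_, ?_⟩
  · nlinarith
  · nlinarith

end Pool.Agent.BZ
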