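import Mathlib
import Pool.Agent.BZ.A1

set_option autoImplicit false

namespace Pool.Agent.BZ

open Finset

/-- **One number that is a product of window primes.**

Proof. `core_bounds` with `m = 1`: `S < 1` and `(1 - S) log W ≤ log W - log y` (`log 1 = 0`), `S = ∑ μ p / g p`.
`Λ S` is an integer (`g p ∣ Λ`: `Λ * (μ p / g p) = (Λ / g p) * μ p`), `Λ (1 - S) > 0` is an integer, so
`Λ (1 - S) ≥ 1`. Hence `log W ≤ Λ (1 - S) log W ≤ Λ (log W - log y)` (`log W ≥ 0`). -/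
theorem single {w W y Λ : ℕ} {G : Finset ℕ} {μ g : ℕ → ℕ} (hw : 1 ≤ w) (hwW : w + 1 ≤ W)
    (hG : ∀ p ∈ G, 1 ≤ g p ∧ w + 1 ≤ p ^ g p ∧ p ^ g p ≤ W)
    (hy : y = ∏ p ∈ G, p ^ μ p) (hyw : y ≤ w) (hΛ : ∀ p ∈ G, g p ∣ Λ) (hΛ0 : 0 < Λ) :
    Real.log W ≤ Λ * (Real.log W - Real.log y) := by
  obtain ⟨h1, -, h3⟩ := core_bounds (m := 1) hw hwW le_rfl hG (by rw [hy, one_mul]) hyw
  simp only [Nat.cast_one, Real.log_one, zero_add] at h3
  set S : ℝ := ∑ p ∈ G, (μ p : ℝ) / g p with hS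
  have hΛS : (Λ : ℝ) * S = ((∑ p ∈ G, Λ / g p * μ p : ℕ) : ℝ) := by
    rw [hS, mul_sum, Nat.cast_sum]
    refine Finset.sum_congr rfl fun p hp => ?_
    have hg : (g p : ℝ) ≠ 0 := by
      have := (hG p hp).1
      positivity
    rw [Nat.cast_mul, Nat.cast_div (hΛ p hp) hg]
    ring
  have hΛpos : (0 : ℝ) < Λ := by exact_mod_cast hΛ0
  have hlt : ((∑ p ∈ G, Λ / g p * μ p : ℕ) : ℝ) < (Λ : ℝ) := by
    rw [← hΛS]
    calc (Λ : ℝ) * S < Λ * 1 := mul_lt_mul_of_pos_left h1 hΛpos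
      _ = Λ := mul_one _
  have hle : ((∑ p ∈ G, Λ / g p * μ p : ℕ) : ℝ) + 1 ≤ (Λ : ℝ) := by
    have : (∑ p ∈ G, Λ / g p * μ p) < Λ := by exact_mod_cast hlt
    exact_mod_cast this
  have hone : 1 ≤ (Λ : ℝ) * (1 - S) := by
    have : (Λ : ℝ) * (1 - S) = Λ - Λ * S := by ring
    rw [this, hΛS]
    linarith
  have hW : 0 ≤ Real.log W := Real.log_natCast_nonneg W
  calc Real.log W = 1 * Real.log W := (one_mul _).symm
    _ ≤ (Λ * (1 - S)) * Real.log W := mul_le_mul_of_nonneg_right hone hW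
    _ = Λ * ((1 - S) * Real.log W) := by ring
    _ ≤ Λ * (Real.log W - Real.log y) := mul_le_mul_of_nonneg_left h3 hΛpos.le

end Pool.Agent.BZ
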