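import Mathlib

set_option autoImplicit false

namespace Pool.Agent.BZ

open Finset

private def B1_fc (n : ℕ) (f : ℕ → Bool) : Bool :=
  Nat.rec (motive := fun _ => Bool) (f 0) (fun k _ => f (Nat.succ k)) n

private theorem B1_fc_eq (n : ℕ) (f : ℕ → Bool) : B1_fc n f = f n := by
  cases n <;> rfl

private def B1_lp (k : ℕ) : ℕ → ℕ → ℕ → Bool :=
  Nat.rec (motive := fun _ => ℕ → ℕ → ℕ → Bool) (fun _ _ _ => true)
    (fun _ ih m L T =>
      B1_fc (Nat.add m 1) fun m' =>
      B1_fc (Nat.div (Nat.mul L m') (Nat.gcd L m')) fun L' =>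
      B1_fc (Nat.mul 3 T) fun T' =>
        Bool.rec false (ih m' L' T') (Nat.ble L' T')) k

private theorem B1_lp_succ (k m L T : ℕ) : B1_lp (k + 1) m L T =
    B1_fc (Nat.add m 1) (fun m' =>
      B1_fc (Nat.div (Nat.mul L m') (Nat.gcd L m')) fun L' =>
      B1_fc (Nat.mul 3 T) fun T' =>
        Bool.rec false (B1_lp k m' L' T') (Nat.ble L' T')) := rfl

private theorem B1_check : B1_lp 16384 0 1 1 = true := by decide +kernel

private theorem B1_succ (m : ℕ) : Nat.lcmUpto (m + 1) =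
    Nat.lcmUpto m * (m + 1) / Nat.gcd (Nat.lcmUpto m) (m + 1) := by
  have h : Finset.Icc 1 (m + 1) = insert (m + 1) (Finset.Icc 1 m) := by
    ext x
    simp only [Finset.mem_Icc, Finset.mem_insert]
    omega
  rw [Nat.lcmUpto, h, Finset.lcm_insert]
  change Nat.lcm (m + 1) (Nat.lcmUpto m) = _
  rw [Nat.lcm_comm]
  rfl

private theorem B1_sound (k : ℕ) : ∀ m : ℕ, Nat.lcmUpto m ≤ 3 ^ m →
    B1_lp k m (Nat.lcmUpto m) (3 ^ m) = true → ∀ M, m ≤ M → M ≤ m + k →
    Nat.lcmUpto M ≤ 3 ^ M := by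
  induction k with
  | zero =>
    intro m hm _ M h1 h2
    have : M = m := by omega
    rw [this]
    exact hm
  | succ k ih =>
    intro m hm hl M h1 h2
    rcases Nat.eq_or_lt_of_le h1 with rfl | h1
    · exact hm
    rw [B1_lp_succ, B1_fc_eq, B1_fc_eq, B1_fc_eq] at hl
    have e1 : Nat.add m 1 = m + 1 := rfl
    have e2 : Nat.div (Nat.mul (Nat.lcmUpto m) (m + 1)) (Nat.gcd (Nat.lcmUpto m) (m + 1)) =
      Nat.lcmUpto (m + 1) := (B1_succ m).symm
    have e3 : Nat.mul 3 (3 ^ m) = 3 ^ (m + 1) := by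
      change 3 * 3 ^ m = 3 ^ (m + 1)
      rw [pow_succ, mul_comm]
    rw [e1, e2, e3] at hl
    cases hb : Nat.ble (Nat.lcmUpto (m + 1)) (3 ^ (m + 1)) with
    | false =>
      rw [hb] at hl
      exact absurd hl (by simp)
    | true =>
      rw [hb] at hl
      exact ih (m + 1) (Nat.le_of_ble_eq_true hb) hl M h1 (by omega)

/-- **`lcm (1, …, M) ≤ 3 ^ M` for `M ≤ 16384`** (a kernel computation).

Proof. `Nat.lcmUpto (m + 1) = Nat.lcm (Nat.lcmUpto m) (m + 1)` (it is `(Icc 1 n).lcm id`;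
`Finset.Icc_insert_succ_right`-like, `Finset.lcm_insert`). A Bool loop with fuel, written with `Nat.rec`
(as `lp`, `srch` in `Pool/Agent/BY/KDefs.lean`) or structural recursion, state `(m, L, T)` with `L = lcmUpto m`,
`T = 3 ^ m`: one step is `L' = L * (m + 1) / Nat.gcd L (m + 1)`, `T' = 3 * T`, and checks `L' ≤ T'`; everything is
done by GMP in the kernel (`L` has at most 26000 bits). Split the range into several theorems (or blocks: outer
loop of 128 blocks of 128 steps) if the recursion gets too deep: the block theorem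
`lcmUpto M0 = <closed expression>` is not needed if the loops are nested. Soundness by induction on the fuel. -/
theorem lcm_le {M : ℕ} (hM : M ≤ 16384) : Nat.lcmUpto M ≤ 3 ^ M := by
  have h0 : Nat.lcmUpto 0 = 1 := by
    rw [Nat.lcmUpto]
    rfl
  have hc := B1_check
  refine B1_sound 16384 0 (by rw [h0]; norm_num) ?_ M (Nat.zero_le _) (by omega)
  rw [h0, pow_zero]
  exact hc

end Pool.Agent.BZ
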