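import Mathlib
import Pool.Agent.BZ.B1

set_option autoImplicit false

namespace Pool.Agent.BZ

open Finset

private theorem B2_log_three : Real.log 3 < 1.0987 := by
  have h1 : (3 : ℝ) ^ 147 < 2 ^ 233 := by norm_num
  have h2 := Real.log_lt_log (by positivity) h1
  rw [Real.log_pow, Real.log_pow] at h2
  have h3 := Real.log_two_lt_d9
  push_cast at h2
  linarith

private theorem B2_exp_two : Real.exp 2 ≤ 8 := by
  have h1 : Real.exp 2 = Real.exp 1 * Real.exp 1 := by rw [← Real.exp_add]; norm_num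
  have h2 := Real.exp_one_lt_d9
  have h3 := Real.exp_pos 1
  rw [h1]
  nlinarith

private theorem B2_main {b M : ℕ} (hb : 65535 ≤ b) (hM : 10 * M ≤ b) :
    Real.log 2 + 174 * Real.log b + Real.log (Nat.lcmUpto M) < b * Real.log 2 / 4 := by
  have hb' : (65535 : ℝ) ≤ b := by exact_mod_cast hb
  have hM' : 10 * (M : ℝ) ≤ b := by exact_mod_cast hM
  have hl1 := Real.log_two_gt_d9
  have hl2 := Real.log_two_lt_d9
  rcases Nat.lt_or_ge 16384 M with h | h
  · have hM2 : (16384 : ℝ) ≤ M := by exact_mod_cast h.le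
    have hM0 : (0 : ℝ) < M := by linarith
    have hb2 : (131072 : ℝ) ≤ b := by linarith
    have hb0 : (0 : ℝ) < b := by linarith
    have he := B2_exp_two
    have h14 : (16384 : ℝ) = 2 ^ 14 := by norm_num
    have h17 : (131072 : ℝ) = 2 ^ 17 := by norm_num
    have hs14 : √(16384 : ℝ) = 128 := by
      rw [show (16384 : ℝ) = 128 ^ 2 by norm_num]
      exact Real.sqrt_sq (by norm_num)
    have k1 := Real.log_div_sqrt_antitoneOn (a := (16384 : ℝ)) (b := (M : ℝ))
      (by simp only [Set.mem_Ici]; linarith) (by simp only [Set.mem_Ici]; linarith) hM2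
    have k2 := Real.log_div_sqrt_antitoneOn (a := (131072 : ℝ)) (b := (b : ℝ))
      (by simp only [Set.mem_Ici]; linarith) (by simp only [Set.mem_Ici]; linarith) hb2
    simp only at k1 k2
    rw [hs14, div_le_iff₀ (Real.sqrt_pos.2 hM0)] at k1
    rw [div_le_iff₀ (Real.sqrt_pos.2 hb0)] at k2
    have e14 : Real.log 16384 = 14 * Real.log 2 := by
      rw [h14, Real.log_pow]; norm_num
    have e17 : Real.log 131072 = 17 * Real.log 2 := by
      rw [h17, Real.log_pow]; norm_num
    rw [e14] at k1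
    rw [e17] at k2
    have hsM : √(M : ℝ) * √(M : ℝ) = M := Real.mul_self_sqrt hM0.le
    have hsb : √(b : ℝ) * √(b : ℝ) = b := Real.mul_self_sqrt hb0.le
    have hs17 : √(131072 : ℝ) * √(131072 : ℝ) = 131072 := Real.mul_self_sqrt (by norm_num)
    have hs17pos : (0 : ℝ) < √(131072 : ℝ) := Real.sqrt_pos.2 (by norm_num)
    have hpsi := Chebyshev.psi_le (x := (M : ℝ)) (by linarith)
    rw [Chebyshev.psi_eq_log_lcmUpto] at hpsi
    have e4 : Real.log 4 = 2 * Real.log 2 := by
      rw [show (4 : ℝ) = 2 ^ 2 by norm_num, Real.log_pow]; norm_num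
    rw [e4] at hpsi
    have hsMpos := Real.sqrt_pos.2 hM0
    have k3 : 2 * √(M : ℝ) * Real.log M ≤ 2 * (14 * Real.log 2 / 128) * M := by
      calc 2 * √(M : ℝ) * Real.log M ≤ 2 * √(M : ℝ) * (14 * Real.log 2 / 128 * √(M : ℝ)) := by
            apply mul_le_mul_of_nonneg_left k1 (by positivity)
        _ = 2 * (14 * Real.log 2 / 128) * (√(M : ℝ) * √(M : ℝ)) := by ring
        _ = _ := by rw [hsM]
    have hsle : √(131072 : ℝ) ≤ √(b : ℝ) := Real.sqrt_le_sqrt hb2
    have k4 : √(b : ℝ) / √(131072 : ℝ) ≤ b / 131072 := by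
      rw [div_le_div_iff₀ hs17pos (by norm_num)]
      calc √(b : ℝ) * 131072 = √(b : ℝ) * (√(131072 : ℝ) * √(131072 : ℝ)) := by rw [hs17]
        _ ≤ √(b : ℝ) * (√(b : ℝ) * √(131072 : ℝ)) := by
            apply mul_le_mul_of_nonneg_left _ (Real.sqrt_nonneg _)
            exact mul_le_mul_of_nonneg_right hsle hs17pos.le
        _ = (√(b : ℝ) * √(b : ℝ)) * √(131072 : ℝ) := by ring
        _ = b * √(131072 : ℝ) := by rw [hsb]
    have k5 : Real.log b ≤ 17 * Real.log 2 * (b / 131072) := by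
      calc Real.log b ≤ 17 * Real.log 2 / √(131072 : ℝ) * √(b : ℝ) := k2
        _ = 17 * Real.log 2 * (√(b : ℝ) / √(131072 : ℝ)) := by ring
        _ ≤ _ := by
            apply mul_le_mul_of_nonneg_left k4 (by linarith)
    have k6 : Real.log (Nat.lcmUpto M) ≤ (2 + 28 / 128) * Real.log 2 * M := by
      calc Real.log (Nat.lcmUpto M) ≤ 2 * Real.log 2 * M + 2 * √(M : ℝ) * Real.log M := hpsi
        _ ≤ 2 * Real.log 2 * M + 2 * (14 * Real.log 2 / 128) * M := by linarith
        _ = _ := by ring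
    have k7 : (2 + 28 / 128) * Real.log 2 * M ≤ (2 + 28 / 128) * Real.log 2 * (b / 10) := by
      apply mul_le_mul_of_nonneg_left _ (by linarith)
      linarith
    have k8 : Real.log 2 * 131072 ≤ Real.log 2 * b := mul_le_mul_of_nonneg_left hb2 (by linarith)
    nlinarith
  · have h1 : (Nat.lcmUpto M : ℝ) ≤ 3 ^ M := by exact_mod_cast lcm_le h
    have h0 : (0 : ℝ) < Nat.lcmUpto M := by exact_mod_cast Nat.lcmUpto_pos M
    have h2 := Real.log_le_log h0 h1
    rw [Real.log_pow] at h2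
    have h3 := B2_log_three
    have h4 : (M : ℝ) * Real.log 3 ≤ b / 10 * 1.0987 := by
      have : (0 : ℝ) ≤ M := by positivity
      have h30 : 0 ≤ Real.log 3 := Real.log_nonneg (by norm_num)
      calc (M : ℝ) * Real.log 3 ≤ b / 10 * Real.log 3 := by
            apply mul_le_mul_of_nonneg_right _ h30
            linarith
        _ ≤ _ := by
            apply mul_le_mul_of_nonneg_left h3.le
            linarith
    have h5 := Real.log_le_sub_one_of_pos (x := (b : ℝ) / 65536) (by linarith)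
    rw [Real.log_div (by linarith) (by norm_num), show (65536 : ℝ) = 2 ^ 16 by norm_num,
      Real.log_pow] at h5
    push_cast at h5
    have h6 : (b : ℝ) * 0.6931471803 ≤ b * Real.log 2 :=
      mul_le_mul_of_nonneg_left hl1.le (by linarith)
    have h7 : Real.log b ≤ b / 65536 - 1 + 16 * Real.log 2 := by
      have e : (2 : ℝ) ^ 16 = 65536 := by norm_num
      rw [e] at h5
      linarith
    linarith

/-- **The final inequality for large `W`.**

Proof. `b = Nat.log 2 W`, `M = Nat.log 1024 W`; `2 ^ b ≤ W`, so `log W ≥ b log 2`; `1024 ^ M ≤ W < 2 ^ (b + 1)`, so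
`10 M ≤ b`. `log (Nat.lcmUpto M) = ψ M` (`Chebyshev.psi_eq_log_lcmUpto`). Taking logarithms the claim follows from
`log 2 + 174 log b + ψ M < b log 2 / 4`.  Numbers: `log 2 ∈ (0.6931471803, 0.6931471808)`.
(1) `M ≤ 16384`: `ψ M ≤ M log 3 ≤ b (log 3) / 10 ≤ 0.10987 b` (`lcm_le`; `log 3 < 1.0987`, e.g. from
`3 ^ 12 < 2 ^ 19 + 2^13`-like or `Real.log_three`-bounds). `log b ≤ c √b` is not needed: `log b ≤ b / 65535 + log 65535 - 1`
(tangent: `Real.log_le_sub_one_of_pos` for `b / 65535`) and `log 65535 < log 65536 = 16 log 2 < 11.0904`, so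
`174 log b ≤ 174 (b / 65535 + 10.0904)` and `0.6932 + 174 * 10.0904 + b (174 / 65535 + 0.10987) < 0.173286 b` for
`b ≥ 65535` (left: `1756.5 + 0.112526 b`; right - left `> 0.0607 * 65535 - 1756.5 > 0`).
(2) `M > 16384`, so `b ≥ 163850`: `Chebyshev.psi_le`: `ψ M ≤ log 4 * M + 2 √M log M`. `Real.log_div_sqrt_antitoneOn`:
`log M ≤ √M * (14 log 2 / 128)` (`2 ^ 14 ≤ M`, `√(2 ^ 14) = 128`), so `2 √M log M ≤ 2 M * 14 * 0.693148 / 128 ≤ 0.15163 M`,
`ψ M ≤ (1.386295 + 0.15163) M ≤ 0.1537925 b`. `2 ^ 17 ≤ b`: `log b ≤ √b * (17 log 2 / √(2 ^ 17))` and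
`√b ≤ b / √(2 ^ 17)`, so `log b ≤ b * 17 * 0.693148 / 131072 ≤ 0.0000899017 b`, `174 log b ≤ 0.0156430 b`.
Total: `0.6932 + 0.1694355 b < 0.1732867 b`, as `b ≥ 163850`. -/
theorem big_final {W : ℕ} (hW : 65535 ≤ Nat.log 2 W) :
    2 * (Nat.log 2 W : ℝ) ^ 174 * (Nat.lcmUpto (Nat.log 1024 W) : ℝ) < Real.exp (Real.log W / 4) := by
  set b := Nat.log 2 W with hb
  set M := Nat.log 1024 W with hM
  have hW0 : W ≠ 0 := by
    rintro rfl
    simp [hb] at hW
  have h2b : 2 ^ b ≤ W := Nat.pow_log_le_self 2 hW0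
  have hMb : 10 * M ≤ b := by
    apply Nat.le_log_of_pow_le (by norm_num)
    rw [pow_mul]
    exact Nat.pow_log_le_self 1024 hW0
  have hmain := B2_main hW hMb
  have hlogW : (b : ℝ) * Real.log 2 ≤ Real.log W := by
    have h1 : ((2 : ℝ) ^ b) ≤ W := by exact_mod_cast h2b
    have h2 := Real.log_le_log (by positivity) h1
    rwa [Real.log_pow] at h2
  have hb0 : (0 : ℝ) < b := by
    have : 0 < b := by omega
    exact_mod_cast this
  have hl0 : (0 : ℝ) < Nat.lcmUpto M := by exact_mod_cast Nat.lcmUpto_pos M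
  rw [← Real.log_lt_iff_lt_exp (by positivity), Real.log_mul (by positivity) hl0.ne',
    Real.log_mul (by norm_num) (by positivity), Real.log_pow]
  push_cast
  linarith

end Pool.Agent.BZ
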