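import Mathlib
import Pool.Agent.BZ.FTab

set_option autoImplicit false

namespace Pool.Agent.BZ

open Finset

private theorem ftab_ok : (ftab.all fun e => fchk e) = true := by
  decide +kernel

private def plist : List ℕ := [2, 3, 5, 7, 11, 13, 17, 19, 23, 29, 31, 37, 41, 43, 47, 53, 59, 61, 67, 71,
  73, 79, 83, 89, 97, 101, 103, 107, 109, 113]

private def pfind (p q : ℕ) : List (ℕ × ℕ × ℕ × ℕ × ℕ × ℕ) → Bool
  | [] => false
  | e :: l => (Nat.beq e.1 p && Nat.beq e.2.1 q) || pfind p q l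

private theorem pfind_spec {p q : ℕ} : ∀ l : List (ℕ × ℕ × ℕ × ℕ × ℕ × ℕ), pfind p q l = true →
    ∃ e ∈ l, e.1 = p ∧ e.2.1 = q
  | [], h => by simp [pfind] at h
  | e :: l, h => by
    rw [pfind, Bool.or_eq_true, Bool.and_eq_true] at h
    rcases h with h | h
    · exact ⟨e, by simp, Nat.eq_of_beq_eq_true h.1, Nat.eq_of_beq_eq_true h.2⟩
    · obtain ⟨e', he', h1, h2⟩ := pfind_spec l h
      exact ⟨e', by simp [he'], h1, h2⟩

private theorem complete : (plist.all fun q => plist.all fun p => (Nat.ble q p || pfind p q ftab)) = true := by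
  decide +kernel

private theorem mem_plist {p : ℕ} (hp : p.Prime) (h : p < 127) : p ∈ plist := by
  by_contra hcon
  unfold plist at hcon
  simp only [List.mem_cons, List.not_mem_nil, or_false, not_or] at hcon
  obtain ⟨h2, h3, h5, h7, h11, h13, h17, h19, h23, h29, h31, h37, h41, h43, h47, h53, h59, h61, h67, h71, h73, h79,
    h83, h89, h97, h101, h103, h107, h109, h113⟩ := hcon
  interval_cases p <;> first | (exact absurd rfl (by assumption)) | (revert hp; norm_num)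

theorem ftab_spec {p q : ℕ} (hp : p.Prime) (hq : q.Prime) (hpq : p < q) (hq127 : q < 127) :
    ∃ a c a' c' : ℕ, a' * c = a * c' + 1 ∧ 1 ≤ c ∧ 1 ≤ c' ∧ c ≤ 2 ^ 17 ∧ c' ≤ 2 ^ 17 ∧
      (2 ^ 24 + 1) * q ^ a ≤ 2 ^ 24 * p ^ c ∧ (2 ^ 24 + 1) * p ^ c' ≤ 2 ^ 24 * q ^ a' ∧
      2 ^ 65538 ≤ p ^ (c + c') := by
  have hqm := mem_plist hq hq127
  have hpm := mem_plist hp (by omega)
  have h1 := List.all_eq_true.mp complete q hqm
  have h2 := List.all_eq_true.mp h1 p hpm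
  rw [Bool.or_eq_true] at h2
  rcases h2 with h2 | h2
  · have := Nat.le_of_ble_eq_true h2
    omega
  obtain ⟨e, he, hep, heq⟩ := pfind_spec ftab h2
  have h3 := List.all_eq_true.mp ftab_ok e he
  obtain ⟨p', q', a, c, a', c'⟩ := e
  simp only at hep heq
  subst hep heq
  simp only [fchk, Bool.and_eq_true] at h3
  obtain ⟨⟨⟨⟨⟨⟨⟨k1, k2⟩, k3⟩, k4⟩, k5⟩, k6⟩, k7⟩, k8⟩ := h3
  exact ⟨a, c, a', c', Nat.eq_of_beq_eq_true k1, Nat.le_of_ble_eq_true k4, Nat.le_of_ble_eq_true k5,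
    Nat.le_of_ble_eq_true k2, Nat.le_of_ble_eq_true k3, Nat.le_of_ble_eq_true k6, Nat.le_of_ble_eq_true k7,
    Nat.le_of_ble_eq_true k8⟩

end Pool.Agent.BZ
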