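import Mathlib

set_option autoImplicit false

namespace Pool.Agent.BZ

open Finset

/-- **Farey neighbours**: no fraction with a small denominator between `a / c` and `a' / c'`.

Proof. `g = g (a' c - a c') = c (a' g - h c') + c' (h c - a g)`, both brackets would be `≥ 1`. -/
theorem farey {a c a' c' g h : ℕ} (h1 : a' * c = a * c' + 1) (hg : g < c + c') :
    h * c ≤ a * g ∨ a' * g ≤ h * c' := by
  by_contra hcon
  rw [not_or, not_le, not_le] at hcon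
  obtain ⟨hA, hB⟩ := hcon
  zify at hA hB h1 hg
  have e1 : (g : ℤ) = c * (a' * g - h * c') + c' * (h * c - a * g) := by
    have : (g : ℤ) * (a' * c) = g * (a * c' + 1) := by rw [h1]
    linarith [this]
  have h2 : (1 : ℤ) ≤ a' * g - h * c' := by omega
  have h3 : (1 : ℤ) ≤ h * c - a * g := by omega
  have h4 : (c : ℤ) ≤ c * (a' * g - h * c') := by
    have := mul_le_mul_of_nonneg_left h2 (Int.natCast_nonneg c)
    linarith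
  have h5 : (c' : ℤ) ≤ c' * (h * c - a * g) := by
    have := mul_le_mul_of_nonneg_left h3 (Int.natCast_nonneg c')
    linarith
  linarith

private theorem core {w A : ℕ} {X Y c g : ℕ} (hw : 1 ≤ w) (hg : 1 ≤ g) (hc : c ≤ 2 ^ 17)
    (hA : 2 ^ 64 * A ≤ w) (hX : X ≤ (w + A) ^ c) (hY : w ^ c ≤ Y)
    (h : (2 ^ 24 + 1) ^ g * Y ≤ (2 ^ 24) ^ g * X) : False := by
  have hwR : (1 : ℝ) ≤ w := by exact_mod_cast hw
  have hwp : (0 : ℝ) < w := by linarith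
  have hAR : (A : ℝ) ≤ w * (1 / 2 ^ 64) := by
    have : ((2 : ℝ) ^ 64) * A ≤ w := by exact_mod_cast hA
    have h64 : (0 : ℝ) < 2 ^ 64 := by positivity
    rw [mul_one_div, le_div_iff₀ h64]
    linarith
  have hXR : (X : ℝ) ≤ ((w : ℝ) + A) ^ c := by exact_mod_cast hX
  have hYR : ((w : ℝ)) ^ c ≤ Y := by exact_mod_cast hY
  have hR : ((2 : ℝ) ^ 24 + 1) ^ g * Y ≤ ((2 : ℝ) ^ 24) ^ g * X := by exact_mod_cast h
  -- bound
  have h1 : ((w : ℝ) + A) ^ c ≤ (w * (1 + 1 / 2 ^ 64)) ^ c := by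
    apply pow_le_pow_left₀ (by positivity)
    linarith
  have h2 : (1 + 1 / 2 ^ 64 : ℝ) ^ c ≤ Real.exp (c * (1 / 2 ^ 64)) := by
    have := Real.add_one_le_exp ((1 : ℝ) / 2 ^ 64)
    calc (1 + 1 / 2 ^ 64 : ℝ) ^ c ≤ (Real.exp (1 / 2 ^ 64)) ^ c := by
          apply pow_le_pow_left₀ (by positivity)
          linarith
      _ = Real.exp (c * (1 / 2 ^ 64)) := by rw [← Real.exp_nat_mul]
  have h3 : Real.exp (c * (1 / 2 ^ 64)) < 1 + 1 / 2 ^ 24 := by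
    have hcR : (c : ℝ) ≤ 2 ^ 17 := by exact_mod_cast hc
    have h4 : (c : ℝ) * (1 / 2 ^ 64) ≤ 1 / 2 ^ 47 := by
      have : (2 : ℝ) ^ 17 * (1 / 2 ^ 64) = 1 / 2 ^ 47 := by norm_num
      rw [← this]
      exact mul_le_mul_of_nonneg_right hcR (by positivity)
    have h5 : Real.exp (c * (1 / 2 ^ 64)) ≤ Real.exp (1 / 2 ^ 47) := Real.exp_le_exp.mpr h4
    have h6 : Real.exp (1 / 2 ^ 47) ≤ 1 / (1 - 1 / 2 ^ 47) := by
      have := Real.add_one_le_exp (-(1 : ℝ) / 2 ^ 47)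
      have hpos : (0 : ℝ) < 1 - 1 / 2 ^ 47 := by norm_num
      have h7 : (1 : ℝ) - 1 / 2 ^ 47 ≤ Real.exp (-(1 / 2 ^ 47)) := by
        have e : (-(1 : ℝ) / 2 ^ 47) = -(1 / 2 ^ 47) := by ring
        rw [e] at this
        linarith
      rw [Real.exp_neg] at h7
      rw [le_div_iff₀ hpos]
      have h8 : Real.exp (1 / 2 ^ 47) * (1 - 1 / 2 ^ 47) ≤
          Real.exp (1 / 2 ^ 47) * (Real.exp (1 / 2 ^ 47))⁻¹ :=
        mul_le_mul_of_nonneg_left h7 (Real.exp_pos _).le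
      rwa [mul_inv_cancel₀ (Real.exp_pos _).ne'] at h8
    have h9 : (1 : ℝ) / (1 - 1 / 2 ^ 47) < 1 + 1 / 2 ^ 24 := by norm_num
    linarith
  have h10 : (X : ℝ) < (w : ℝ) ^ c * (1 + 1 / 2 ^ 24) := by
    calc (X : ℝ) ≤ (w * (1 + 1 / 2 ^ 64)) ^ c := hXR.trans h1
      _ = (w : ℝ) ^ c * (1 + 1 / 2 ^ 64) ^ c := by rw [mul_pow]
      _ ≤ (w : ℝ) ^ c * Real.exp (c * (1 / 2 ^ 64)) := mul_le_mul_of_nonneg_left h2 (by positivity)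
      _ < (w : ℝ) ^ c * (1 + 1 / 2 ^ 24) := mul_lt_mul_of_pos_left h3 (by positivity)
  have h11 : ((2 : ℝ) ^ 24 + 1) ^ g = ((2 : ℝ) ^ 24) ^ g * (1 + 1 / 2 ^ 24) ^ g := by
    rw [← mul_pow]; norm_num
  have h12 : (1 + 1 / 2 ^ 24 : ℝ) ≤ (1 + 1 / 2 ^ 24) ^ g := by
    calc (1 + 1 / 2 ^ 24 : ℝ) = (1 + 1 / 2 ^ 24) ^ 1 := by ring
      _ ≤ (1 + 1 / 2 ^ 24) ^ g := by
        apply pow_le_pow_right₀ _ hg
        norm_num
  rw [h11, mul_assoc] at hR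
  have h13 : (1 + 1 / 2 ^ 24 : ℝ) ^ g * Y ≤ X := le_of_mul_le_mul_left hR (by positivity)
  have hwc : (0 : ℝ) < (w : ℝ) ^ c := by positivity
  have h14 : (1 + 1 / 2 ^ 24 : ℝ) * (w : ℝ) ^ c ≤ (1 + 1 / 2 ^ 24) ^ g * Y :=
    mul_le_mul h12 hYR hwc.le (by positivity)
  linarith

/-- One side.

Proof. `(q ^ h) ^ c = q ^ (h c) ≤ q ^ (a g) = (q ^ a) ^ g`, so
`(2^24 + 1)^g (q^h)^c ≤ ((2^24 + 1) q^a)^g ≤ (2^24 p^c)^g = (2^24)^g (p^g)^c`, and `(2^24+1)^g / (2^24)^g ≥ 1 + 2^(-24)`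
(`g ≥ 1`). With `p^g ≤ w + A`, `q^h ≥ w`: `(1 + 2^(-24)) w^c ≤ (w + A)^c`, but in the reals
`((w + A) / w)^c ≤ (1 + 2^(-64))^c ≤ exp (c 2^(-64)) ≤ exp (2^(-47)) < 1 + 2^(-24)`
(`Real.add_one_le_exp`, and `Real.exp x ≤ 1 / (1 - x)`-like bounds, or
`one_add_mul_le_pow` for `(1 - 2^(-64))^c` and `(1 + x)(1 - x) ≤ 1`). Contradiction. -/
theorem side_lo {w A p q g h a c : ℕ} (hq : 1 ≤ q) (hw : 1 ≤ w) (hg : 1 ≤ g) (hc : c ≤ 2 ^ 17)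
    (hA : 2 ^ 64 * A ≤ w) (h2 : p ^ g ≤ w + A) (h3 : w + 1 ≤ q ^ h)
    (hag : h * c ≤ a * g) (hchk : (2 ^ 24 + 1) * q ^ a ≤ 2 ^ 24 * p ^ c) : False := by
  apply core (X := p ^ (g * c)) (Y := q ^ (a * g)) hw hg hc hA
  · rw [pow_mul]
    exact Nat.pow_le_pow_left h2 c
  · calc w ^ c ≤ (q ^ h) ^ c := Nat.pow_le_pow_left (by omega) c
      _ = q ^ (h * c) := by rw [pow_mul]
      _ ≤ q ^ (a * g) := Nat.pow_le_pow_right (by omega) hag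
  · calc (2 ^ 24 + 1) ^ g * q ^ (a * g) = ((2 ^ 24 + 1) * q ^ a) ^ g := by rw [mul_pow, pow_mul]
      _ ≤ (2 ^ 24 * p ^ c) ^ g := Nat.pow_le_pow_left hchk g
      _ = (2 ^ 24) ^ g * p ^ (g * c) := by rw [mul_pow, ← pow_mul p c g, mul_comm c g]

/-- The other side (the same proof with the roles exchanged).

Proof. `(p ^ g) ^ c' = (p ^ c') ^ g`, `(2^24+1)^g (p^c')^g ≤ (2^24)^g (q^a')^g = (2^24)^g q^(a' g) ≤ (2^24)^g q^(h c')`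
`= (2^24)^g (q^h)^c'`; `p^g ≥ w + 1 > w`, `q^h ≤ w + A`. -/
theorem side_hi {w A p q g h a' c' : ℕ} (hq : 1 ≤ q) (hw : 1 ≤ w) (hg : 1 ≤ g) (hc : c' ≤ 2 ^ 17)
    (hA : 2 ^ 64 * A ≤ w) (h1 : w + 1 ≤ p ^ g) (h4 : q ^ h ≤ w + A)
    (hag : a' * g ≤ h * c') (hchk : (2 ^ 24 + 1) * p ^ c' ≤ 2 ^ 24 * q ^ a') : False := by
  apply core (X := q ^ (h * c')) (Y := p ^ (g * c')) hw hg hc hA
  · rw [pow_mul]
    exact Nat.pow_le_pow_left h4 c'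
  · rw [pow_mul]
    exact Nat.pow_le_pow_left (by omega) c'
  · calc (2 ^ 24 + 1) ^ g * p ^ (g * c') = ((2 ^ 24 + 1) * p ^ c') ^ g := by rw [mul_pow, ← pow_mul, mul_comm c' g]
      _ ≤ (2 ^ 24 * q ^ a') ^ g := Nat.pow_le_pow_left hchk g
      _ = (2 ^ 24) ^ g * q ^ (a' * g) := by rw [mul_pow, ← pow_mul q a' g]
      _ ≤ (2 ^ 24) ^ g * q ^ (h * c') := Nat.mul_le_mul_left _ (Nat.pow_le_pow_right (by omega) hag)

end Pool.Agent.BZ
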