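import Mathlib
import Pool.Agent.BZ.B4
import Pool.Agent.BZ.B5

set_option autoImplicit false

namespace Pool.Agent.BZ

open Finset

/-- **Two primes below 127 do not both have powers in the window.**

Proof. `ftab_spec`; `p ^ g ≤ w + A < 2 ^ 65537 ≤ p ^ (c + c')`, so `g < c + c'` (`Nat.lt_pow_succ_log_self`,
`Nat.pow_lt_pow_iff_right`; keep the exponents symbolic, do not evaluate `2 ^ 65538`); `farey`, `side_lo`,
`side_hi`. -/
theorem excl {w A p q g h : ℕ} (hp : p.Prime) (hq : q.Prime) (hpq : p < q) (hq127 : q < 127)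
    (hw : 1 ≤ w) (hg : 1 ≤ g) (h1 : w + 1 ≤ p ^ g) (h2 : p ^ g ≤ w + A)
    (h3 : w + 1 ≤ q ^ h) (h4 : q ^ h ≤ w + A) (hW : Nat.log 2 (w + A) ≤ 65536)
    (hA : 2 ^ 64 * A ≤ w) : False := by
  obtain ⟨a, c, a', c', h5, h6, h7, h8, h9, h10, h11, h12⟩ := ftab_spec hp hq hpq hq127
  have hg' : g < c + c' := by
    have e1 : w + A < 2 ^ (Nat.log 2 (w + A) + 1) := Nat.lt_pow_succ_log_self (by norm_num) _
    have e2 : 2 ^ (Nat.log 2 (w + A) + 1) ≤ 2 ^ 65538 := Nat.pow_le_pow_right (by norm_num) (by omega)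
    have e3 : p ^ g < p ^ (c + c') := lt_of_le_of_lt h2 (lt_of_lt_of_le e1 (e2.trans h12))
    exact (Nat.pow_lt_pow_iff_right hp.one_lt).1 e3
  rcases farey h5 hg' with h | h
  · exact side_lo hq.one_le hw hg h8 hA h2 h3 h h10
  · exact side_hi hq.one_le hw hg h9 hA h1 h4 h h11

end Pool.Agent.BZ
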