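import Mathlib
import Pool.Agent.BZ.B1

set_option autoImplicit false

namespace Pool.Agent.BZ

open Finset

/-- **The final inequality for small `W`.**

Proof. `M = Nat.log 127 W`, `127 ^ M ≤ W`, `W < 2 ^ 65537`, so `M ≤ 10922` (`2 ^ 6 ≤ 127`) and `lcmUpto M ≤ 3 ^ M`
(`lcm_le`). `2 ^ 255 ≤ W`. `3 ^ 22 < 127 ^ 5`, so `(3 ^ M) ^ 22 ≤ (127 ^ M) ^ 5 ≤ W ^ 5`, i.e.
`log (3 ^ M) ≤ (5 / 22) log W`; `19 ^ 44 < 2 ^ 255 ≤ W`, i.e. `log 19 < (1 / 44) log W` (`norm_num`:
`19 ^ 44 < 2 ^ 187`). `5 / 22 + 1 / 44 = 1 / 4`. -/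
theorem small_final {W : ℕ} (h1 : 255 ≤ Nat.log 2 W) (h2 : Nat.log 2 W ≤ 65536) :
    19 * (Nat.lcmUpto (Nat.log 127 W) : ℝ) < Real.exp (Real.log W / 4) := by
  have hW0 : W ≠ 0 := by
    rintro rfl
    simp at h1
  have hWpos : (0 : ℝ) < W := by exact_mod_cast Nat.pos_of_ne_zero hW0
  have hW1 : 2 ^ 255 ≤ W := by
    calc 2 ^ 255 ≤ 2 ^ (Nat.log 2 W) := Nat.pow_le_pow_right (by norm_num) h1
      _ ≤ W := Nat.pow_log_le_self 2 hW0
  have hW2 : ∀ N : ℕ, 65537 ≤ N → W < 2 ^ N := by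
    intro N hN
    calc W < 2 ^ (Nat.log 2 W + 1) := Nat.lt_pow_succ_log_self (by norm_num) W
      _ ≤ 2 ^ N := Nat.pow_le_pow_right (by norm_num) (by omega)
  set M := Nat.log 127 W with hM
  have hM1 : 127 ^ M ≤ W := Nat.pow_log_le_self 127 hW0
  have hM2 : M ≤ 16384 := by
    by_contra hcon
    rw [not_le] at hcon
    have h3 : 2 ^ (6 * M) ≤ 127 ^ M := by
      rw [pow_mul]
      exact Nat.pow_le_pow_left (by norm_num) M
    have h4 : W < 2 ^ (6 * M) := hW2 _ (by omega)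
    exact absurd (h3.trans hM1) (not_le.mpr h4)
  have hl := lcm_le hM2
  have hlR : (Nat.lcmUpto M : ℝ) ≤ 3 ^ M := by exact_mod_cast hl
  -- logarithms
  have hlog1 : (M : ℝ) * Real.log 127 ≤ Real.log W := by
    have : ((127 : ℝ)) ^ M ≤ W := by exact_mod_cast hM1
    have := Real.log_le_log (by positivity) this
    rwa [Real.log_pow] at this
  have hlog2 : (255 : ℝ) * Real.log 2 ≤ Real.log W := by
    have : ((2 : ℝ)) ^ 255 ≤ W := by exact_mod_cast hW1
    have := Real.log_le_log (by positivity) this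
    rw [Real.log_pow] at this
    exact_mod_cast this
  have h3 : 22 * Real.log 3 ≤ 5 * Real.log 127 := by
    have h : ((3 : ℝ)) ^ 22 ≤ 127 ^ 5 := by norm_num
    have := Real.log_le_log (by positivity) h
    rw [Real.log_pow, Real.log_pow] at this
    exact_mod_cast this
  have h19 : 44 * Real.log 19 < 255 * Real.log 2 := by
    have h : ((19 : ℝ)) ^ 44 < 2 ^ 255 := by norm_num
    have := Real.log_lt_log (by positivity) h
    rw [Real.log_pow, Real.log_pow] at this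
    exact_mod_cast this
  have hMR : (0 : ℝ) ≤ M := Nat.cast_nonneg M
  have h5 : (M : ℝ) * Real.log 3 ≤ 5 / 22 * Real.log W := by
    have h6 : (M : ℝ) * (22 * Real.log 3) ≤ M * (5 * Real.log 127) := mul_le_mul_of_nonneg_left h3 hMR
    nlinarith [h6, hlog1]
  have h7 : Real.log 19 + M * Real.log 3 < Real.log W / 4 := by linarith
  have h8 : Real.exp (Real.log 19 + M * Real.log 3) = 19 * 3 ^ M := by
    rw [Real.exp_add, Real.exp_log (by norm_num), ← Real.log_pow, Real.exp_log (by positivity)]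
  have h9 : Real.exp (Real.log 19 + M * Real.log 3) < Real.exp (Real.log W / 4) := Real.exp_lt_exp.mpr h7
  rw [h8] at h9
  refine lt_of_le_of_lt ?_ h9
  exact mul_le_mul_of_nonneg_left hlR (by norm_num)

end Pool.Agent.BZ
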