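import Mathlib
import Pool.Agent.BY.KDefs

set_option autoImplicit false

namespace Pool.Agent.BZ

open Finset Pool.Agent.BY

private theorem two_n_add_one_le (n : ℕ) : 2 * n + 1 ≤ 2 ^ (n + 1) := by
  induction n with
  | zero => norm_num
  | succ n ih =>
    rw [pow_succ]
    omega

private theorem e_le {n : ℕ} (hn : 2 ≤ n) : 64 * (n + 1) ≤ 2 ^ (2 ^ (n + 1)) := by
  induction n, hn using Nat.le_induction with
  | base => norm_num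
  | succ n hn ih =>
    have h1 : 2 ^ (n + 1 + 1) = 2 ^ (n + 1) + 2 ^ (n + 1) := by ring
    rw [h1, pow_add]
    have h2 : 2 ≤ 2 ^ (2 ^ (n + 1)) := by
      have : 2 ^ (n + 1) ≠ 0 := by positivity
      calc 2 = 2 ^ 1 := by norm_num
        _ ≤ 2 ^ (2 ^ (n + 1)) := Nat.pow_le_pow_right (by norm_num) (Nat.one_le_iff_ne_zero.mpr this)
    calc 64 * (n + 1 + 1) ≤ (64 * (n + 1)) * 2 := by omega
      _ ≤ 2 ^ (2 ^ (n + 1)) * 2 ^ (2 ^ (n + 1)) := Nat.mul_le_mul ih h2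

private theorem exists_R {n : ℕ} (hn : 2 ≤ n) : ∃ R : ℕ, 2 ^ 32 ≤ R ∧ (2 * n + 1) ^ 8 ≤ R ∧
    n + 1 ≤ R ∧ 2 ^ (2 ^ (2 ^ (n + 1))) = R ^ 8 := by
  obtain ⟨Q', hQ'⟩ : ∃ Q', 2 ^ (2 ^ (n + 1)) = 8 * Q' := by
    have h8 : 3 ≤ 2 ^ (n + 1) := by
      calc 3 ≤ 2 ^ (2 + 1) := by norm_num
        _ ≤ 2 ^ (n + 1) := Nat.pow_le_pow_right (by norm_num) (by omega)
    obtain ⟨t, ht⟩ := Nat.exists_eq_add_of_le h8
    refine ⟨2 ^ t, ?_⟩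
    rw [ht, pow_add]
    norm_num
  have hE : 8 * (n + 1) ≤ Q' := by
    have := e_le hn
    omega
  have h32 : 32 ≤ Q' := by
    have : 2 ^ (2 ^ (2 + 1)) ≤ 2 ^ (2 ^ (n + 1)) :=
      Nat.pow_le_pow_right (by norm_num) (Nat.pow_le_pow_right (by norm_num) (by omega))
    have h256 : 2 ^ (2 ^ (2 + 1)) = 256 := by norm_num
    omega
  have hM : (2 * n + 1) ^ 8 ≤ 2 ^ Q' := by
    calc (2 * n + 1) ^ 8 ≤ (2 ^ (n + 1)) ^ 8 := Nat.pow_le_pow_left (two_n_add_one_le n) 8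
      _ = 2 ^ (8 * (n + 1)) := by rw [← pow_mul]; ring_nf
      _ ≤ 2 ^ Q' := Nat.pow_le_pow_right (by norm_num) hE
  refine ⟨2 ^ Q', Nat.pow_le_pow_right (by norm_num) h32, hM, ?_, ?_⟩
  · refine le_trans ?_ hM
    calc n + 1 ≤ 2 * n + 1 := by omega
      _ = (2 * n + 1) ^ 1 := (pow_one _).symm
      _ ≤ (2 * n + 1) ^ 8 := Nat.pow_le_pow_right (by omega) (by norm_num)
  · rw [hQ', ← pow_mul]
    ring_nf

private theorem c2_le {n a : ℕ} (ha : a ≤ 1) : c2 n a ≤ 8 * (n + 1) := by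
  unfold c2
  omega

/-- **Sizes.**

Proof. `Q = 2 ^ (2 ^ (n + 1)) ≥ 256`, `D = w - k`; `c2 n a ≤ 8 (n + 1)` (`unfold c2; omega`), so `T² < 4 (n + 1) k`.
`(2 n + 1)^8 ≤ 2 ^ (8 (n + 1))` and `8 (n + 1) ≤ Q / 8` (`n = 2`: `24 ≤ 32`). If `D ≥ k` then
`16 k D^3 ≤ 16 D^4 ≤ (2n+1)^8 k^3`, and more simply `16 D^4 ≤ (2n+1)^8 D^3`, so `D ≤ (2n+1)^8`, `k + w = 2 k + D ≤ 3 D`
`≤ 3 (2n+1)^8 < 2 ^ Q`: contradiction. So `D < k`, `k + w < 3 k`, `k ≥ 2 ^ (Q - 2)`, and `2 w ≥ k + w ≥ 2 ^ Q`.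
`1000 D ≤ k`: else `k^4 < 1000^4 D^4 ≤ 10^12 (2n+1)^8 k^3 / 16`, `k < 10^11 (2n+1)^8 ≤ 2^37 2^(Q/8)`, no
(`37 + Q/8 ≤ Q - 2`). `1000 (T + 2) ≤ k`: `(T + 2)² ≤ 2 T² + 8 ≤ 8 (n + 1) k + 8 ≤ 16 (n + 1) k`, and
`10^6 * 16 (n+1) ≤ k`. `(T+2)^6 ≤ (16 (n+1) k)^3 ≤ k^4 ≤ w^4` (`(16 (n+1))^3 ≤ k`), so `(T+2)^3 ≤ w²`.
`2^128 (T+2)² ≤ 2^132 (n+1) k ≤ w²` because `2^132 (n+1) ≤ 2^(Q-1) ≤ w`. (`n + 1 ≤ 2 ^ n`, `Q ≥ 2^(n+6)`-like
bounds by induction; keep `Q` as a variable.) -/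
theorem sizes {n a N k w T : ℕ} (hn : 2 ≤ n) (ha : a ≤ 1) (hk : k = N + 1 + a) (hkw : k ≤ w)
    (hv : 2 ^ (2 ^ (2 ^ (n + 1))) ≤ k + w) (hgap : 16 * (w - k) ^ 4 ≤ (2 * n + a) ^ 8 * k ^ 3)
    (hT : 2 * T ^ 2 < c2 n a * N) :
    2 ^ (2 ^ (2 ^ (n + 1)) - 1) ≤ w ∧ 1000 * (w - k) ≤ k ∧ 1000 * (T + 2) ≤ k ∧
      (T + 2) ^ 3 ≤ w ^ 2 ∧ 2 ^ 64 * (T + 2) ≤ w := by
  obtain ⟨R, hR32, hMR, hnR, hQR⟩ := exists_R hn
  have hR1 : 1 ≤ R := le_trans (by norm_num) hR32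
  have hR0 : 0 < R := hR1
  have hR7 : R ^ 7 ≥ 2 ^ 224 := by
    calc R ^ 7 ≥ (2 ^ 32) ^ 7 := Nat.pow_le_pow_left hR32 7
      _ = 2 ^ 224 := by norm_num
  obtain ⟨D, rfl⟩ := Nat.exists_eq_add_of_le hkw
  have hD : k + D - k = D := by omega
  rw [hD] at hgap ⊢
  rw [hQR] at hv
  have hk1 : 1 ≤ k := by omega
  have hgap2 : 16 * D ^ 4 ≤ R * k ^ 3 := by
    refine hgap.trans (Nat.mul_le_mul_right _ ?_)
    exact (Nat.pow_le_pow_left (by omega) 8).trans hMR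
  have hTk : T ^ 2 < 4 * (n + 1) * k := by
    have h1 : c2 n a * N ≤ 8 * (n + 1) * k := Nat.mul_le_mul (c2_le ha) (by omega)
    have h2 : 8 * (n + 1) * k = 2 * (4 * (n + 1) * k) := by ring
    omega
  have hT2 : (T + 2) ^ 2 ≤ 16 * (n + 1) * k := by
    have h1 : (T + 2) ^ 2 ≤ 2 * T ^ 2 + 8 := by
      zify
      nlinarith [sq_nonneg ((T : ℤ) - 2)]
    have h2 : 3 ≤ (n + 1) * k := by
      calc 3 ≤ (n + 1) * 1 := by omega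
        _ ≤ (n + 1) * k := Nat.mul_le_mul_left _ hk1
    have h3 : 4 * (n + 1) * k = 4 * ((n + 1) * k) := by ring
    have h4 : 16 * (n + 1) * k = 16 * ((n + 1) * k) := by ring
    omega
  have hT2R : (T + 2) ^ 2 ≤ 16 * R * k :=
    hT2.trans (Nat.mul_le_mul_right _ (Nat.mul_le_mul_left _ hnR))
  have hR8 : R ^ 8 = R * R ^ 7 := by ring
  -- `D < k`
  have hDk : D < k := by
    by_contra hcon
    push Not at hcon
    have hD0 : 0 < D := by omega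
    have h1 : 16 * D ^ 4 ≤ R * D ^ 3 :=
      hgap2.trans (Nat.mul_le_mul_left _ (Nat.pow_le_pow_left hcon 3))
    have h2 : 16 * D * D ^ 3 ≤ R * D ^ 3 := by
      calc 16 * D * D ^ 3 = 16 * D ^ 4 := by ring
        _ ≤ _ := h1
    have h3 : 16 * D ≤ R := Nat.le_of_mul_le_mul_right h2 (by positivity)
    have h4 : R ^ 8 ≤ R := by omega
    have h5 : R * 2 ^ 224 ≤ R ^ 8 := by
      rw [hR8]
      exact Nat.mul_le_mul_left _ hR7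
    have h6 : R * 2 ≤ R * 2 ^ 224 := Nat.mul_le_mul_left _ (by norm_num)
    omega
  have h3k : R ^ 8 < 3 * k := by omega
  have hbig : R * 2 ^ 224 < 3 * k := by
    refine lt_of_le_of_lt ?_ h3k
    rw [hR8]
    exact Nat.mul_le_mul_left _ hR7
  refine ⟨?_, ?_, ?_, ?_, ?_⟩
  · -- `2 ^ (Q - 1) ≤ w`
    have hQ1 : 1 ≤ 2 ^ (2 ^ (n + 1)) := Nat.one_le_two_pow
    obtain ⟨q, hq⟩ := Nat.exists_eq_add_of_le hQ1
    rw [hq] at hQR ⊢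
    rw [show 1 + q - 1 = q by omega]
    have h1 : 2 ^ (1 + q) = 2 * 2 ^ q := by rw [pow_add, pow_one]
    rw [h1] at hQR
    omega
  · -- `1000 D ≤ k`
    by_contra hcon
    push Not at hcon
    have h1 : k ^ 4 ≤ (1000 * D) ^ 4 := Nat.pow_le_pow_left hcon.le 4
    have h2 : k ^ 4 * 16 ≤ (1000 ^ 4 * R) * k ^ 3 := by
      calc k ^ 4 * 16 ≤ (1000 * D) ^ 4 * 16 := Nat.mul_le_mul_right _ h1
        _ = 1000 ^ 4 * (16 * D ^ 4) := by ring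
        _ ≤ 1000 ^ 4 * (R * k ^ 3) := Nat.mul_le_mul_left _ hgap2
        _ = (1000 ^ 4 * R) * k ^ 3 := by ring
    have h3 : (16 * k) * k ^ 3 ≤ (1000 ^ 4 * R) * k ^ 3 := by
      calc (16 * k) * k ^ 3 = k ^ 4 * 16 := by ring
        _ ≤ _ := h2
    have h4 : 16 * k ≤ 1000 ^ 4 * R := Nat.le_of_mul_le_mul_right h3 (by positivity)
    have h5 : (1000 : ℕ) ^ 4 = 1000000000000 := by norm_num
    rw [h5] at h4
    have h6 : (2 : ℕ) ^ 60 ≤ 2 ^ 224 := Nat.pow_le_pow_right (by norm_num) (by norm_num)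
    have h7 : R * 2 ^ 60 < 3 * k := lt_of_le_of_lt (Nat.mul_le_mul_left _ h6) hbig
    have h8 : (2 : ℕ) ^ 60 = 1152921504606846976 := by norm_num
    rw [h8] at h7
    clear hbig h6 hR7 hR32 hQR
    omega
  · -- `1000 (T + 2) ≤ k`
    by_contra hcon
    push Not at hcon
    have h1 : k ^ 2 ≤ (1000 * (T + 2)) ^ 2 := Nat.pow_le_pow_left hcon.le 2
    have h2 : k * k ≤ (16000000 * R) * k := by
      calc k * k = k ^ 2 := by ring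
        _ ≤ (1000 * (T + 2)) ^ 2 := h1
        _ = 1000000 * (T + 2) ^ 2 := by ring
        _ ≤ 1000000 * (16 * R * k) := Nat.mul_le_mul_left _ hT2R
        _ = (16000000 * R) * k := by ring
    have h4 : k ≤ 16000000 * R := Nat.le_of_mul_le_mul_right h2 hk1
    have h6 : (2 : ℕ) ^ 60 ≤ 2 ^ 224 := Nat.pow_le_pow_right (by norm_num) (by norm_num)
    have h7 : R * 2 ^ 60 < 3 * k := lt_of_le_of_lt (Nat.mul_le_mul_left _ h6) hbig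
    have h8 : (2 : ℕ) ^ 60 = 1152921504606846976 := by norm_num
    rw [h8] at h7
    clear hbig h6 hR7 hR32 hQR
    omega
  · -- `(T + 2) ^ 3 ≤ w ^ 2`
    have h0 : 4096 * R ^ 3 ≤ k := by
      have h1 : R ^ 3 * (R * 2 ^ 128) ≤ R ^ 8 := by
        calc R ^ 3 * (R * 2 ^ 128) = R ^ 4 * (2 ^ 32) ^ 4 := by ring
          _ ≤ R ^ 4 * R ^ 4 := Nat.mul_le_mul_left _ (Nat.pow_le_pow_left hR32 4)
          _ = R ^ 8 := by ring
      have h2 : R ^ 3 * 16384 ≤ R ^ 3 * (R * 2 ^ 128) := by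
        refine Nat.mul_le_mul_left _ ?_
        calc 16384 ≤ 1 * 2 ^ 128 := by norm_num
          _ ≤ R * 2 ^ 128 := Nat.mul_le_mul_right _ hR1
      omega
    have h1 : ((T + 2) ^ 3) ^ 2 ≤ ((k + D) ^ 2) ^ 2 := by
      calc ((T + 2) ^ 3) ^ 2 = ((T + 2) ^ 2) ^ 3 := by ring
        _ ≤ (16 * R * k) ^ 3 := Nat.pow_le_pow_left hT2R 3
        _ = (4096 * R ^ 3) * k ^ 3 := by ring
        _ ≤ k * k ^ 3 := Nat.mul_le_mul_right _ h0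
        _ = (k ^ 2) ^ 2 := by ring
        _ ≤ ((k + D) ^ 2) ^ 2 :=
          Nat.pow_le_pow_left (Nat.pow_le_pow_left (by omega) 2) 2
    exact (Nat.pow_le_pow_iff_left (by norm_num)).mp h1
  · -- `2 ^ 64 (T + 2) ≤ w`
    have h0 : 2 ^ 132 * (n + 1) ≤ k + D := by
      have h1 : 2 ^ 132 * (n + 1) ≤ 2 ^ 132 * R := Nat.mul_le_mul_left _ hnR
      have h2 : 2 ^ 132 * R * 4 ≤ R * 2 ^ 224 := by
        calc 2 ^ 132 * R * 4 = R * (2 ^ 132 * 4) := by ring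
          _ ≤ R * 2 ^ 224 := Nat.mul_le_mul_left _ (by norm_num)
      linarith
    have h1 : (2 ^ 64 * (T + 2)) ^ 2 ≤ (k + D) ^ 2 := by
      calc (2 ^ 64 * (T + 2)) ^ 2 = 2 ^ 128 * (T + 2) ^ 2 := by ring
        _ ≤ 2 ^ 128 * (16 * (n + 1) * k) := Nat.mul_le_mul_left _ hT2
        _ = (2 ^ 132 * (n + 1)) * k := by ring
        _ ≤ (k + D) * (k + D) := Nat.mul_le_mul h0 (by omega)
        _ = (k + D) ^ 2 := by ring
    exact (Nat.pow_le_pow_iff_left (by norm_num)).mp h1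

end Pool.Agent.BZ
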