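import Mathlib
import Pool.Agent.BZ.S1

set_option autoImplicit false

namespace Pool.Agent.BZ

open Finset Pool.Agent.BY

/-- **The distance of the logarithms.**

Proof. `W = w + T + 1 + a`, `y = N + 1 - t`, `D = w - k`, `E = exp (log W / 4)`, `E^4 = W`, `E ≥ 2^63` (`W ≥ w ≥ 2^255`).
`sizes`. `log W - log y = log (W / y) ≤ W / y - 1 = (W - y) / y`, `W - y = D + T + t + 1 + 2 a ≤ D + 2 T + 3`.
`16 D^4 ≤ (2n+1)^8 k^3 ≤ (2n+1)^8 W^3 = ((2n+1)^2 E^3)^4`, so `D ≤ (2n+1)^2 E^3 / 2`.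
`(2 T + 3)² ≤ 8 T² + 18 ≤ 33 (n+1) W` (`T² < 4 (n+1) N`) `≤ ((2n+1)^2 E^3 / 100)^2` (`E^6 = E^2 W`), so
`W - y ≤ 0.51 (2n+1)^2 E^3`. `y ≥ k - a - T ≥ 0.99 W` because `W ≤ k + D + T + 2`, `D, T + 2 ≤ k / 1000`. So
`(W - y) / y ≤ (0.51 / 0.99) (2n+1)^2 E^3 / E^4 ≤ 0.52 (2n+1)^2 / E`. -/
theorem delta {n a N k w T t : ℕ} (hn : 2 ≤ n) (ha : a ≤ 1) (hk : k = N + 1 + a) (hkw : k ≤ w)
    (hv : 2 ^ (2 ^ (2 ^ (n + 1))) ≤ k + w) (hgap : 16 * (w - k) ^ 4 ≤ (2 * n + a) ^ 8 * k ^ 3)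
    (hT : 2 * T ^ 2 < c2 n a * N) (ht : t ≤ T) :
    Real.log ((w + (T + 1 + a) : ℕ) : ℝ) - Real.log ((N + 1 - t : ℕ) : ℝ) ≤
      13 / 25 * (2 * n + 1) ^ 2 * Real.exp (-(Real.log ((w + (T + 1 + a) : ℕ) : ℝ) / 4)) := by
  obtain ⟨h1, h2, h3, -, -⟩ := sizes hn ha hk hkw hv hgap hT
  have hQ : 256 ≤ 2 ^ (2 ^ (n + 1)) := by
    have e1 : (2:ℕ) ^ 3 ≤ 2 ^ (n + 1) := Nat.pow_le_pow_right (by norm_num) (by omega)
    calc (256:ℕ) = 2 ^ 8 := by norm_num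
      _ ≤ 2 ^ (2 ^ (n + 1)) := Nat.pow_le_pow_right (by norm_num) (by omega)
  have hw255 : 2 ^ 255 ≤ w := le_trans (Nat.pow_le_pow_right (by norm_num) (by omega)) h1
  have hw40 : 10 ^ 40 ≤ w := le_trans (by norm_num) hw255
  clear h1 hw255 hQ hv
  obtain ⟨D, hD⟩ : ∃ D, w = k + D := ⟨w - k, by omega⟩
  have hDk : w - k = D := by omega
  rw [hDk] at hgap h2
  obtain ⟨y, hy, hyk⟩ : ∃ y, N + 1 - t = y ∧ y + t + a = k := ⟨_, rfl, by omega⟩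
  rw [hy]
  have hc2 : c2 n a ≤ 8 * (n + 1) := by
    unfold c2
    omega
  -- real numbers
  obtain ⟨W, hW⟩ : ∃ W : ℝ, W = ((w + (T + 1 + a) : ℕ) : ℝ) := ⟨_, rfl⟩
  rw [← hW]
  have hWk : W = k + D + T + 1 + a := by
    rw [hW, hD]
    push_cast
    ring
  have hyR : (y : ℝ) + t + a = k := by exact_mod_cast hyk
  have haR : (a : ℝ) ≤ 1 := by exact_mod_cast ha
  have ha0 : (0 : ℝ) ≤ a := Nat.cast_nonneg a
  have htT : (t : ℝ) ≤ T := by exact_mod_cast ht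
  have hT0 : (0 : ℝ) ≤ T := Nat.cast_nonneg T
  have hD0 : (0 : ℝ) ≤ D := Nat.cast_nonneg D
  have h2R : 1000 * (D : ℝ) ≤ k := by exact_mod_cast h2
  have h3R : 1000 * ((T : ℝ) + 2) ≤ k := by exact_mod_cast h3
  have hnR : (2 : ℝ) ≤ n := by exact_mod_cast hn
  have hW40 : (10 : ℝ) ^ 40 ≤ W := by
    have e1 : ((10 ^ 40 : ℕ) : ℝ) ≤ w := by exact_mod_cast hw40
    have e2 : (w : ℝ) = k + D := by exact_mod_cast hD
    push_cast at e1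
    linarith
  have hW0 : 0 < W := lt_of_lt_of_le (by norm_num) hW40
  have hk0 : (0 : ℝ) ≤ k := Nat.cast_nonneg k
  have hkW : (k : ℝ) ≤ W := by linarith
  have hyW : 99 / 100 * W ≤ y := by linarith
  have hy0 : (0 : ℝ) < y := by linarith
  -- `E = W ^ (1/4)`
  obtain ⟨E, hE⟩ : ∃ E : ℝ, E = Real.exp (Real.log W / 4) := ⟨_, rfl⟩
  have hE0 : 0 < E := hE ▸ Real.exp_pos _
  have hE4 : E ^ 4 = W := by
    rw [hE, ← Real.exp_nat_mul]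
    have e1 : ((4 : ℕ) : ℝ) * (Real.log W / 4) = Real.log W := by
      push_cast
      ring
    rw [e1, Real.exp_log hW0]
  rw [Real.exp_neg, ← hE]
  have hE2 : (10 : ℝ) ^ 20 ≤ E ^ 2 := by
    by_contra hcon
    push Not at hcon
    have e1 : (E ^ 2) ^ 2 < ((10 : ℝ) ^ 20) ^ 2 := pow_lt_pow_left₀ hcon (by positivity) (by norm_num)
    have e2 : (E ^ 2) ^ 2 = W := by rw [← hE4]; ring
    rw [e2] at e1
    have e3 : ((10 : ℝ) ^ 20) ^ 2 = 10 ^ 40 := by norm_num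
    linarith
  obtain ⟨R, hR⟩ : ∃ R : ℝ, R = 2 * n + 1 := ⟨_, rfl⟩
  rw [← hR]
  have hR5 : 5 ≤ R := by linarith
  have hX0 : 0 ≤ R ^ 2 * E ^ 3 := by positivity
  -- the bound for `D`
  have hDb : 2 * (D : ℝ) ≤ R ^ 2 * E ^ 3 := by
    by_contra hcon
    push Not at hcon
    have e1 : (R ^ 2 * E ^ 3) ^ 4 < (2 * (D : ℝ)) ^ 4 := pow_lt_pow_left₀ hcon hX0 (by norm_num)
    have e2 : (16 : ℝ) * (D : ℝ) ^ 4 ≤ (2 * n + a) ^ 8 * (k : ℝ) ^ 3 := by exact_mod_cast hgap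
    have e3 : (2 * (n : ℝ) + a) ^ 8 ≤ R ^ 8 := pow_le_pow_left₀ (by positivity) (by linarith) 8
    have e4 : (k : ℝ) ^ 3 ≤ W ^ 3 := pow_le_pow_left₀ hk0 hkW 3
    have e5 : (2 * (n : ℝ) + a) ^ 8 * (k : ℝ) ^ 3 ≤ R ^ 8 * W ^ 3 :=
      mul_le_mul e3 e4 (by positivity) (by positivity)
    have e6 : (R ^ 2 * E ^ 3) ^ 4 = R ^ 8 * W ^ 3 := by
      rw [← hE4]
      ring
    have e7 : (2 * (D : ℝ)) ^ 4 = 16 * (D : ℝ) ^ 4 := by ring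
    linarith
  -- the bound for `T`
  have hTb : 2 * (T : ℝ) + 3 ≤ R ^ 2 * E ^ 3 / 100 := by
    by_contra hcon
    push Not at hcon
    have e1 : (R ^ 2 * E ^ 3 / 100) ^ 2 < (2 * (T : ℝ) + 3) ^ 2 :=
      pow_lt_pow_left₀ hcon (by positivity) (by norm_num)
    have e2 : 2 * T ^ 2 ≤ 8 * (n + 1) * k := by
      have e3 : c2 n a * N ≤ 8 * (n + 1) * k := Nat.mul_le_mul hc2 (by omega)
      omega
    have e3 : 2 * (T : ℝ) ^ 2 ≤ 8 * (n + 1) * k := by exact_mod_cast e2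
    have e4 : (n + 1 : ℝ) * k ≤ (n + 1) * W := mul_le_mul_of_nonneg_left hkW (by positivity)
    have e5 : (2 * (T : ℝ) + 3) ^ 2 ≤ 33 * ((n + 1) * W) := by
      have e6 : (2 * (T : ℝ) + 3) ^ 2 ≤ 8 * (T : ℝ) ^ 2 + 18 := by
        nlinarith [sq_nonneg (2 * (T : ℝ) - 3)]
      have e7 : (18 : ℝ) ≤ (n + 1) * W := by nlinarith
      nlinarith
    have e6 : (R ^ 2 * E ^ 3 / 100) ^ 2 = R ^ 4 * (E ^ 2 * W) / 10000 := by
      rw [← hE4]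
      ring
    have e7 : (n + 1 : ℝ) ≤ R ^ 4 := by
      have e8 : (n + 1 : ℝ) ≤ R := by linarith
      have e9 : R ≤ R ^ 4 := by
        calc R = R ^ 1 := (pow_one R).symm
          _ ≤ R ^ 4 := pow_le_pow_right₀ (by linarith) (by norm_num)
      linarith
    have e8 : 330000 * ((n + 1 : ℝ) * W) ≤ R ^ 4 * (E ^ 2 * W) := by
      calc 330000 * ((n + 1 : ℝ) * W) = (n + 1 : ℝ) * (330000 * W) := by ring
        _ ≤ R ^ 4 * (E ^ 2 * W) := by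
          refine mul_le_mul e7 ?_ (by positivity) (by positivity)
          exact mul_le_mul_of_nonneg_right (le_trans (by norm_num) hE2) hW0.le
    rw [e6] at e1
    linarith
  -- the conclusion
  have hWy : W - y ≤ 51 / 100 * (R ^ 2 * E ^ 3) := by linarith
  have hlog : Real.log W - Real.log y ≤ W / y - 1 := by
    rw [← Real.log_div hW0.ne' hy0.ne']
    exact Real.log_le_sub_one_of_pos (div_pos hW0 hy0)
  refine hlog.trans ?_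
  have e1 : W / y - 1 = (W - y) / y := by
    field_simp
  rw [e1, div_le_iff₀ hy0]
  have e2 : 13 / 25 * R ^ 2 * E⁻¹ * (99 / 100 * W) ≤ 13 / 25 * R ^ 2 * E⁻¹ * y :=
    mul_le_mul_of_nonneg_left hyW (by positivity)
  have e3 : 13 / 25 * R ^ 2 * E⁻¹ * (99 / 100 * W) = 1287 / 2500 * (R ^ 2 * E ^ 3) := by
    rw [← hE4]
    field_simp
    ring
  linarith

end Pool.Agent.BZ
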