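import Mathlib
import Pool.Agent.BZ.A5
import Pool.Agent.BZ.A6
import Pool.Agent.BZ.B2
import Pool.Agent.BZ.B6
import Pool.Agent.BZ.B3
import Pool.Agent.BZ.S2

set_option autoImplicit false

namespace Pool.Agent.BZ

open Finset Pool.Agent.BY

private lemma m2_win_log {w A p g : ℕ} (hp : p.Prime) (hA : A ≤ w) (h1 : w + 1 ≤ p ^ g)
    (h2 : p ^ g ≤ w + A) : Nat.log p (w + A) = g := by
  apply Nat.log_eq_of_pow_le_of_lt_pow h2
  calc w + A < 2 * (w + 1) := by omega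
    _ ≤ p * p ^ g := Nat.mul_le_mul hp.two_le h1
    _ = p ^ (g + 1) := by rw [pow_succ]; ring

private lemma m2_log_ge {W b : ℕ} (hW : W ≠ 0) (hb : b ≤ Nat.log 2 W) :
    (b : ℝ) * 0.693 ≤ Real.log W := by
  have h1 : 2 ^ b ≤ W := (Nat.pow_le_pow_right (by norm_num) hb).trans (Nat.pow_log_le_self 2 hW)
  have h2 : ((2 : ℝ) ^ b) ≤ (W : ℝ) := by exact_mod_cast h1
  have h3 : Real.log ((2 : ℝ) ^ b) ≤ Real.log W := Real.log_le_log (by positivity) h2
  rw [Real.log_pow] at h3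
  have h4 := Real.log_two_gt_d9
  have h5 : (0 : ℝ) ≤ (b : ℝ) := Nat.cast_nonneg b
  nlinarith

/-- **The arithmetic for `n = 2`.**

Proof. `A = T + 1 + a`, `W = w + A`, `y = N + 1 - t ≥ 1` (`1000 (T + 2) ≤ k`), `y ≤ k ≤ w`, `G = y.primeFactors`,
`μ p = v_p y`, so `y = ∏ p^(μ p)` (`Nat.factorization_prod_pow_eq_self`). For `p ∈ G`: `p ≤ y ≤ k`, `p ∣ Θ` (`hpy`), so
`hwin` gives `g ≥ 2` with `w + 1 ≤ p^g ≤ W`, and `g = Nat.log p W` (`p^(g+1) ≥ 2 (w+1) > W`). `sizes` (`n = 2`: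
`2 ^ 255 ≤ w`, i.e. `2 ^ (2 ^ (2 ^ 3) - 1)`), `b = Nat.log 2 W ≥ 255`. `delta` with `n = 2`:
`log W - log y ≤ 13 exp (-(log W / 4))`. `single` for a common multiple `Λ` of the `Nat.log p W`, `p ∈ G`:
`log W ≤ 13 Λ exp (-(log W / 4))`, i.e. `log W exp (log W / 4) ≤ 13 Λ`.
(1) `b ≥ 65535`: `lam_exists`: `Λ ≤ b^172 L`; `log W ≥ 13`, so `exp (log W / 4) ≤ Λ ≤ b^172 L`: contradiction with
`big_final`.
(2) `b < 65535`: by `excl` at most one element of `G` is `< 127` (`A ≤ T + 2`, `2^64 (T + 2) ≤ w`). Let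
`L = Nat.lcmUpto (Nat.log 127 W)`: `Nat.log p W ∣ L` for `p ≥ 127` (`1 ≤ Nat.log p W ≤ Nat.log 127 W`,
`Finset.dvd_lcm`). If no element of `G` is `< 127` take `Λ = L`, otherwise, for the one element `p0 < 127`,
`Λ = Nat.log p0 W * L ≤ b L`. In both cases `Λ ≤ b L` and `log W ≥ b log 2 ≥ b * 0.693`, so
`exp (log W / 4) ≤ 13 Λ / log W ≤ (13 / 0.693) L ≤ 19 L`: contradiction with `small_final`. -/
theorem arith2 {a N k w T Θ t : ℕ} (ha : a ≤ 1) (hk : k = N + 1 + a) (hkw : k ≤ w)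
    (hv : 2 ^ (2 ^ (2 ^ (2 + 1))) ≤ k + w) (hgap : 16 * (w - k) ^ 4 ≤ (2 * 2 + a) ^ 8 * k ^ 3)
    (hT : 2 * T ^ 2 < c2 2 a * N) (ht : t ≤ T) (hpy : ∀ p, p.Prime → p ∣ N + 1 - t → p ∣ Θ)
    (hwin : ∀ p, p.Prime → p ≤ k → p ∣ Θ → ¬ p ^ 2 ∣ Θ ∧
      ∃ g, 2 ≤ g ∧ w + 1 ≤ p ^ g ∧ p ^ g ≤ w + (T + 1 + a)) : False := by
  obtain ⟨hw, hD, hT2, hT3, hT64⟩ := sizes (n := 2) le_rfl ha hk hkw hv hgap hT
  have hdel := delta (n := 2) le_rfl ha hk hkw hv hgap hT ht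
  have hexp : 2 ^ (2 ^ (2 + 1)) - 1 = 255 := by norm_num
  rw [hexp] at hw
  obtain ⟨A, hAdef⟩ : ∃ A, A = T + 1 + a := ⟨_, rfl⟩
  rw [← hAdef] at hdel hwin
  have hA2 : A ≤ T + 2 := by omega
  have hTw : T + 2 ≤ w := by omega
  have hAw : A ≤ w := by omega
  have hA1 : 1 ≤ A := by omega
  have hw1 : 1 ≤ w := by omega
  obtain ⟨W, hWdef⟩ : ∃ W, W = w + A := ⟨_, rfl⟩
  obtain ⟨y, hydef⟩ : ∃ y, y = N + 1 - t := ⟨_, rfl⟩
  rw [← hWdef, ← hydef] at hdel
  rw [← hydef] at hpy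
  have hy1 : 1 ≤ y := by omega
  have hyk : y ≤ k := by omega
  have hyw : y ≤ w := by omega
  have hW255 : 2 ^ 255 ≤ W := by omega
  have hW0 : W ≠ 0 := by omega
  have hb255 : 255 ≤ Nat.log 2 W :=
    (Nat.le_log_iff_pow_le (by norm_num) hW0).2 hW255
  -- the window
  have hG : ∀ p ∈ y.primeFactors, 1 ≤ Nat.log p W ∧ w + 1 ≤ p ^ Nat.log p W ∧
      p ^ Nat.log p W ≤ W := by
    intro p hp
    have hpp := Nat.prime_of_mem_primeFactors hp
    have hpdvd := Nat.dvd_of_mem_primeFactors hp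
    have hple : p ≤ y := Nat.le_of_dvd (by omega) hpdvd
    obtain ⟨-, g, hg2, hg3, hg4⟩ := hwin p hpp (by omega) (hpy p hpp hpdvd)
    have hlog := m2_win_log hpp hAw hg3 hg4
    rw [← hWdef] at hlog hg4
    rw [hlog]
    exact ⟨by omega, hg3, hg4⟩
  have hyprod : y = ∏ p ∈ y.primeFactors, p ^ y.factorization p := by
    conv_lhs => rw [← Nat.prod_factorization_pow_eq_self (show y ≠ 0 by omega)]
    rw [Finsupp.prod, Nat.support_factorization]
  have hWgt : w + 1 ≤ W := by omega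
  have key : ∀ Λ : ℕ, 0 < Λ → (∀ p ∈ y.primeFactors, Nat.log p W ∣ Λ) →
      Real.log W * Real.exp (Real.log W / 4) ≤ 13 * Λ := by
    intro Λ hΛ0 hΛ
    have h1 := single (μ := fun p => y.factorization p) (g := fun p => Nat.log p W)
      hw1 hWgt hG hyprod hyw hΛ hΛ0
    have hΛr : (0 : ℝ) < Λ := by exact_mod_cast hΛ0
    have h2 : Real.log W ≤ Λ * (13 * Real.exp (-(Real.log W / 4))) := by
      refine h1.trans (mul_le_mul_of_nonneg_left ?_ hΛr.le)
      refine hdel.trans (le_of_eq ?_)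
      push_cast
      ring
    have h3 : Real.log W * Real.exp (Real.log W / 4) ≤
        Λ * (13 * Real.exp (-(Real.log W / 4))) * Real.exp (Real.log W / 4) :=
      mul_le_mul_of_nonneg_right h2 (Real.exp_pos _).le
    have h4 : (Λ : ℝ) * (13 * Real.exp (-(Real.log W / 4))) * Real.exp (Real.log W / 4) =
        13 * Λ := by
      have : Real.exp (-(Real.log W / 4)) * Real.exp (Real.log W / 4) = 1 := by
        rw [← Real.exp_add]; simp
      calc (Λ : ℝ) * (13 * Real.exp (-(Real.log W / 4))) * Real.exp (Real.log W / 4)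
          = Λ * 13 * (Real.exp (-(Real.log W / 4)) * Real.exp (Real.log W / 4)) := by ring
        _ = 13 * Λ := by rw [this]; ring
    rwa [h4] at h3
  have hlogW : ((Nat.log 2 W : ℕ) : ℝ) * 0.693 ≤ Real.log W := m2_log_ge hW0 le_rfl
  have hbr : (255 : ℝ) ≤ ((Nat.log 2 W : ℕ) : ℝ) := by exact_mod_cast hb255
  have hE : 0 < Real.exp (Real.log W / 4) := Real.exp_pos _
  rcases le_or_gt 65535 (Nat.log 2 W) with hb | hb
  · -- large W
    have h1024 : 1024 ≤ W := by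
      calc 1024 = 2 ^ 10 := by norm_num
        _ ≤ 2 ^ 255 := Nat.pow_le_pow_right (by norm_num) (by norm_num)
        _ ≤ W := hW255
    obtain ⟨Λ, hΛ0, hΛ, hΛle⟩ := lam_exists h1024 y.primeFactors
      (fun p hp => Nat.prime_of_mem_primeFactors hp)
      (fun p hp => (Nat.le_of_dvd (by omega) (Nat.dvd_of_mem_primeFactors hp)).trans (by omega))
    have h1 := key Λ hΛ0 hΛ
    have h2 := big_final hb
    have h3 : (Λ : ℝ) ≤ ((Nat.log 2 W : ℕ) : ℝ) ^ 172 * (Nat.lcmUpto (Nat.log 1024 W) : ℝ) := by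
      exact_mod_cast hΛle
    have h4 : Real.exp (Real.log W / 4) ≤ Λ := by
      have h5 : 13 ≤ Real.log W := by nlinarith
      nlinarith
    have h6 : ((Nat.log 2 W : ℕ) : ℝ) ^ 172 ≤ 2 * ((Nat.log 2 W : ℕ) : ℝ) ^ 174 := by
      have h7 : ((Nat.log 2 W : ℕ) : ℝ) ^ 172 ≤ ((Nat.log 2 W : ℕ) : ℝ) ^ 174 :=
        pow_le_pow_right₀ (by linarith) (by norm_num)
      have h8 : 0 ≤ ((Nat.log 2 W : ℕ) : ℝ) ^ 174 := by positivity
      linarith
    have h9 : (0 : ℝ) ≤ (Nat.lcmUpto (Nat.log 1024 W) : ℝ) := Nat.cast_nonneg _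
    have h10 := mul_le_mul_of_nonneg_right h6 h9
    linarith
  · -- small W
    have hbu : Nat.log 2 W ≤ 65536 := by omega
    obtain ⟨L, hLdef⟩ : ∃ L, L = Nat.lcmUpto (Nat.log 127 W) := ⟨_, rfl⟩
    have hL0 : 0 < L := by rw [hLdef]; exact Nat.lcmUpto_pos _
    have hbig : ∀ p ∈ y.primeFactors, 127 ≤ p → Nat.log p W ∣ L := by
      intro p hp hp127
      rw [hLdef]
      unfold Nat.lcmUpto
      have hmem : Nat.log p W ∈ Icc 1 (Nat.log 127 W) :=
        mem_Icc.2 ⟨(hG p hp).1, Nat.log_anti_left (by norm_num) hp127⟩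
      exact Finset.dvd_lcm (f := id) hmem
    have hexcl : ∀ p ∈ y.primeFactors, ∀ q ∈ y.primeFactors, p < q → q < 127 → False := by
      intro p hp q hq hpq hq127
      obtain ⟨hp1, hp2, hp3⟩ := hG p hp
      obtain ⟨hq1, hq2, hq3⟩ := hG q hq
      rw [hWdef] at hp3 hq3 hbu hp1 hp2 hq1 hq2
      refine excl (w := w) (A := A) (Nat.prime_of_mem_primeFactors hp)
        (Nat.prime_of_mem_primeFactors hq) hpq hq127 hw1 hp1 hp2 hp3 hq2 hq3 hbu ?_
      exact (Nat.mul_le_mul_left _ hA2).trans hT64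
    have hΛex : ∃ Λ : ℕ, 0 < Λ ∧ (∀ p ∈ y.primeFactors, Nat.log p W ∣ Λ) ∧
        Λ ≤ Nat.log 2 W * L := by
      by_cases hex : ∃ p0 ∈ y.primeFactors, p0 < 127
      · obtain ⟨p0, hp0, hp0l⟩ := hex
        refine ⟨Nat.log p0 W * L, Nat.mul_pos (hG p0 hp0).1 hL0, ?_, ?_⟩
        · intro p hp
          rcases lt_or_ge p 127 with h | h
          · have hpe : p = p0 := by
              rcases lt_trichotomy p p0 with h' | h' | h'
              · exact (hexcl p hp p0 hp0 h' hp0l).elim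
              · exact h'
              · exact (hexcl p0 hp0 p hp h' h).elim
            rw [hpe]
            exact Dvd.intro _ rfl
          · exact Dvd.dvd.mul_left (hbig p hp h) _
        · exact Nat.mul_le_mul_right _
            (Nat.log_anti_left (by norm_num) (Nat.prime_of_mem_primeFactors hp0).two_le)
      · refine ⟨L, hL0, ?_, ?_⟩
        · intro p hp
          refine hbig p hp ?_
          by_contra h
          exact hex ⟨p, hp, by omega⟩
        · exact Nat.le_mul_of_pos_left _ (by omega)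
    obtain ⟨Λ, hΛ0, hΛ, hΛle⟩ := hΛex
    have h1 := key Λ hΛ0 hΛ
    have h2 := small_final hb255 hbu
    rw [← hLdef] at h2
    have h3 : (Λ : ℝ) ≤ ((Nat.log 2 W : ℕ) : ℝ) * (L : ℝ) := by exact_mod_cast hΛle
    have hLr : (0 : ℝ) < L := by exact_mod_cast hL0
    -- exp * (0.693 b) ≤ 13 b L
    have h4 : ((Nat.log 2 W : ℕ) : ℝ) * 0.693 * Real.exp (Real.log W / 4) ≤
        13 * (((Nat.log 2 W : ℕ) : ℝ) * (L : ℝ)) := by
      calc ((Nat.log 2 W : ℕ) : ℝ) * 0.693 * Real.exp (Real.log W / 4)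
          ≤ Real.log W * Real.exp (Real.log W / 4) := mul_le_mul_of_nonneg_right hlogW hE.le
        _ ≤ 13 * Λ := h1
        _ ≤ _ := by linarith
    have h5 : 0.693 * Real.exp (Real.log W / 4) ≤ 13 * (L : ℝ) := by
      have hbpos : (0 : ℝ) < ((Nat.log 2 W : ℕ) : ℝ) := by linarith
      refine le_of_mul_le_mul_left ?_ hbpos
      calc ((Nat.log 2 W : ℕ) : ℝ) * (0.693 * Real.exp (Real.log W / 4))
          = ((Nat.log 2 W : ℕ) : ℝ) * 0.693 * Real.exp (Real.log W / 4) := by ring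
        _ ≤ 13 * (((Nat.log 2 W : ℕ) : ℝ) * (L : ℝ)) := h4
        _ = ((Nat.log 2 W : ℕ) : ℝ) * (13 * (L : ℝ)) := by ring
    linarith

end Pool.Agent.BZ
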