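import Mathlib

set_option autoImplicit false

namespace Pool.Agent.BZ

private theorem gcd_dvd_two_aux {w A p q g h : ℕ} (hp : p.Prime) (hq : q.Prime) (hg : 1 ≤ g)
    (hh : 1 ≤ h) (h1 : w + 1 ≤ p ^ g) (h2 : p ^ g ≤ w + A) (h3 : w + 1 ≤ q ^ h)
    (h4 : q ^ h ≤ w + A) (hlt : q ^ h < p ^ g) (hA : A ^ 3 ≤ w ^ 2) : Nat.gcd g h ∣ 2 := by
  have he1 : 1 ≤ Nat.gcd g h := Nat.gcd_pos_of_pos_left _ (by omega)
  obtain ⟨a, ha⟩ : Nat.gcd g h ∣ g := Nat.gcd_dvd_left _ _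
  obtain ⟨b, hb⟩ : Nat.gcd g h ∣ h := Nat.gcd_dvd_right _ _
  generalize Nat.gcd g h = e at *
  by_cases he3 : e < 3
  · interval_cases e
    · exact one_dvd _
    · exact dvd_refl _
  exfalso
  push Not at he3
  obtain ⟨P, hP⟩ : ∃ P, P = p ^ a := ⟨_, rfl⟩
  obtain ⟨Q, hQ⟩ : ∃ Q, Q = q ^ b := ⟨_, rfl⟩
  have hPe : p ^ g = P ^ e := by rw [ha, hP, ← pow_mul, mul_comm]
  have hQe : q ^ h = Q ^ e := by rw [hb, hQ, ← pow_mul, mul_comm]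
  have hQ1 : 1 ≤ Q := by
    rw [hQ]
    exact Nat.one_le_iff_ne_zero.mpr (pow_ne_zero _ hq.pos.ne')
  rw [hPe] at h1 h2 hlt
  rw [hQe] at h3 h4 hlt
  have hPQ : Q + 1 ≤ P := lt_of_pow_lt_pow_left₀ e (Nat.zero_le _) hlt
  obtain ⟨f, rfl⟩ : ∃ f, e = f + 1 := ⟨e - 1, by omega⟩
  have h5 : Q ^ (f + 1) + (f + 1) * Q ^ f ≤ (Q + 1) ^ (f + 1) := by
    clear * -
    induction f with
    | zero => simp
    | succ n ih =>
      calc Q ^ (n + 1 + 1) + (n + 1 + 1) * Q ^ (n + 1)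
          ≤ (Q ^ (n + 1) + (n + 1) * Q ^ n) * (Q + 1) := by
            have : Q ^ (n + 1 + 1) = Q ^ (n + 1) * Q := pow_succ _ _
            have h' : Q ^ (n + 1) = Q ^ n * Q := pow_succ _ _
            rw [this]
            nlinarith [Nat.zero_le ((n + 1) * Q ^ n)]
        _ ≤ (Q + 1) ^ (n + 1) * (Q + 1) := Nat.mul_le_mul_right _ ih
        _ = (Q + 1) ^ (n + 1 + 1) := (pow_succ _ _).symm
  have h6 : (Q + 1) ^ (f + 1) ≤ P ^ (f + 1) := Nat.pow_le_pow_left hPQ _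
  have h7 : 3 * Q ^ f ≤ (f + 1) * Q ^ f := Nat.mul_le_mul_right _ he3
  have h8 : Q ^ f < A := by
    have := Nat.one_le_pow f Q hQ1
    omega
  have h9 : (Q ^ f) ^ 3 < A ^ 3 := Nat.pow_lt_pow_left h8 (by norm_num)
  have h10 : (Q ^ (f + 1)) ^ 2 ≤ (Q ^ f) ^ 3 := by
    rw [← pow_mul Q, ← pow_mul Q]
    exact Nat.pow_le_pow_right hQ1 (by omega)
  have h11 : w ^ 2 < (Q ^ (f + 1)) ^ 2 := Nat.pow_lt_pow_left (by omega) (by norm_num)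
  omega

/-- **Two window exponents have gcd 1 or 2.**

Proof. Let `e = gcd g h ≥ 1`; `e = 1, 2` divide 2. Suppose `e ≥ 3`. `P = p ^ (g / e)`, `Q = q ^ (h / e)`, so
`P ^ e = p ^ g`, `Q ^ e = q ^ h`, and `P ≠ Q` (`g / e ≥ 1`; distinct primes). By symmetry `P > Q` (set up a private
lemma for this case). `P ^ e ≥ (Q + 1) ^ e ≥ Q ^ e + e Q ^ (e-1) + 1` (or `one_add_mul_le_pow`-like; e.g.
`(Q+1)^e ≥ Q^e + e * Q^(e-1)`, and `e ≥ 3`), hence `3 Q ^ (e-1) + w + 1 ≤ w + A`, so `Q ^ (e-1) < A`. But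
`(Q^(e-1))^3 = Q^(3e-3) ≥ Q^(2e) = (Q^e)^2 ≥ (w+1)^2 > w^2 ≥ A^3` (`3 e - 3 ≥ 2 e`, `Q ≥ 1`). Contradiction. -/
theorem gcd_dvd_two {w A p q g h : ℕ} (hp : p.Prime) (hq : q.Prime) (hpq : p ≠ q) (hg : 1 ≤ g)
    (hh : 1 ≤ h) (h1 : w + 1 ≤ p ^ g) (h2 : p ^ g ≤ w + A) (h3 : w + 1 ≤ q ^ h)
    (h4 : q ^ h ≤ w + A) (hA : A ^ 3 ≤ w ^ 2) : Nat.gcd g h ∣ 2 := by
  rcases lt_trichotomy (p ^ g) (q ^ h) with hlt | heq | hgt
  · rw [Nat.gcd_comm]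
    exact gcd_dvd_two_aux hq hp hh hg h3 h4 h1 h2 hlt hA
  · exfalso
    have := (Nat.prime_dvd_prime_iff_eq hp hq).mp
      (hp.dvd_of_dvd_pow (heq ▸ dvd_pow_self p (by omega)))
    exact hpq this
  · exact gcd_dvd_two_aux hp hq hg hh h1 h2 h3 h4 hgt hA

end Pool.Agent.BZ
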