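import Mathlib

set_option autoImplicit false

namespace Pool.Agent.BZ

open Finset

attribute [local instance] Matrix.seminormedAddCommGroup

/-- **Siegel's lemma** for the small primes.

Proof. `Int.Matrix.exists_ne_zero_int_vec_norm_le` (Mathlib, `NumberTheory/SiegelsLemma.lean`) for the matrix with
rows indexed by `P` (`P.equivFin` or the subtype) and entries `f p j`. If the matrix is zero (or `P = ∅`) take
`c = Pi.single ⟨0, _⟩ 1` (`(n * B) ^ r ≥ 1`). Otherwise the norm is at most `B`, `n * ‖A‖ ≤ n B`, and the real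
exponent is `r / (n - r) ≤ r` (`r = P.card < n`), the base is `≥ 1`. The norm of an integer vector is the sup norm
(`norm_le_pi_norm`, `Int.norm_eq_abs`). -/
theorem siegel {n B : ℕ} {P : Finset ℕ} (hP : P.card < n) (hB : 1 ≤ B) (f : ℕ → Fin n → ℕ)
    (hf : ∀ p ∈ P, ∀ j, f p j ≤ B) :
    ∃ c : Fin n → ℤ, c ≠ 0 ∧ (∀ p ∈ P, ∑ j, c j * (f p j : ℤ) = 0) ∧
      ∀ j, |c j| ≤ (((n * B) ^ P.card : ℕ) : ℤ) := by
  classical
  have hn : 0 < n := lt_of_le_of_lt (Nat.zero_le _) hP
  rcases P.eq_empty_or_nonempty with rfl | hne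
  · refine ⟨fun _ => 1, ?_, ?_, ?_⟩
    · intro h
      have := congrFun h ⟨0, hn⟩
      simp at this
    · intro p hp
      simp at hp
    · intro j
      simp
  · let M : Matrix P (Fin n) ℤ := fun p j => (f p.1 j : ℤ)
    have hcard : Fintype.card P = P.card := Fintype.card_coe P
    have hcard' : Fintype.card (Fin n) = n := Fintype.card_fin n
    obtain ⟨t, ht0, htM, htn⟩ := Int.Matrix.exists_ne_zero_int_vec_norm_le M
      (by rw [hcard, hcard']; exact hP) (by rw [hcard]; exact hne.card_pos)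
    rw [hcard, hcard'] at htn
    refine ⟨t, ht0, ?_, ?_⟩
    · intro p hp
      have h1 := congrFun htM ⟨p, hp⟩
      have h2 : ∑ j, M ⟨p, hp⟩ j * t j = 0 := h1
      rw [← h2]
      refine Finset.sum_congr rfl fun j _ => ?_
      show t j * (f p j : ℤ) = (f p j : ℤ) * t j
      ring
    · intro j
      have h1 : ‖t j‖ ≤ ‖t‖ := norm_le_pi_norm t j
      have hB' : (1:ℝ) ≤ B := by exact_mod_cast hB
      have hM : ‖M‖ ≤ (B:ℝ) := by
        rw [Matrix.norm_le_iff (by linarith)]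
        intro p j
        have h3 : ‖M p j‖ = (f p.1 j : ℝ) := by
          show ‖((f p.1 j : ℕ) : ℤ)‖ = _
          rw [Int.norm_natCast]
        rw [h3]
        exact_mod_cast hf p.1 p.2 j
      have hn1 : (1:ℝ) ≤ n := by exact_mod_cast hn
      have hmax : max 1 ‖M‖ ≤ (B:ℝ) := max_le hB' hM
      have h1max : (1:ℝ) ≤ max 1 ‖M‖ := le_max_left _ _
      have hb0 : (0:ℝ) ≤ n * max 1 ‖M‖ := by positivity
      have hbase : (n:ℝ) * max 1 ‖M‖ ≤ n * B := mul_le_mul_of_nonneg_left hmax (by linarith)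
      have hr : (P.card : ℝ) + 1 ≤ n := by exact_mod_cast hP
      have hr0 : (0:ℝ) ≤ P.card := Nat.cast_nonneg _
      have he0 : (0:ℝ) ≤ (P.card : ℝ) / (n - P.card) := div_nonneg hr0 (by linarith)
      have he : (P.card : ℝ) / (n - P.card) ≤ P.card := div_le_self hr0 (by linarith)
      have hnB : (1:ℝ) ≤ n * B := by nlinarith
      have h4 : ((n:ℝ) * max 1 ‖M‖) ^ ((P.card : ℝ) / (n - P.card)) ≤ ((n:ℝ) * B) ^ P.card := by
        calc ((n:ℝ) * max 1 ‖M‖) ^ ((P.card : ℝ) / (n - P.card))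
            ≤ ((n:ℝ) * B) ^ ((P.card : ℝ) / (n - P.card)) := Real.rpow_le_rpow hb0 hbase he0
          _ ≤ ((n:ℝ) * B) ^ (P.card : ℝ) := Real.rpow_le_rpow_of_exponent_le hnB he
          _ = ((n:ℝ) * B) ^ P.card := Real.rpow_natCast _ _
      have h5 : ‖t j‖ ≤ ((n:ℝ) * B) ^ P.card := h1.trans (htn.trans h4)
      rw [Int.norm_eq_abs] at h5
      have h6 : ((|t j| : ℤ) : ℝ) ≤ ((((n * B) ^ P.card : ℕ) : ℤ) : ℝ) := by
        push_cast
        exact h5
      exact_mod_cast h6

end Pool.Agent.BZ
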