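import Mathlib

set_option autoImplicit false

namespace Pool.Agent.BZ

open Finset

private theorem gcd_lcm_dvd {ι : Type*} [DecidableEq ι] (a : ℕ) (g : ι → ℕ)
    (V : Finset ι) (hg : ∀ q ∈ V, 1 ≤ g q) (h : ∀ q ∈ V, Nat.gcd a (g q) ∣ 2) :
    Nat.gcd a (V.lcm g) ∣ 2 := by
  have hVne : V.lcm g ≠ 0 := by
    rw [Ne, Finset.lcm_eq_zero_iff]
    rintro ⟨q, hq, hq0⟩
    have := hg q hq
    omega
  have key : ∀ (ℓ e : ℕ), ℓ.Prime → ℓ ^ e ∣ V.lcm g → ℓ ^ e ∣ 1 ∨ ∃ q ∈ V, ℓ ^ e ∣ g q := by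
    intro ℓ e hℓ
    clear hVne h
    induction V using Finset.induction_on with
    | empty =>
      intro h
      rw [Finset.lcm_empty] at h
      exact Or.inl h
    | insert q V hq ih =>
      intro h
      rw [Finset.lcm_insert] at h
      have hgq : g q ≠ 0 := by
        have := hg q (Finset.mem_insert_self _ _)
        omega
      have hV : V.lcm g ≠ 0 := by
        rw [Ne, Finset.lcm_eq_zero_iff]
        rintro ⟨r, hr, hr0⟩
        have := hg r (Finset.mem_insert_of_mem hr)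
        omega
      have h' : ℓ ^ e ∣ Nat.lcm (g q) (V.lcm g) := h
      rw [hℓ.pow_dvd_iff_le_factorization (Nat.lcm_ne_zero hgq hV),
        Nat.factorization_lcm hgq hV, Finsupp.sup_apply, le_sup_iff,
        ← hℓ.pow_dvd_iff_le_factorization hgq, ← hℓ.pow_dvd_iff_le_factorization hV] at h'
      rcases h' with h' | h'
      · exact Or.inr ⟨q, Finset.mem_insert_self _ _, h'⟩
      · rcases ih (fun r hr => hg r (Finset.mem_insert_of_mem hr)) h' with h'' | ⟨r, hr, hr'⟩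
        · exact Or.inl h''
        · exact Or.inr ⟨r, Finset.mem_insert_of_mem hr, hr'⟩
  rw [Nat.dvd_iff_prime_pow_dvd_dvd]
  intro ℓ e hℓ hd
  rcases key ℓ e hℓ (hd.trans (Nat.gcd_dvd_right _ _)) with h1 | ⟨q, hq, h1⟩
  · exact h1.trans (one_dvd _)
  · exact (Nat.dvd_gcd (hd.trans (Nat.gcd_dvd_left _ _)) h1).trans (h q hq)

/-- **Egyptian fractions with almost coprime denominators.**

Proof. Fix `p ∈ U`, let `V = U.erase p`, `P = V.lcm g` (`P ≠ 0`, all `g q ≥ 1`). (a) `gcd (g p) P ∣ 2`: for a prime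
`ℓ` and `e` with `ℓ ^ e ∣ g p`, `ℓ ^ e ∣ P` there is `q ∈ V` with `ℓ ^ e ∣ g q` (if `e ≥ 1`; induction over the
finset, `Nat.Coprime`-free: the `ℓ`-adic valuation of an lcm is a maximum, e.g. `Finset.factorization_lcm`), so
`ℓ ^ e ∣ gcd (g p) (g q) ∣ 2`; apply this to the prime powers of `gcd (g p) P`
(`Nat.factorization_prime_le_iff_dvd` / `Nat.dvd_of_forall_prime_pow_dvd`-like). Alternatively by induction over `V`
with `gcd (a, lcm (b, c)) ∣ lcm (gcd (a, b), gcd (a, c))`.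
(b) `c p * (P / g p) = N P - ∑_{q ∈ V} c q (P / g q)` is an integer, i.e. `c p * P = g p * z` for an integer `z`.
(c) so `g p ∣ c p * P` and `g p ∣ c p * g p`, hence `g p ∣ c p * gcd (g p) P` (Bezout), and `gcd (g p) P ∣ 2`. -/
theorem nonint {ι : Type*} {U : Finset ι} {c : ι → ℤ} {g : ι → ℕ} (hg : ∀ p ∈ U, 1 ≤ g p)
    (hco : ∀ p ∈ U, ∀ q ∈ U, p ≠ q → Nat.gcd (g p) (g q) ∣ 2) (N : ℤ)
    (h : ∑ p ∈ U, (c p : ℝ) / g p = N) : ∀ p ∈ U, (g p : ℤ) ∣ 2 * c p := by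
  classical
  intro p hp
  set P : ℕ := (U.erase p).lcm g with hP
  have hPne : P ≠ 0 := by
    rw [hP, Ne, Finset.lcm_eq_zero_iff]
    rintro ⟨q, hq, hq0⟩
    have := hg q (Finset.mem_of_mem_erase hq)
    omega
  have hgp : (g p : ℝ) ≠ 0 := by
    have := hg p hp
    positivity
  -- gcd (g p) P divides 2
  have hgcd : Nat.gcd (g p) P ∣ 2 := by
    rw [hP]
    exact gcd_lcm_dvd (g p) g (U.erase p)
      (fun q hq => hg q (Finset.mem_of_mem_erase hq))
      (fun q hq => hco p hp q (Finset.mem_of_mem_erase hq) (Finset.ne_of_mem_erase hq).symm)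
  -- the integer z
  have hdiv : ∀ q ∈ U.erase p, g q ∣ P := fun q hq => Finset.dvd_lcm hq
  obtain ⟨k, hk⟩ : ∃ k : ι → ℤ, ∀ q ∈ U.erase p, (c q : ℝ) / g q * P = c q * (k q : ℝ) := by
    refine ⟨fun q => ((P / g q : ℕ) : ℤ), fun q hq => ?_⟩
    have hq1 : (g q : ℝ) ≠ 0 := by
      have := hg q (Finset.mem_of_mem_erase hq)
      positivity
    rw [Int.cast_natCast, Nat.cast_div (hdiv q hq) hq1]
    field_simp
  obtain ⟨z, hz⟩ : ∃ z : ℤ, c p * (P : ℤ) = g p * z := by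
    refine ⟨N * P - ∑ q ∈ U.erase p, c q * k q, ?_⟩
    have h1 : (c p : ℝ) / g p = N - ∑ q ∈ U.erase p, (c q : ℝ) / g q := by
      rw [← h, ← Finset.add_sum_erase U (fun q => (c q : ℝ) / g q) hp]
      ring
    have h3 : (c p : ℝ) * P = g p * (N * P - ∑ q ∈ U.erase p, c q * (k q : ℝ)) := by
      rw [← Finset.sum_congr rfl hk, ← Finset.sum_mul, ← sub_mul, ← h1]
      field_simp
    exact_mod_cast h3
  have h4 : (g p : ℤ) ∣ c p * (Nat.gcd (g p) P : ℤ) := by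
    have h5 : (Nat.gcd (g p) P : ℤ) = g p * Nat.gcdA (g p) P + P * Nat.gcdB (g p) P :=
      Nat.gcd_eq_gcd_ab _ _
    rw [h5, mul_add]
    refine dvd_add ?_ ?_
    · exact ⟨c p * Nat.gcdA (g p) P, by ring⟩
    · rw [← mul_assoc, hz]
      exact ⟨z * Nat.gcdB (g p) P, by ring⟩
  obtain ⟨t, ht⟩ := hgcd
  have h6 : (2 : ℤ) * c p = (c p * (Nat.gcd (g p) P : ℤ)) * t := by
    have : (2 : ℤ) = (Nat.gcd (g p) P : ℤ) * t := by exact_mod_cast ht
    rw [this]
    ring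
  rw [h6]
  exact h4.mul_right _

end Pool.Agent.BZ
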