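import Mathlib
import Pool.Agent.BZ.A1
import Pool.Agent.BZ.A2

set_option autoImplicit false

namespace Pool.Agent.BZ

open Finset

/-- **The relation argument.**

Proof. `S j = ∑_{p ∈ G j} 1 / g p`; `core_bounds` (with `μ = 1`): `S j < 1`,
`log (m j) ≤ (1 - S j) log W ≤ log (m j) + (log W - log (y j)) ≤ log (m j) + δ`. In particular `0 ≤ δ` (some
`c j ≠ 0` gives an index `j`). Put `D = ∑ j, c j (1 - S j)`. Then
`D log W = ∑ c j ((1 - S j) log W - log (m j))` by `hrel`, so `|D log W| ≤ ∑ |c j| δ ≤ n C δ`.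
(a) `D ≠ 0`. Suppose `D = 0`, let `c j0 ≠ 0`. `∑_j c j S j = ∑_j c j =: N`. The left side is
`∑_{p ∈ U} c' p / g p`, `U = univ.biUnion G`, `c' p = c j` for the unique `j` with `p ∈ G j` (e.g.
`c' p = ∑ j with p ∈ G j, c j`; `Finset.sum_biUnion` with `hdis`). `nonint`: `g p ∣ 2 c j` for `p ∈ G j`.
For `j = j0`: `2 |c j0| S j0` is an integer, and so is `2 |c j0| (1 - S j0) > 0`, hence it is `≥ 1`, and
`log W ≤ 2 |c j0| (1 - S j0) log W ≤ 2 C (Lm + δ)`: contradiction with `hbig`.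
(b) `Λ D` is an integer (`hΛ`), nonzero, so `1 ≤ Λ |D|` and `log W ≤ Λ |D| log W ≤ Λ (n C δ)`. -/
theorem multi {n w W Λ C : ℕ} {y m : Fin n → ℕ} {G : Fin n → Finset ℕ} {g : ℕ → ℕ}
    {c : Fin n → ℤ} {δ Lm : ℝ} (hw : 1 ≤ w) (hwW : w + 1 ≤ W) (hm : ∀ j, 1 ≤ m j)
    (hG : ∀ j, ∀ p ∈ G j, 1 ≤ g p ∧ w + 1 ≤ p ^ g p ∧ p ^ g p ≤ W)
    (hy : ∀ j, y j = m j * ∏ p ∈ G j, p) (hyw : ∀ j, y j ≤ w)
    (hdis : ∀ i j, i ≠ j → Disjoint (G i) (G j))
    (hgcd : ∀ i j, ∀ p ∈ G i, ∀ q ∈ G j, p ≠ q → Nat.gcd (g p) (g q) ∣ 2)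
    (hΛ : ∀ j, ∀ p ∈ G j, g p ∣ Λ) (hΛ0 : 0 < Λ)
    (hc : c ≠ 0) (hcC : ∀ j, |c j| ≤ (C : ℤ)) (hrel : ∑ j, (c j : ℝ) * Real.log (m j) = 0)
    (hLm : ∀ j, Real.log (m j) ≤ Lm) (hδ : ∀ j, Real.log W - Real.log (y j) ≤ δ)
    (hbig : 2 * C * (Lm + δ) < Real.log W) :
    Real.log W ≤ Λ * (n * C * δ) := by
  classical
  have hW2 : (1 : ℝ) < W := by
    have : 2 ≤ W := by omega
    exact_mod_cast this
  have hLW : 0 < Real.log W := Real.log_pos hW2
  obtain ⟨S, hS⟩ : ∃ S : Fin n → ℝ, ∀ j, S j = ∑ p ∈ G j, (1 : ℝ) / g p := ⟨_, fun _ => rfl⟩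
  have hcb : ∀ j, S j < 1 ∧ Real.log (m j) ≤ (1 - S j) * Real.log W ∧
      (1 - S j) * Real.log W ≤ Real.log (m j) + δ := by
    intro j
    have h := core_bounds (μ := fun _ => 1) (g := g) (G := G j) (y := y j) hw hwW (hm j) (hG j)
      (by simpa using hy j) (hyw j)
    simp only [Nat.cast_one] at h
    rw [← hS j] at h
    refine ⟨h.1, h.2.1, h.2.2.trans ?_⟩
    linarith [hδ j]
  obtain ⟨j0, hj0⟩ : ∃ j, c j ≠ 0 := by
    by_contra hcon
    push Not at hcon
    exact hc (funext hcon)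
  have hδ0 : 0 ≤ δ := by
    have h := hcb j0
    linarith [h.2.1, h.2.2]
  have hcR : ∀ j, |(c j : ℝ)| ≤ C := by
    intro j
    have h := hcC j
    have h2 : ((|c j| : ℤ) : ℝ) ≤ ((C : ℤ) : ℝ) := by exact_mod_cast h
    rw [Int.cast_abs] at h2
    simpa using h2
  have hC0 : (0 : ℝ) ≤ C := Nat.cast_nonneg C
  have hLm0 : 0 ≤ Lm := by
    have h1 : (1 : ℝ) ≤ m j0 := by exact_mod_cast hm j0
    exact (Real.log_nonneg h1).trans (hLm j0)
  obtain ⟨D, hD⟩ : ∃ D : ℝ, D = ∑ j, (c j : ℝ) * (1 - S j) := ⟨_, rfl⟩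
  have hDW : |D| * Real.log W ≤ n * C * δ := by
    have e1 : D * Real.log W = ∑ j, (c j : ℝ) * ((1 - S j) * Real.log W - Real.log (m j)) := by
      have : ∑ j, (c j : ℝ) * ((1 - S j) * Real.log W - Real.log (m j)) =
          (∑ j, (c j : ℝ) * (1 - S j)) * Real.log W - ∑ j, (c j : ℝ) * Real.log (m j) := by
        rw [Finset.sum_mul, ← Finset.sum_sub_distrib]
        exact Finset.sum_congr rfl fun j _ => by ring
      rw [this, hrel, sub_zero, hD]
    calc |D| * Real.log W = |D * Real.log W| := by rw [abs_mul, abs_of_pos hLW]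
      _ = |∑ j, (c j : ℝ) * ((1 - S j) * Real.log W - Real.log (m j))| := by rw [e1]
      _ ≤ ∑ j, |(c j : ℝ) * ((1 - S j) * Real.log W - Real.log (m j))| :=
          Finset.abs_sum_le_sum_abs _ _
      _ ≤ ∑ _j : Fin n, (C : ℝ) * δ := by
          refine Finset.sum_le_sum fun j _ => ?_
          rw [abs_mul]
          have h := hcb j
          have h0 : 0 ≤ (1 - S j) * Real.log W - Real.log (m j) := by linarith [h.2.1]
          rw [abs_of_nonneg h0]
          exact mul_le_mul (hcR j) (by linarith [h.2.2]) h0 hC0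
      _ = n * C * δ := by
          rw [Finset.sum_const, Finset.card_univ, Fintype.card_fin, nsmul_eq_mul]
          ring
  -- `D ≠ 0`
  have hDne : D ≠ 0 := by
    intro hD0
    have hsum : ∑ j, (c j : ℝ) * S j = ∑ j, (c j : ℝ) := by
      have : D = ∑ j, (c j : ℝ) - ∑ j, (c j : ℝ) * S j := by
        rw [hD, ← Finset.sum_sub_distrib]
        exact Finset.sum_congr rfl fun j _ => by ring
      linarith
    obtain ⟨c', hc'⟩ : ∃ c' : ℕ → ℤ, ∀ p, c' p = ∑ j with p ∈ G j, c j := ⟨_, fun _ => rfl⟩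
    have hc'j : ∀ j, ∀ p ∈ G j, c' p = c j := by
      intro j p hp
      rw [hc' p]
      have hfil : (Finset.univ.filter fun i => p ∈ G i) = {j} := by
        ext i
        simp only [Finset.mem_filter, Finset.mem_univ, true_and, Finset.mem_singleton]
        constructor
        · intro hi
          by_contra hne
          exact (Finset.disjoint_left.mp (hdis i j hne)) hi hp
        · rintro rfl
          exact hp
      rw [hfil, Finset.sum_singleton]
    have hpd : (↑(Finset.univ : Finset (Fin n)) : Set (Fin n)).PairwiseDisjoint G := by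
      intro i _ j _ hij
      exact hdis i j hij
    have hN : ∑ p ∈ Finset.univ.biUnion G, (c' p : ℝ) / g p = ((∑ j, c j : ℤ) : ℝ) := by
      rw [Finset.sum_biUnion hpd]
      push_cast
      rw [← hsum]
      refine Finset.sum_congr rfl fun j _ => ?_
      rw [hS j, Finset.mul_sum]
      refine Finset.sum_congr rfl fun p hp => ?_
      rw [hc'j j p hp]
      ring
    have hdvd := nonint (U := Finset.univ.biUnion G) (c := c') (g := g)
      (fun p hp => by
        obtain ⟨j, _, hj⟩ := Finset.mem_biUnion.mp hp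
        exact (hG j p hj).1)
      (fun p hp q hq hne => by
        obtain ⟨i, _, hi⟩ := Finset.mem_biUnion.mp hp
        obtain ⟨j, _, hj⟩ := Finset.mem_biUnion.mp hq
        exact hgcd i j p hi q hj hne) _ hN
    have hdvd0 : ∀ p ∈ G j0, (g p : ℤ) ∣ 2 * |c j0| := by
      intro p hp
      have h := hdvd p (Finset.mem_biUnion.mpr ⟨j0, Finset.mem_univ _, hp⟩)
      rw [hc'j j0 p hp] at h
      rcases abs_choice (c j0) with h1 | h1 <;> rw [h1]
      · exact h
      · rw [mul_neg]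
        exact (dvd_neg).mpr h
    -- an integer
    obtain ⟨z, hz⟩ : ∃ z : ℤ, 2 * |(c j0 : ℝ)| * (1 - S j0) = z := by
      refine ⟨2 * |c j0| - ∑ p ∈ G j0, (2 * |c j0|) / (g p : ℤ), ?_⟩
      push_cast
      rw [mul_sub, mul_one, hS j0, Finset.mul_sum]
      congr 1
      refine Finset.sum_congr rfl fun p hp => ?_
      obtain ⟨t, ht⟩ := hdvd0 p hp
      have hg1 := (hG j0 p hp).1
      have hg0 : (g p : ℤ) ≠ 0 := by
        have : (g p) ≠ 0 := by omega
        exact_mod_cast this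
      have hgR : (g p : ℝ) ≠ 0 := by
        have : (g p) ≠ 0 := by omega
        exact_mod_cast this
      rw [ht, Int.mul_ediv_cancel_left _ hg0]
      have hR : 2 * |(c j0 : ℝ)| = (g p : ℝ) * t := by
        have := congrArg (fun x : ℤ => (x : ℝ)) ht
        push_cast at this
        exact this
      rw [hR]
      field_simp
    have hzpos : (0 : ℝ) < z := by
      rw [← hz]
      have h1 : 0 < |(c j0 : ℝ)| := by
        rw [abs_pos]
        exact_mod_cast hj0
      have h2 : 0 < 1 - S j0 := by linarith [(hcb j0).1]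
      positivity
    have hz1 : (1 : ℝ) ≤ z := by
      have : (0 : ℤ) < z := by exact_mod_cast hzpos
      have : (1 : ℤ) ≤ z := by omega
      exact_mod_cast this
    have h3 := (hcb j0).2.2
    have h4 : 0 ≤ (1 - S j0) * Real.log W := by
      have h2 : 0 < 1 - S j0 := by linarith [(hcb j0).1]
      positivity
    have h5 : (1 - S j0) * Real.log W ≤ Lm + δ := by linarith [hLm j0]
    have h6 : Real.log W ≤ 2 * |(c j0 : ℝ)| * ((1 - S j0) * Real.log W) := by
      have : Real.log W ≤ z * Real.log W := by nlinarith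
      rw [← hz] at this
      calc Real.log W ≤ 2 * |(c j0 : ℝ)| * (1 - S j0) * Real.log W := this
        _ = 2 * |(c j0 : ℝ)| * ((1 - S j0) * Real.log W) := by ring
    have h7 : 2 * |(c j0 : ℝ)| * ((1 - S j0) * Real.log W) ≤ 2 * C * (Lm + δ) := by
      refine mul_le_mul ?_ h5 h4 (by positivity)
      linarith [hcR j0]
    linarith
  -- `Λ D` is an integer
  obtain ⟨z, hz⟩ : ∃ z : ℤ, (Λ : ℝ) * D = z := by
    refine ⟨∑ j, c j * ((Λ : ℤ) - ∑ p ∈ G j, (Λ : ℤ) / (g p : ℤ)), ?_⟩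
    push_cast
    rw [hD, Finset.mul_sum]
    refine Finset.sum_congr rfl fun j _ => ?_
    rw [hS j]
    have e : (Λ : ℝ) * ∑ p ∈ G j, (1 : ℝ) / g p = ∑ p ∈ G j, (((Λ : ℤ) / (g p : ℤ) : ℤ) : ℝ) := by
      rw [Finset.mul_sum]
      refine Finset.sum_congr rfl fun p hp => ?_
      obtain ⟨t, ht⟩ := hΛ j p hp
      have hg1 := (hG j p hp).1
      have hg0 : (g p : ℤ) ≠ 0 := by
        have : (g p) ≠ 0 := by omega
        exact_mod_cast this
      have hgR : (g p : ℝ) ≠ 0 := by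
        have : (g p) ≠ 0 := by omega
        exact_mod_cast this
      rw [ht]
      push_cast
      rw [Int.mul_ediv_cancel_left _ hg0]
      push_cast
      field_simp
    rw [← e]
    ring
  have hΛR : (0 : ℝ) < Λ := by exact_mod_cast hΛ0
  have hzne : z ≠ 0 := by
    intro h0
    rw [h0, Int.cast_zero] at hz
    rcases mul_eq_zero.mp hz with h | h
    · exact hΛR.ne' h
    · exact hDne h
  have hz1 : (1 : ℝ) ≤ |(z : ℝ)| := by
    have : (1 : ℤ) ≤ |z| := Int.one_le_abs hzne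
    have h2 : ((1 : ℤ) : ℝ) ≤ ((|z| : ℤ) : ℝ) := by exact_mod_cast this
    rw [Int.cast_abs] at h2
    simpa using h2
  have h1 : (1 : ℝ) ≤ Λ * |D| := by
    rw [← hz, abs_mul, abs_of_pos hΛR] at hz1
    exact hz1
  calc Real.log W ≤ (Λ * |D|) * Real.log W := by nlinarith
    _ = Λ * (|D| * Real.log W) := by ring
    _ ≤ Λ * (n * C * δ) := mul_le_mul_of_nonneg_left hDW hΛR.le

end Pool.Agent.BZ
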