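import Mathlib

set_option autoImplicit false

namespace Pool.Agent.BZ

open Finset

/-- A numerical inequality (`n = 3`: `47952 < 65536`; `n ≥ 7`: `2 n² ≤ 2^n`-like, all exponents small against
`2^(n+1)`; `n = 3, …, 8` by `decide`/`norm_num`, then induction or `n² ≤ 2^n`, `n < 2^n`). -/
theorem num_ineq {n : ℕ} (hn : 3 ≤ n) :
    4 * (n * (2 * n)) ^ (n / 2 + 1) * (2 * n ^ 2 * (n / 2 + 1) + 1) < 2 ^ (2 ^ (n + 1)) ∧
      n * (2 * n + 1) ^ 2 ≤ 2 ^ (2 ^ (n + 1)) := by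
  rcases hn.eq_or_lt with rfl | h4
  · constructor <;> decide +kernel
  have h4' : 4 ≤ n := h4
  have hsq : n * n ≤ 2 ^ n := by
    induction n, h4' using Nat.le_induction with
    | base => decide
    | succ m hm ih =>
      have h1 := ih (by omega) (by omega)
      rw [pow_succ]
      nlinarith
  have hlt : n + 1 ≤ 2 ^ n := Nat.lt_two_pow_self
  have h2 : n * (2 * n) ≤ 2 ^ (n + 1) := by
    rw [pow_succ]
    nlinarith
  have hhalf : 2 * (n / 2) ≤ n := Nat.mul_div_le n 2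
  have h3 : 2 * n ^ 2 * (n / 2 + 1) + 1 ≤ 2 ^ (n + 1) * 2 ^ n := by
    have h5 : 2 * n ^ 2 * (n / 2 + 1) + 1 ≤ (n * (2 * n)) * (n / 2 + 2) := by
      have h6 : 2 * n ^ 2 * (n / 2 + 1) = (n * (2 * n)) * (n / 2 + 1) := by ring
      rw [h6]
      have h7 : (n * (2 * n)) * (n / 2 + 2) = (n * (2 * n)) * (n / 2 + 1) + n * (2 * n) := by ring
      rw [h7]
      have h8 : 1 ≤ n * (2 * n) := by nlinarith
      omega
    refine h5.trans (Nat.mul_le_mul h2 ?_)
    omega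
  have hexp : 2 + (n + 1) * (n / 2 + 1) + ((n + 1) + n) < 2 ^ (n + 1) := by
    have h5 : 2 * ((n + 1) * (n / 2 + 1)) ≤ (n + 1) * (n + 2) := by
      calc 2 * ((n + 1) * (n / 2 + 1)) = (n + 1) * (2 * (n / 2) + 2) := by ring
        _ ≤ (n + 1) * (n + 2) := Nat.mul_le_mul le_rfl (by omega)
    have h6 : 2 ^ (n + 1) = 2 * 2 ^ n := by rw [pow_succ]; ring
    rw [h6]
    nlinarith
  constructor
  · calc 4 * (n * (2 * n)) ^ (n / 2 + 1) * (2 * n ^ 2 * (n / 2 + 1) + 1)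
        ≤ 2 ^ 2 * (2 ^ (n + 1)) ^ (n / 2 + 1) * (2 ^ (n + 1) * 2 ^ n) := by
          apply Nat.mul_le_mul _ h3
          apply Nat.mul_le_mul le_rfl
          exact Nat.pow_le_pow_left h2 _
      _ = 2 ^ (2 + (n + 1) * (n / 2 + 1) + ((n + 1) + n)) := by
          rw [← pow_mul, ← pow_add, ← pow_add, ← pow_add]
      _ < 2 ^ (2 ^ (n + 1)) := Nat.pow_lt_pow_right (by norm_num) hexp
  · have h5 : 2 * n + 1 ≤ 2 ^ (n + 1) := by
      rw [pow_succ]
      omega
    calc n * (2 * n + 1) ^ 2 ≤ 2 ^ n * (2 ^ (n + 1)) ^ 2 := by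
          apply Nat.mul_le_mul (by omega)
          exact Nat.pow_le_pow_left h5 2
      _ = 2 ^ (n + (n + 1) * 2) := by
          rw [← pow_mul, ← pow_add]
      _ ≤ 2 ^ (2 ^ (n + 1)) := by
          apply Nat.pow_le_pow_right (by norm_num)
          rw [pow_succ]
          nlinarith

end Pool.Agent.BZ
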