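import Mathlib

set_option autoImplicit false

namespace Pool.Agent.BZ

open Finset

private theorem fac_lt {p n : ℕ} (hp : p.Prime) (hn : 1 ≤ n) :
    n.factorial.factorization p ≤ n - 1 := by
  have : Fact p.Prime := ⟨hp⟩
  have h := padicValNat_factorial_lt_of_ne_zero (p := p) (n := n) (by omega)
  rw [Nat.factorization_def _ hp]
  omega

private theorem fac_zero {p n : ℕ} (hp : p.Prime) (hn : n < p) :
    n.factorial.factorization p = 0 := by
  apply Nat.factorization_eq_zero_of_not_dvd
  rw [hp.dvd_factorial]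
  omega

/-- **Decomposition of the numbers `y j`.**

Proof. `G j = (y j).primeFactors.filter (n + a < ·)`, `m j = ∏_{p ≤ n + a prime} p ^ (v_p (y j))`.
For a prime `p > n + a`: `p ∤ n! (n + a)!`, so `v_p (∏ y j) ≤ v_p Θ`. If moreover `p ≤ k` and `p ∣ y j`: `p ∣ Θ` and so
`v_p Θ = 1` (`hsq`; `y j ≤ k` gives `p ≤ k`): so `v_p (y j) = 1` and `p` divides only one `y j` (`p² ∤ ∏ y j`).
`y j = ∏_{p ∣ y j} p^(v_p)` (`Nat.prod_factorization_pow_eq_self`, split by `p ≤ n + a`; primes `p ≤ n + a` with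
`v_p (y j) = 0` contribute 1). Last statement: for `p ≤ n + a`, `v_p (y j) ≤ v_p (n!) + v_p ((n + a)!) + v_p Θ`,
`v_p (n!) ≤ n - 1`, `v_p ((n+a)!) ≤ n + a - 1` (`sub_one_mul_padicValNat_factorial`; the digit sum is `≥ 1`), and
`v_p Θ ≤ 1` if `p ≤ k` by `hsq` (if `p > k ≥ y j` then `v_p (y j) = 0`). Sum `≤ 2 n - 1 + a ≤ 2 n`. -/
theorem decomp {n a k Θ : ℕ} (hn : 1 ≤ n) (ha : a ≤ 1) {y : Fin n → ℕ} (hy : ∀ j, 1 ≤ y j)
    (hyk : ∀ j, y j ≤ k) (hdvd : ∏ j, y j ∣ n.factorial * (n + a).factorial * Θ) (hΘ : 0 < Θ)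
    (hsq : ∀ p, p.Prime → p ≤ k → p ∣ Θ → ¬ p ^ 2 ∣ Θ) :
    ∃ (m : Fin n → ℕ) (G : Fin n → Finset ℕ), (∀ j, 1 ≤ m j) ∧
      (∀ j, y j = m j * ∏ p ∈ G j, p) ∧
      (∀ j, ∀ p ∈ G j, p.Prime ∧ p ≤ k ∧ n + a < p ∧ p ∣ Θ) ∧
      (∀ i j, i ≠ j → Disjoint (G i) (G j)) ∧
      (∀ j, m j = ∏ p ∈ (range (n + a + 1)).filter Nat.Prime, p ^ (y j).factorization p) ∧
      (∀ j, ∀ p ∈ (range (n + a + 1)).filter Nat.Prime, (y j).factorization p ≤ 2 * n) := by
  classical
  have hy0 : ∀ j, y j ≠ 0 := fun j => by have := hy j; omega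
  have hP0 : ∏ j, y j ≠ 0 := Finset.prod_ne_zero_iff.2 fun j _ => hy0 j
  -- the valuations
  have hval : ∀ p, ∑ j, (y j).factorization p ≤
      n.factorial.factorization p + (n + a).factorial.factorization p + Θ.factorization p := by
    intro p
    have hQ0 : n.factorial * (n + a).factorial * Θ ≠ 0 :=
      Nat.mul_ne_zero (Nat.mul_ne_zero (Nat.factorial_ne_zero _) (Nat.factorial_ne_zero _)) hΘ.ne'
    have h1 := (Nat.factorization_le_iff_dvd hP0 hQ0).2 hdvd p
    rw [Nat.factorization_mul (Nat.mul_ne_zero (Nat.factorial_ne_zero _) (Nat.factorial_ne_zero _)) hΘ.ne',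
      Nat.factorization_mul (Nat.factorial_ne_zero _) (Nat.factorial_ne_zero _),
      Nat.factorization_prod (fun j _ => hy0 j), Finsupp.finsetSum_apply] at h1
    exact h1
  have hvj : ∀ p j, (y j).factorization p ≤ ∑ i, (y i).factorization p := fun p j =>
    Finset.single_le_sum (f := fun i => (y i).factorization p) (fun i _ => Nat.zero_le _) (Finset.mem_univ j)
  -- the valuation of `Θ` at a prime `p ≤ k`
  have hΘ1 : ∀ p, p.Prime → p ≤ k → Θ.factorization p ≤ 1 := by
    intro p hp hpk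
    by_contra hcon
    push Not at hcon
    have h1 : p ^ 2 ∣ Θ := (hp.pow_dvd_iff_le_factorization hΘ.ne').2 hcon
    exact hsq p hp hpk (dvd_trans (dvd_pow_self p (by norm_num)) h1) h1
  -- the large primes
  have hbig : ∀ p j, p.Prime → n + a < p → p ∣ y j →
      p ≤ k ∧ p ∣ Θ ∧ (∑ i, (y i).factorization p) ≤ 1 ∧ 1 ≤ (y j).factorization p := by
    intro p j hp hnp hpj
    have hpk : p ≤ k := (Nat.le_of_dvd (Nat.pos_of_ne_zero (hy0 j)) hpj).trans (hyk j)
    have h1 := hval p
    rw [fac_zero hp (by omega), fac_zero hp hnp, zero_add, zero_add] at h1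
    have h2 : 1 ≤ (y j).factorization p := (hp.dvd_iff_one_le_factorization (hy0 j)).1 hpj
    have h3 := hΘ1 p hp hpk
    have h4 := hvj p j
    exact ⟨hpk, (hp.dvd_iff_one_le_factorization hΘ.ne').2 (by omega), by omega, h2⟩
  refine ⟨fun j => ∏ p ∈ (range (n + a + 1)).filter Nat.Prime, p ^ (y j).factorization p,
    fun j => (y j).primeFactors.filter (fun p => n + a < p), ?_, ?_, ?_, ?_, fun j => rfl, ?_⟩
  · intro j
    refine Finset.one_le_prod' fun p hp => ?_
    exact Nat.one_le_iff_ne_zero.2 (pow_ne_zero _ (Finset.mem_filter.1 hp).2.ne_zero)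
  · intro j
    have h1 : (∏ p ∈ (range (n + a + 1)).filter Nat.Prime, p ^ (y j).factorization p) =
        ∏ p ∈ (y j).primeFactors.filter (fun p => ¬ n + a < p), p ^ (y j).factorization p := by
      symm
      refine Finset.prod_subset ?_ ?_
      · intro p hp
        rw [Finset.mem_filter] at hp ⊢
        exact ⟨Finset.mem_range.2 (by omega), Nat.prime_of_mem_primeFactors hp.1⟩
      · intro p hp hp'
        rw [Finset.mem_filter, Finset.mem_range] at hp
        have h2 : p ∉ (y j).primeFactors := fun h => hp' (Finset.mem_filter.2 ⟨h, by omega⟩)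
        rw [← Nat.support_factorization, Finsupp.notMem_support_iff] at h2
        rw [h2, pow_zero]
    have h2 : (∏ p ∈ (y j).primeFactors.filter (fun p => n + a < p), p) =
        ∏ p ∈ (y j).primeFactors.filter (fun p => n + a < p), p ^ (y j).factorization p := by
      refine Finset.prod_congr rfl fun p hp => ?_
      rw [Finset.mem_filter] at hp
      obtain ⟨-, -, h3, h4⟩ := hbig p j (Nat.prime_of_mem_primeFactors hp.1) hp.2
        (Nat.dvd_of_mem_primeFactors hp.1)
      have h5 := hvj p j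
      have h6 : (y j).factorization p = 1 := by omega
      rw [h6, pow_one]
    show y j = (∏ p ∈ (range (n + a + 1)).filter Nat.Prime, p ^ (y j).factorization p) *
      ∏ p ∈ (y j).primeFactors.filter (fun p => n + a < p), p
    rw [h1, h2, mul_comm, Finset.prod_filter_mul_prod_filter_not]
    have h3 := Nat.prod_factorization_pow_eq_self (hy0 j)
    exact h3.symm
  · intro j p hp
    have hp' := Finset.mem_filter.1 hp
    have hpp := Nat.prime_of_mem_primeFactors hp'.1
    obtain ⟨h1, h2, -, -⟩ := hbig p j hpp hp'.2 (Nat.dvd_of_mem_primeFactors hp'.1)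
    exact ⟨hpp, h1, hp'.2, h2⟩
  · intro i j hij
    rw [Finset.disjoint_left]
    intro p hi hj
    have hi' := Finset.mem_filter.1 hi
    have hj' := Finset.mem_filter.1 hj
    have hpp := Nat.prime_of_mem_primeFactors hi'.1
    obtain ⟨-, -, h1, h2⟩ := hbig p i hpp hi'.2 (Nat.dvd_of_mem_primeFactors hi'.1)
    obtain ⟨-, -, -, h3⟩ := hbig p j hpp hj'.2 (Nat.dvd_of_mem_primeFactors hj'.1)
    have h4 : (y i).factorization p + (y j).factorization p ≤ ∑ l, (y l).factorization p := by
      rw [← Finset.sum_pair (f := fun l => (y l).factorization p) hij]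
      exact Finset.sum_le_sum_of_subset (Finset.subset_univ _)
    omega
  · intro j p hp
    have hpp := (Finset.mem_filter.1 hp).2
    rcases Nat.lt_or_ge k p with hkp | hpk
    · have h1 : (y j).factorization p = 0 := by
        apply Nat.factorization_eq_zero_of_not_dvd
        intro h
        have := Nat.le_of_dvd (Nat.pos_of_ne_zero (hy0 j)) h
        have := hyk j
        omega
      omega
    · have h1 := hval p
      have h2 := hvj p j
      have h3 := hΘ1 p hpp hpk
      have h4 := fac_lt (n := n) hpp hn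
      have h5 := fac_lt (n := n + a) hpp (by omega)
      omega

end Pool.Agent.BZ
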