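import Mathlib
import Pool.Agent.BZ.A3
import Pool.Agent.BZ.A4
import Pool.Agent.BZ.A5
import Pool.Agent.BZ.A7
import Pool.Agent.BZ.B2
import Pool.Agent.BZ.S2
import Pool.Agent.BZ.S4
import Pool.Agent.BZ.N1

set_option autoImplicit false

namespace Pool.Agent.BZ

open Finset Pool.Agent.BY

private lemma m3_win_log {w A p g : ℕ} (hp : p.Prime) (hA : A ≤ w) (h1 : w + 1 ≤ p ^ g)
    (h2 : p ^ g ≤ w + A) : Nat.log p (w + A) = g := by
  apply Nat.log_eq_of_pow_le_of_lt_pow h2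
  calc w + A < 2 * (w + 1) := by omega
    _ ≤ p * p ^ g := Nat.mul_le_mul hp.two_le h1
    _ = p ^ (g + 1) := by rw [pow_succ]; ring

private lemma m3_log_ge {W b : ℕ} (hW : W ≠ 0) (hb : b ≤ Nat.log 2 W) :
    (b : ℝ) * 0.693 ≤ Real.log W := by
  have h1 : 2 ^ b ≤ W := (Nat.pow_le_pow_right (by norm_num) hb).trans (Nat.pow_log_le_self 2 hW)
  have h2 : ((2 : ℝ) ^ b) ≤ (W : ℝ) := by exact_mod_cast h1
  have h3 : Real.log ((2 : ℝ) ^ b) ≤ Real.log W := Real.log_le_log (by positivity) h2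
  rw [Real.log_pow] at h3
  have h4 := Real.log_two_gt_d9
  have h5 : (0 : ℝ) ≤ (b : ℝ) := Nat.cast_nonneg b
  nlinarith

/-- **The arithmetic for `n ≥ 3`.**

Proof. `A = T + 1 + a ≤ T + 2`, `W = w + A`, `Q = 2 ^ (2 ^ (n + 1))`, `y j = N + 1 - t j`. `sizes`: `w ≥ 2 ^ (Q - 1)`,
`b = Nat.log 2 W ≥ Q - 1 ≥ 65535`. `decomp` (with `k`): `m`, `G`. For `p ∈ G j`, `hwin` gives `g ≥ 2` with
`w + 1 ≤ p ^ g ≤ W`; `g = Nat.log p W` (`p ^ (g + 1) ≥ 2 (w + 1) > W` as `A ≤ w`). `siegel` with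
`P = (range (n + a + 1)).filter Nat.Prime` (`card_primes_le`: `P.card ≤ n / 2 + 1 < n`), `f p j = v_p (y j)`,
`B = 2 n`: `c`, `|c j| ≤ (n (2 n)) ^ P.card ≤ C = (n (2 n)) ^ (n / 2 + 1)`.
`∑ c j log (m j) = ∑_{p ∈ P} log p ∑_j c j v_p (y j) = 0`. `Lm = 2 n² (n / 2 + 1)`:
`log (m j) = ∑_{p ∈ P} v_p log p ≤ (n / 2 + 1) (2 n) n` (`log p ≤ p - 1 ≤ n`). `δ = 13/25 (2 n + 1)^2 exp (-(log W / 4))`
(`delta`). `δ ≤ 1`: `(2n+1)^2 ≤ Q ≤ ... ≤ exp (log W / 4)`, e.g. from `n (2n+1)^2 ≤ Q ≤ 2 ^ ((Q-1)/4)`-like bounds or from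
`big_final` (`exp (log W / 4) > 2 b^174`, `b ≥ Q - 1`, `(2 n + 1)^2 ≤ Q`). `hbig`: `log W ≥ (Q - 1) log 2 ≥ Q / 2` and
`num_ineq`: `2 C (Lm + 1) < Q / 2`. `hgcd`: `gcd_dvd_two` (`A^3 ≤ (T+2)^3 ≤ w^2`). `lam_exists` for
`G = univ.biUnion G`: `Λ ≤ b^172 L`, `L = lcmUpto (Nat.log 1024 W)`. `multi`:
`log W ≤ Λ n C δ ≤ b^172 L n C (2n+1)^2 exp (-(log W / 4))`, `n C (2 n + 1)^2 ≤ Q^2 / 4 ≤ b^2` (`num_ineq`:
`4 C < Q`, `n (2n+1)^2 ≤ Q`; `Q ≤ b + 1`), `log W ≥ 1`: so `exp (log W / 4) ≤ b^174 L`, contradiction with `big_final`. -/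
theorem arith3 {n a N k w T Θ : ℕ} (hn : 3 ≤ n) (ha : a ≤ 1) (hk : k = N + 1 + a) (hkw : k ≤ w)
    (hv : 2 ^ (2 ^ (2 ^ (n + 1))) ≤ k + w) (hgap : 16 * (w - k) ^ 4 ≤ (2 * n + a) ^ 8 * k ^ 3)
    (hT : 2 * T ^ 2 < c2 n a * N) {t : Fin n → ℕ} (ht : ∀ j, 1 ≤ t j ∧ t j ≤ T) (hΘ : 0 < Θ)
    (hdvd : ∏ j, (N + 1 - t j) ∣ n.factorial * (n + a).factorial * Θ)
    (hwin : ∀ p, p.Prime → p ≤ k → p ∣ Θ → ¬ p ^ 2 ∣ Θ ∧
      ∃ g, 2 ≤ g ∧ w + 1 ≤ p ^ g ∧ p ^ g ≤ w + (T + 1 + a)) : False := by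
  have hn2 : 2 ≤ n := by omega
  obtain ⟨hw, hD, hT2, hT3, hT64⟩ := sizes (n := n) hn2 ha hk hkw hv hgap hT
  have hdel : ∀ j, _ := fun j => delta (n := n) hn2 ha hk hkw hv hgap hT (ht j).2
  obtain ⟨hnum1, hnum2⟩ := num_ineq hn
  obtain ⟨Q, hQdef⟩ : ∃ Q, Q = 2 ^ (2 ^ (n + 1)) := ⟨_, rfl⟩
  rw [← hQdef] at hw hnum1 hnum2
  have hQ : 65536 ≤ Q := by
    rw [hQdef]
    calc 65536 = 2 ^ 16 := by norm_num
      _ ≤ 2 ^ (2 ^ (n + 1)) := by
        refine Nat.pow_le_pow_right (by norm_num) ?_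
        calc 16 = 2 ^ 4 := by norm_num
          _ ≤ 2 ^ (n + 1) := Nat.pow_le_pow_right (by norm_num) (by omega)
  obtain ⟨A, hAdef⟩ : ∃ A, A = T + 1 + a := ⟨_, rfl⟩
  rw [← hAdef] at hwin
  simp only [← hAdef] at hdel
  have hA2 : A ≤ T + 2 := by omega
  have hTw : T + 2 ≤ w := by omega
  have hAw : A ≤ w := by omega
  have hA1 : 1 ≤ A := by omega
  have hw1 : 1 ≤ w := by omega
  have hA3 : A ^ 3 ≤ w ^ 2 := (Nat.pow_le_pow_left hA2 3).trans hT3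
  obtain ⟨W, hWdef⟩ : ∃ W, W = w + A := ⟨_, rfl⟩
  obtain ⟨y, hydef⟩ : ∃ y : Fin n → ℕ, y = fun j => N + 1 - t j := ⟨_, rfl⟩
  have hyj : ∀ j, y j = N + 1 - t j := fun j => by rw [hydef]
  simp only [← hWdef, ← hyj] at hdel
  have hy1 : ∀ j, 1 ≤ y j := by
    intro j
    have := (ht j).2
    rw [hyj]; omega
  have hyk : ∀ j, y j ≤ k := by
    intro j
    rw [hyj]; omega
  have hyw : ∀ j, y j ≤ w := fun j => (hyk j).trans hkw
  have hdvd' : ∏ j, y j ∣ n.factorial * (n + a).factorial * Θ := by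
    simpa only [hyj] using hdvd
  have hWQ : 2 ^ (Q - 1) ≤ W := by omega
  have hW0 : W ≠ 0 := by omega
  have hbQ : Q - 1 ≤ Nat.log 2 W := (Nat.le_log_iff_pow_le (by norm_num) hW0).2 hWQ
  have hb65 : 65535 ≤ Nat.log 2 W := by omega
  have h1024 : 1024 ≤ W := by
    calc 1024 = 2 ^ 10 := by norm_num
      _ ≤ 2 ^ (Q - 1) := Nat.pow_le_pow_right (by norm_num) (by omega)
      _ ≤ W := hWQ
  obtain ⟨m, G, hm1, hyG, hGp, hGdis, hmprod, hmv⟩ := decomp (n := n) (a := a) (k := k)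
    (by omega) ha hy1 hyk hdvd' hΘ (fun p hp hpk hpd => (hwin p hp hpk hpd).1)
  have hGwin : ∀ j, ∀ p ∈ G j, 1 ≤ Nat.log p W ∧ w + 1 ≤ p ^ Nat.log p W ∧
      p ^ Nat.log p W ≤ W := by
    intro j p hp
    obtain ⟨hpp, hpk, -, hpΘ⟩ := hGp j p hp
    obtain ⟨-, g, hg2, hg3, hg4⟩ := hwin p hpp hpk hpΘ
    have hlog := m3_win_log hpp hAw hg3 hg4
    rw [← hWdef] at hlog hg4
    rw [hlog]
    exact ⟨by omega, hg3, hg4⟩
  have hWgt : w + 1 ≤ W := by omega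
  -- Siegel
  obtain ⟨P, hPdef⟩ : ∃ P, P = (range (n + a + 1)).filter Nat.Prime := ⟨_, rfl⟩
  have hPcard : P.card ≤ n / 2 + 1 := by rw [hPdef]; exact card_primes_le ha
  have hPlt : P.card < n := by omega
  rw [← hPdef] at hmv
  simp only [← hPdef] at hmprod
  obtain ⟨c, hc0, hcrel, hcle⟩ := siegel (n := n) (B := 2 * n) (P := P) hPlt (by omega)
    (fun p j => (y j).factorization p) (fun p hp j => hmv j p hp)
  obtain ⟨C, hCdef⟩ : ∃ C, C = (n * (2 * n)) ^ (n / 2 + 1) := ⟨_, rfl⟩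
  have hcC : ∀ j, |c j| ≤ (C : ℤ) := by
    intro j
    refine (hcle j).trans ?_
    have h1 : (n * (2 * n)) ^ P.card ≤ C := by
      rw [hCdef]
      exact Nat.pow_le_pow_right (Nat.mul_pos (by omega) (by omega)) hPcard
    exact_mod_cast h1
  have hPprime : ∀ p ∈ P, p.Prime ∧ p ≤ n + a := by
    intro p hp
    rw [hPdef, mem_filter, mem_range] at hp
    exact ⟨hp.2, by omega⟩
  have hlogm : ∀ j, Real.log (m j) = ∑ p ∈ P, ((y j).factorization p : ℝ) * Real.log p := by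
    intro j
    rw [hmprod j]
    push_cast
    rw [Real.log_prod (s := P) (f := fun p => ((p : ℝ) ^ (y j).factorization p))]
    · refine Finset.sum_congr rfl fun p _ => ?_
      rw [Real.log_pow]
    · intro p hp
      have := (hPprime p hp).1.pos
      positivity
  have hrel : ∑ j, (c j : ℝ) * Real.log (m j) = 0 := by
    calc ∑ j, (c j : ℝ) * Real.log (m j)
        = ∑ j, ∑ p ∈ P, Real.log p * ((c j : ℝ) * ((y j).factorization p : ℝ)) := by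
          refine Finset.sum_congr rfl fun j _ => ?_
          rw [hlogm j, Finset.mul_sum]
          refine Finset.sum_congr rfl fun p _ => ?_
          ring
      _ = ∑ p ∈ P, Real.log p * ∑ j, ((c j : ℝ) * ((y j).factorization p : ℝ)) := by
          rw [Finset.sum_comm]
          refine Finset.sum_congr rfl fun p _ => ?_
          rw [Finset.mul_sum]
      _ = 0 := by
          refine Finset.sum_eq_zero fun p hp => ?_
          have h1 := hcrel p hp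
          have h2 : ∑ j, ((c j : ℝ) * ((y j).factorization p : ℝ)) = 0 := by
            exact_mod_cast h1
          rw [h2, mul_zero]
  obtain ⟨Lm, hLmdef⟩ : ∃ Lm : ℕ, Lm = 2 * n ^ 2 * (n / 2 + 1) := ⟨_, rfl⟩
  have hLm : ∀ j, Real.log (m j) ≤ (Lm : ℝ) := by
    intro j
    rw [hlogm j]
    have h1 : ∀ p ∈ P, ((y j).factorization p : ℝ) * Real.log p ≤ (2 * n : ℝ) * n := by
      intro p hp
      obtain ⟨hpp, hpn⟩ := hPprime p hp
      have h2 : ((y j).factorization p : ℝ) ≤ 2 * n := by exact_mod_cast hmv j p hp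
      have hp0 : (0 : ℝ) < p := by exact_mod_cast hpp.pos
      have h3 : Real.log p ≤ n := by
        have h4 := Real.log_le_sub_one_of_pos hp0
        have h5 : (p : ℝ) ≤ n + 1 := by
          have : p ≤ n + 1 := by omega
          exact_mod_cast this
        linarith
      have h6 : 0 ≤ Real.log p := Real.log_nonneg (by exact_mod_cast hpp.one_lt.le)
      have h7 : (0 : ℝ) ≤ ((y j).factorization p : ℝ) := Nat.cast_nonneg _
      have h8 : (0 : ℝ) ≤ (n : ℝ) := Nat.cast_nonneg _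
      exact mul_le_mul h2 h3 h6 (by positivity)
    have h2 := Finset.sum_le_card_nsmul P _ _ h1
    refine h2.trans ?_
    rw [nsmul_eq_mul, hLmdef]
    have h3 : (P.card : ℝ) ≤ ((n / 2 + 1 : ℕ) : ℝ) := by exact_mod_cast hPcard
    have h8 : (0 : ℝ) ≤ (2 * n : ℝ) * n := by positivity
    calc (P.card : ℝ) * ((2 * n : ℝ) * n) ≤ ((n / 2 + 1 : ℕ) : ℝ) * ((2 * n : ℝ) * n) :=
          mul_le_mul_of_nonneg_right h3 h8
      _ = ((2 * n ^ 2 * (n / 2 + 1) : ℕ) : ℝ) := by push_cast; ring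
  -- the analytic inequalities
  have hfin := big_final hb65
  obtain ⟨b, hbdef⟩ : ∃ b, b = Nat.log 2 W := ⟨_, rfl⟩
  have hlogW : ((Nat.log 2 W : ℕ) : ℝ) * 0.693 ≤ Real.log W := m3_log_ge hW0 le_rfl
  obtain ⟨L, hLdef⟩ : ∃ L, L = Nat.lcmUpto (Nat.log 1024 W) := ⟨_, rfl⟩
  have hL0 : 0 < L := by rw [hLdef]; exact Nat.lcmUpto_pos _
  obtain ⟨Λ, hΛ0, hΛ, hΛle⟩ := lam_exists h1024 (univ.biUnion G)
    (fun p hp => by
      obtain ⟨j, -, hj⟩ := mem_biUnion.1 hp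
      exact (hGp j p hj).1)
    (fun p hp => by
      obtain ⟨j, -, hj⟩ := mem_biUnion.1 hp
      exact ((hGp j p hj).2.1).trans (by omega))
  rw [← hLdef] at hfin hΛle
  rw [← hbdef] at hfin hΛle hlogW hbQ hb65
  have hQb : Q ≤ b + 1 := by omega
  have hQbr : (Q : ℝ) ≤ (b : ℝ) + 1 := by exact_mod_cast hQb
  have hQr : (65536 : ℝ) ≤ Q := by exact_mod_cast hQ
  have hbr : (65535 : ℝ) ≤ b := by exact_mod_cast hb65
  have hLr : (1 : ℝ) ≤ L := by exact_mod_cast hL0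
  have hlogQ : (Q : ℝ) / 2 ≤ Real.log W := by
    have h1 : (Q : ℝ) - 1 ≤ b := by linarith
    linarith
  have hE : 0 < Real.exp (Real.log W / 4) := Real.exp_pos _
  have hEinv : Real.exp (-(Real.log W / 4)) * Real.exp (Real.log W / 4) = 1 := by
    rw [← Real.exp_add]; simp
  have hE' : 0 < Real.exp (-(Real.log W / 4)) := Real.exp_pos _
  have hb174 : (b : ℝ) ≤ (b : ℝ) ^ 174 := by
    calc (b : ℝ) = (b : ℝ) ^ 1 := (pow_one _).symm
      _ ≤ (b : ℝ) ^ 174 := pow_le_pow_right₀ (by linarith) (by norm_num)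
  have hnum2r : (n : ℝ) * (2 * n + 1) ^ 2 ≤ Q := by exact_mod_cast hnum2
  have hnr : (3 : ℝ) ≤ n := by exact_mod_cast hn
  have hsq0 : (0 : ℝ) ≤ (2 * (n : ℝ) + 1) ^ 2 := by positivity
  have hsqQ : (2 * (n : ℝ) + 1) ^ 2 ≤ Real.exp (Real.log W / 4) := by
    have h1 : (2 * (n : ℝ) + 1) ^ 2 ≤ n * (2 * n + 1) ^ 2 := by nlinarith
    have h2 : (b : ℝ) ^ 174 ≤ (b : ℝ) ^ 174 * L := by
      have : (0 : ℝ) ≤ (b : ℝ) ^ 174 := by positivity
      nlinarith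
    have h3 : 2 * (b : ℝ) ^ 174 * L = 2 * ((b : ℝ) ^ 174 * L) := by ring
    linarith
  obtain ⟨δ, hδdef⟩ : ∃ δ : ℝ, δ = 13 / 25 * (2 * n + 1) ^ 2 *
      Real.exp (-(Real.log W / 4)) := ⟨_, rfl⟩
  have hδ1 : δ ≤ 1 := by
    have h1 : (2 * (n : ℝ) + 1) ^ 2 * Real.exp (-(Real.log W / 4)) ≤ 1 := by
      calc (2 * (n : ℝ) + 1) ^ 2 * Real.exp (-(Real.log W / 4))
          ≤ Real.exp (Real.log W / 4) * Real.exp (-(Real.log W / 4)) :=
            mul_le_mul_of_nonneg_right hsqQ hE'.le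
        _ = 1 := by rw [mul_comm]; exact hEinv
    have h2 : 0 ≤ (2 * (n : ℝ) + 1) ^ 2 * Real.exp (-(Real.log W / 4)) := by positivity
    have h3 : δ = 13 / 25 * ((2 * (n : ℝ) + 1) ^ 2 * Real.exp (-(Real.log W / 4))) := by
      rw [hδdef]; ring
    linarith
  have hδj : ∀ j, Real.log W - Real.log (y j) ≤ δ := by
    intro j
    rw [hδdef]
    exact hdel j
  have hCr : (1 : ℝ) ≤ C := by
    have : 1 ≤ C := by
      rw [hCdef]
      exact Nat.one_le_pow _ _ (Nat.mul_pos (by omega) (by omega))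
    exact_mod_cast this
  have hnum1r : 4 * (C : ℝ) * ((Lm : ℝ) + 1) < Q := by
    rw [← hCdef, ← hLmdef] at hnum1
    exact_mod_cast hnum1
  have hLmr : (0 : ℝ) ≤ (Lm : ℝ) := Nat.cast_nonneg _
  have hbig : 2 * (C : ℝ) * ((Lm : ℝ) + δ) < Real.log W := by
    have h1 : 2 * (C : ℝ) * ((Lm : ℝ) + δ) ≤ 2 * (C : ℝ) * ((Lm : ℝ) + 1) :=
      mul_le_mul_of_nonneg_left (by linarith) (by linarith)
    linarith
  have hgcd : ∀ i j, ∀ p ∈ G i, ∀ q ∈ G j, p ≠ q →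
      Nat.gcd (Nat.log p W) (Nat.log q W) ∣ 2 := by
    intro i j p hp q hq hpq
    obtain ⟨hp1, hp2, hp3⟩ := hGwin i p hp
    obtain ⟨hq1, hq2, hq3⟩ := hGwin j q hq
    exact gcd_dvd_two (w := w) (A := A) (hGp i p hp).1 (hGp j q hq).1 hpq hp1 hq1 hp2
      (hp3.trans_eq hWdef) hq2 (hq3.trans_eq hWdef) hA3
  have hmain := multi (g := fun p => Nat.log p W) hw1 hWgt hm1 hGwin hyG hyw hGdis hgcd
    (fun j p hp => hΛ p (mem_biUnion.2 ⟨j, mem_univ j, hp⟩)) hΛ0 hc0 hcC hrel hLm hδj hbig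
  -- the contradiction
  have hΛr : (Λ : ℝ) ≤ (b : ℝ) ^ 172 * L := by exact_mod_cast hΛle
  have hΛ0r : (0 : ℝ) < Λ := by exact_mod_cast hΛ0
  have h1 : 1 ≤ (Λ : ℝ) * (n * C * δ) := by linarith
  have h2 : Real.exp (Real.log W / 4) ≤ (Λ : ℝ) * (n * C * (2 * n + 1) ^ 2) := by
    have h3 : (Λ : ℝ) * (n * C * δ) * Real.exp (Real.log W / 4) =
        13 / 25 * ((Λ : ℝ) * (n * C * (2 * n + 1) ^ 2)) := by
      rw [hδdef]
      calc (Λ : ℝ) * (n * C * (13 / 25 * (2 * n + 1) ^ 2 *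
              Real.exp (-(Real.log W / 4)))) * Real.exp (Real.log W / 4)
          = 13 / 25 * ((Λ : ℝ) * (n * C * (2 * n + 1) ^ 2)) *
              (Real.exp (-(Real.log W / 4)) * Real.exp (Real.log W / 4)) := by ring
        _ = _ := by rw [hEinv, mul_one]
    have h4 : 0 ≤ (Λ : ℝ) * (n * C * (2 * n + 1) ^ 2) := by positivity
    have h5 : 1 * Real.exp (Real.log W / 4) ≤
        (Λ : ℝ) * (n * C * δ) * Real.exp (Real.log W / 4) :=
      mul_le_mul_of_nonneg_right h1 hE.le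
    linarith
  have hC4 : 4 * (C : ℝ) ≤ Q := by nlinarith
  have h6 : (n : ℝ) * C * (2 * n + 1) ^ 2 ≤ (b : ℝ) ^ 2 := by
    have h7 : (n : ℝ) * C * (2 * n + 1) ^ 2 = C * (n * (2 * n + 1) ^ 2) := by ring
    have h8 : (C : ℝ) * (n * (2 * n + 1) ^ 2) ≤ (Q / 4) * Q := by
      refine mul_le_mul (by linarith) hnum2r (by positivity) (by linarith)
    have h9 : (Q / 4 : ℝ) * Q ≤ (b : ℝ) ^ 2 := by nlinarith
    linarith
  have h10 : (Λ : ℝ) * (n * C * (2 * n + 1) ^ 2) ≤ (b : ℝ) ^ 172 * L * (b : ℝ) ^ 2 :=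
    mul_le_mul hΛr h6 (by positivity) (by positivity)
  have h11 : (b : ℝ) ^ 172 * L * (b : ℝ) ^ 2 = (b : ℝ) ^ 174 * L := by ring
  have h12 : 0 < (b : ℝ) ^ 174 * L := by positivity
  have h13 : 2 * (b : ℝ) ^ 174 * L = 2 * ((b : ℝ) ^ 174 * L) := by ring
  linarith

end Pool.Agent.BZ
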