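import Mathlib
import Pool.Agent.BX.NoSign
import Pool.Agent.BY.A6
import Pool.Agent.BY.P5
import Pool.Agent.BY.M5
import Pool.Agent.BY.V1
import Pool.Agent.BY.D10
import Pool.Agent.BY.KDefs

set_option autoImplicit false

namespace Pool.Agent.BZ

open Finset Pool.Agent.BetaL Pool.Agent.MP_1e96f1_co Pool.Agent.BX Pool.Agent.BY

variable {Ω : Type*} [Fintype Ω] [DecidableEq Ω]

/-- all zeros, the product formula, and the window for the prime divisors of `Θ` -/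
theorem setup_all {Bs : Finset (Finset Ω)} {v k d n a : ℕ} (hD : IsDesign Bs v k d)
    (hB : IsBeta Bs v d (n + 1)) (ha : a ≤ 1) (hk : k = d + 2 * n + 1 + a)
    (hv : 2 * k ≤ v) (hn : 2 ≤ n) (hN : n ^ 2 + 4 * n + 1 ≤ d + 2 * n) :
    ∃ (T : ℕ) (t : Fin n → ℕ), (∀ j, 1 ≤ t j ∧ t j ≤ T) ∧ T ≤ d + 2 * n ∧
      2 * T ^ 2 < c2 n a * (d + 2 * n) ∧
      (v - k + 1) ^ a * ((∏ j, (d + 2 * n + 1 - t j)) * ∏ j, (v - k + a + 1 + t j)) =
        n.factorial * (n + a).factorial * Th (d + 2 * n + 1) (v - k) a n ∧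
      (2 * (T + 1 + a) ≤ k → v - k + (T + 1 + a) ≤ 2 * k →
        ∀ p, p.Prime → p ≤ k → p ∣ Th (d + 2 * n + 1) (v - k) a n →
          ¬ p ^ 2 ∣ Th (d + 2 * n + 1) (v - k) a n ∧
          ∃ g, 2 ≤ g ∧ v - k + 1 ≤ p ^ g ∧ p ^ g ≤ v - k + (T + 1 + a)) := by
  obtain ⟨hdk, hkv⟩ := design_facts hD
  obtain ⟨x, hx⟩ : ∃ x, x = d + 2 * n + 1 := ⟨_, rfl⟩
  obtain ⟨w, hw⟩ : ∃ w, w = v - k := ⟨_, rfl⟩
  rw [← hx, ← hw]
  set L : ℝ := (v : ℝ) - 2 * (x : ℝ) + 1 with hL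
  have hvw : v = x + a + w := by omega
  have hLw : L = (w : ℝ) + a + 1 - x := by
    rw [hL, hvw]; push_cast; ring
  have hkx : k = x + a := by omega
  have hwk : x + a ≤ w := by omega
  have hwk' : (x : ℝ) + a ≤ w := by exact_mod_cast hwk
  have haL : (a : ℝ) ≤ L := by
    have : (0 : ℝ) ≤ a := by positivity
    rw [hLw]; linarith
  have ha0 : (0 : ℝ) ≤ a := by positivity
  obtain ⟨t, htinj, htb, hz, hstr⟩ := zeros hD hB (by omega) (by omega) (x := (x : ℝ)) (a := (a : ℝ))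
    (L := L) (by rw [hx]) (by rw [hkx]; push_cast; ring) hL (by linarith)
  have hne : (Finset.univ : Finset (Fin n)).Nonempty := by
    rw [Finset.univ_nonempty_iff]
    exact ⟨⟨0, by omega⟩⟩
  obtain ⟨jm, -, hjm⟩ := Finset.exists_max_image Finset.univ t hne
  set T : ℕ := t jm with hTdef
  have hTle : ∀ j, t j ≤ T := fun j => hjm j (Finset.mem_univ j)
  have hTN : T ≤ d + 2 * n := (htb jm).2
  have hxN : (x : ℝ) - 1 = ((d + 2 * n : ℕ) : ℝ) := by
    rw [hx]; push_cast; ring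
  have hTsq : 2 * T ^ 2 < c2 n a * (d + 2 * n) := by
    have hNr : (n : ℝ) ^ 2 + 4 * n + 1 ≤ x - 1 := by
      rw [hxN]
      exact_mod_cast hN
    have h1 := zero_bound3 hn ha0 haL hNr (hz jm)
    rw [hxN] at h1
    have h2 : max (6 * (n : ℝ) + 3 * a - 4) (8 * n + 4 * a - 12) ≤ (c2 n a : ℝ) := by
      unfold c2
      have e1 : ((6 * n + 3 * a - 4 : ℕ) : ℝ) = 6 * (n : ℝ) + 3 * a - 4 := by
        rw [Nat.cast_sub (by omega)]; push_cast; ring
      have e2 : ((8 * n + 4 * a - 12 : ℕ) : ℝ) = 8 * (n : ℝ) + 4 * a - 12 := by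
        rw [Nat.cast_sub (by omega)]; push_cast; ring
      rw [Nat.cast_max, e1, e2]
    have h3 : max (6 * (n : ℝ) + 3 * a - 4) (8 * n + 4 * a - 12) * ((d + 2 * n : ℕ) : ℝ) ≤
        (c2 n a : ℝ) * ((d + 2 * n : ℕ) : ℝ) := mul_le_mul_of_nonneg_right h2 (by positivity)
    have h4 : 2 * (T : ℝ) ^ 2 < (c2 n a : ℝ) * ((d + 2 * n : ℕ) : ℝ) := lt_of_lt_of_le h1 h3
    exact_mod_cast h4
  have hprod := prod_formula (x := x) (w := w) (a := a) (n := n) ha (by omega) (by omega) htinj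
    (fun j => by have := (htb j).2; omega) (by rw [← hLw]; exact hz)
  refine ⟨T, t, fun j => ⟨(htb j).1, hTle j⟩, hTN, hTsq, hprod, fun hA2 hwA => ?_⟩
  have hdvd : ∀ α, T + 1 + a ≤ α → α ≤ k → Th x w a n ∣ (w + (T + 1 + a)).choose α := by
    intro α h1 h2
    have h3 := th_dvd (t := T) hD hB ha hk hTN (by
      intro S S' hS hS'
      refine hstr (d + 2 * n - T) ?_ S S' hS hS'
      intro j
      have := hTle j
      omega) h1 h2
    rw [hx, hw]
    exact h3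
  intro p hp hpk hpd
  exact padic hp hA2 (by omega) hwA hpk hdvd hpd

end Pool.Agent.BZ
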