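import Mathlib
import Pool.Agent.BY.Defs

set_option autoImplicit false

namespace Pool.Agent.BZ

open Finset Pool.Agent.BY

private theorem Th02 (x w : ℕ) : Th x w 0 2 = 1 + x * w + x.choose 2 * w.choose 2 := by
  simp [Th, Finset.sum_range_succ]

private theorem Th12 (x w : ℕ) :
    Th x w 1 2 = (w + 1) + x * (w + 1).choose 2 + x.choose 2 * (w + 1).choose 3 := by
  simp [Th, Finset.sum_range_succ]

private theorem ch2 (n : ℕ) : 2 * (n + 1).choose 2 = (n + 1) * n := by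
  have h : (n + 1) * n.choose 1 = (n + 1).choose 2 * 2 := Nat.add_one_mul_choose_eq n 1
  rw [Nat.choose_one_right] at h
  omega

private theorem ch3 (n : ℕ) : 3 * (n + 1).choose 3 = (n + 1) * n.choose 2 := by
  have h : (n + 1) * n.choose 2 = (n + 1).choose 3 * 3 := Nat.add_one_mul_choose_eq n 2
  omega

private theorem mod4 {x : ℕ} (hx : 12 ∣ (x - 1) * (x - 2)) (hx2 : 2 ≤ x) : x % 4 = 1 ∨ x % 4 = 2 := by
  obtain ⟨y, rfl⟩ : ∃ y, x = y + 2 := ⟨x - 2, by omega⟩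
  have h4 : 4 ∣ (y + 1) * y := (Dvd.dvd.trans (by norm_num) hx)
  have h5 : ((y + 1) * y) % 4 = 0 := Nat.mod_eq_zero_of_dvd h4
  have h6 : y % 4 = 0 ∨ y % 4 = 1 ∨ y % 4 = 2 ∨ y % 4 = 3 := by omega
  rcases h6 with h | h | h | h
  · right; omega
  · exfalso
    rw [Nat.mul_mod, Nat.add_mod, h] at h5
    norm_num at h5
  · exfalso
    rw [Nat.mul_mod, Nat.add_mod, h] at h5
    norm_num at h5
  · left; omega

private theorem odd_prime_dvd {p a T k : ℕ} (hp : p.Prime) (hpa : p ∣ a) (hak : a ∣ k * T)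
    (hk : ¬ p ∣ k) : p ∣ T :=
  ((hp.dvd_mul.1 (hpa.trans hak)).resolve_left hk)

/-- **n = 2, a = 0.**

Proof. `Th x w 0 2 = 1 + x w + C(x,2) C(w,2)`. Let `y0 = x - t0`, `y1 = x - t1`. A prime `p ≥ 3` dividing `y0` (or `y1`)
divides `4 Th`, so it divides `Th`. So only `p = 2` matters. If `y0` is odd the first alternative holds, if `y1` is
odd the second one. If `2 ∣ Th` both hold. Otherwise `y0, y1` are even and `Th` is odd; then `4 ∣ y0 y1`, so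
`(w + 1 + t0) (w + 1 + t1)` is odd, `w + 1 + t0` is odd, `t0 ≡ w`, and `x - t0` even gives `x ≡ w` modulo 2
(`t0 ≤ x`). From `12 ∣ (x - 1) (x - 2)`: `x ≡ 1, 2, 5, 10 (mod 12)`, in particular `x ≡ 1` or `2 (mod 4)`, the same for
`w`. Both `≡ 1`: `x w ≡ 1`, `C(x,2) C(w,2)` even (`C(x,2) = x (x-1)/2` is even): `Th` even. Both `≡ 2 (mod 4)`:
`x w` even, `C(x,2), C(w,2)` odd: `Th` even. Contradiction. -/
theorem parity0 {x w t0 t1 : ℕ} (hx : 12 ∣ (x - 1) * (x - 2)) (hw : 12 ∣ (w - 1) * (w - 2))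
    (hx2 : 2 ≤ x) (hw2 : 2 ≤ w) (ht0 : t0 < x) (ht1 : t1 < x)
    (hprod : (x - t0) * (x - t1) * ((w + 1 + t0) * (w + 1 + t1)) = 4 * Th x w 0 2) :
    (∀ p, p.Prime → p ∣ x - t0 → p ∣ Th x w 0 2) ∨
      (∀ p, p.Prime → p ∣ x - t1 → p ∣ Th x w 0 2) := by
  have hd0 : (x - t0) ∣ 4 * Th x w 0 2 := ⟨(x - t1) * ((w + 1 + t0) * (w + 1 + t1)), by rw [← hprod]; ring⟩
  have hd1 : (x - t1) ∣ 4 * Th x w 0 2 := ⟨(x - t0) * ((w + 1 + t0) * (w + 1 + t1)), by rw [← hprod]; ring⟩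
  have hodd : ∀ p y : ℕ, p.Prime → p ≠ 2 → y ∣ 4 * Th x w 0 2 → p ∣ y → p ∣ Th x w 0 2 := by
    intro p y hp h2 hy hpy
    refine odd_prime_dvd hp hpy hy fun h4 => h2 ?_
    have : p ∣ 2 := hp.dvd_of_dvd_pow (show p ∣ 2 ^ 2 by simpa using h4)
    exact (Nat.prime_dvd_prime_iff_eq hp Nat.prime_two).1 this
  by_cases hT : 2 ∣ Th x w 0 2
  · left
    intro p hp h
    by_cases h2 : p = 2
    · rw [h2]; exact hT
    · exact hodd p _ hp h2 hd0 h
  by_cases h0 : 2 ∣ x - t0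
  · by_cases h1 : 2 ∣ x - t1
    · exfalso
      obtain ⟨u, hu⟩ := h0
      obtain ⟨v, hv⟩ := h1
      have e : u * v * ((w + 1 + t0) * (w + 1 + t1)) = Th x w 0 2 := by
        rw [hu, hv] at hprod
        have : 4 * (u * v * ((w + 1 + t0) * (w + 1 + t1))) = 4 * Th x w 0 2 := by
          rw [← hprod]; ring
        omega
      have hw1 : ¬ 2 ∣ (w + 1 + t0) := fun h => hT (by
        rw [← e]
        exact Dvd.dvd.mul_left (Dvd.dvd.mul_right h _) _)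
      have hx4 := mod4 hx hx2
      have hw4 := mod4 hw hw2
      apply hT
      rw [Th02]
      rcases hx4 with hx4 | hx4 <;> rcases hw4 with hw4 | hw4
      · obtain ⟨k, rfl⟩ : ∃ k, x = 4 * k + 1 := ⟨x / 4, by omega⟩
        obtain ⟨l, rfl⟩ : ∃ l, w = 4 * l + 1 := ⟨w / 4, by omega⟩
        have c1 := ch2 (4 * k)
        have c2 : (4 * k + 1).choose 2 = (4 * k + 1) * (2 * k) := by
          have : 2 * (4 * k + 1).choose 2 = 2 * ((4 * k + 1) * (2 * k)) := by rw [c1]; ring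
          omega
        rw [c2]
        exact ⟨1 + 8 * k * l + 2 * k + 2 * l + (4 * k + 1) * k * (4 * l + 1).choose 2, by ring⟩
      · omega
      · omega
      · obtain ⟨k, rfl⟩ : ∃ k, x = 4 * k + 2 := ⟨x / 4, by omega⟩
        obtain ⟨l, rfl⟩ : ∃ l, w = 4 * l + 2 := ⟨w / 4, by omega⟩
        have c2 : ∀ k, (4 * k + 2).choose 2 = 2 * (4 * k ^ 2 + 3 * k) + 1 := by
          intro k
          have c1 := ch2 (4 * k + 1)
          have : 2 * (4 * k + 2).choose 2 = 2 * (2 * (4 * k ^ 2 + 3 * k) + 1) := by rw [c1]; ring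
          omega
        rw [c2, c2]
        exact ⟨1 + (2 * k + 1) * (4 * l + 2) + 2 * (4 * k ^ 2 + 3 * k) * (4 * l ^ 2 + 3 * l) +
          (4 * k ^ 2 + 3 * k) + (4 * l ^ 2 + 3 * l), by ring⟩
    · right
      intro p hp h
      exact hodd p _ hp (fun h2 => h1 (h2 ▸ h)) hd1 h
  · left
    intro p hp h
    exact hodd p _ hp (fun h2 => h0 (h2 ▸ h)) hd0 h

/-- **n = 2, a = 1.**

Proof. `Th x w 1 2 = (w + 1) + x C(w+1, 2) + C(x, 2) C(w+1, 3)`. (a) `2 ∣ Th` always: `w = 4 s + 2`;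
`12 Th = (w + 1) (12 + 6 x w + x (x-1) w (w-1))`. `x ≡ 2 (mod 12)`: `x (x-1) ≡ 2 (mod 4)`, `w (w-1) ≡ 2 (mod 4)`, so
`x (x-1) w (w-1) ≡ 4 (mod 8)`, `6 x w ≡ 0 (mod 8)`, and `12 + 0 + 4 ≡ 0 (mod 8)`. `x ≡ 5 (mod 12)`: `x (x-1) ≡ 0 (mod 4)`,
`w (w - 1)` even, `6 x w = 12 x (2 s + 1)`, `12 + 12 (odd) ≡ 0 (mod 8)`. So `8 ∣ 12 Th`, `2 ∣ Th`.
(b) a prime `p ≥ 5` or `p = 2` dividing `x - t0` or `x - t1` divides `Th`. For `p = 3`: if `3 ∣ Th`, fine. Otherwise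
`9 ∤ 12 Th`, so `3` divides at most one of `x - t0`, `x - t1`; take the other one. -/
theorem parity1 {x w t0 t1 : ℕ} (hx : x % 12 = 2 ∨ x % 12 = 5) (hw : w % 4 = 2)
    (ht0 : t0 < x) (ht1 : t1 < x)
    (hprod : (w + 1) * ((x - t0) * (x - t1) * ((w + 2 + t0) * (w + 2 + t1))) =
      12 * Th x w 1 2) :
    (∀ p, p.Prime → p ∣ x - t0 → p ∣ Th x w 1 2) ∨
      (∀ p, p.Prime → p ∣ x - t1 → p ∣ Th x w 1 2) := by
  have hd0 : (x - t0) ∣ 12 * Th x w 1 2 :=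
    ⟨(w + 1) * (x - t1) * ((w + 2 + t0) * (w + 2 + t1)), by rw [← hprod]; ring⟩
  have hd1 : (x - t1) ∣ 12 * Th x w 1 2 :=
    ⟨(w + 1) * (x - t0) * ((w + 2 + t0) * (w + 2 + t1)), by rw [← hprod]; ring⟩
  have h2T : 2 ∣ Th x w 1 2 := by
    rw [Th12]
    obtain ⟨s, rfl⟩ : ∃ s, w = 4 * s + 2 := ⟨w / 4, by omega⟩
    have d2 : (4 * s + 2 + 1).choose 2 = 2 * (4 * s ^ 2 + 5 * s + 1) + 1 := by
      have c1 := ch2 (4 * s + 2)
      have : 2 * (4 * s + 2 + 1).choose 2 = 2 * (2 * (4 * s ^ 2 + 5 * s + 1) + 1) := by rw [c1]; ring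
      omega
    have e2 : (4 * s + 2).choose 2 = 2 * (4 * s ^ 2 + 3 * s) + 1 := by
      have c1 := ch2 (4 * s + 1)
      have : 2 * (4 * s + 2).choose 2 = 2 * (2 * (4 * s ^ 2 + 3 * s) + 1) := by rw [c1]; ring
      omega
    have d3 := ch3 (4 * s + 2)
    rw [e2] at d3
    have d3' : (4 * s + 2 + 1).choose 3 % 2 = 1 := by
      have : (4 * s + 2 + 1) * (2 * (4 * s ^ 2 + 3 * s) + 1) =
          2 * ((2 * s + 1) * (2 * (4 * s ^ 2 + 3 * s) + 1) + (4 * s ^ 2 + 3 * s)) + 1 := by ring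
      rw [this] at d3
      omega
    obtain ⟨f, hf⟩ : ∃ f, (4 * s + 2 + 1).choose 3 = 2 * f + 1 :=
      ⟨(4 * s + 2 + 1).choose 3 / 2, by omega⟩
    rw [d2, hf]
    rcases hx with hx | hx
    · obtain ⟨k, rfl⟩ : ∃ k, x = 12 * k + 2 := ⟨x / 12, by omega⟩
      have c2 : (12 * k + 2).choose 2 = 2 * (36 * k ^ 2 + 9 * k) + 1 := by
        have c1 := ch2 (12 * k + 1)
        have : 2 * (12 * k + 2).choose 2 = 2 * (2 * (36 * k ^ 2 + 9 * k) + 1) := by rw [c1]; ring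
        omega
      rw [c2]
      exact ⟨(2 * s + 1) + (6 * k + 1) * (2 * (4 * s ^ 2 + 5 * s + 1) + 1) +
        (36 * k ^ 2 + 9 * k) * (2 * f + 1) + f + 1, by ring⟩
    · obtain ⟨k, rfl⟩ : ∃ k, x = 12 * k + 5 := ⟨x / 12, by omega⟩
      have c2 : (12 * k + 5).choose 2 = 2 * ((12 * k + 5) * (3 * k + 1)) := by
        have c1 := ch2 (12 * k + 4)
        have : 2 * (12 * k + 5).choose 2 = 2 * (2 * ((12 * k + 5) * (3 * k + 1))) := by rw [c1]; ring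
        omega
      rw [c2]
      exact ⟨(2 * s + 1) + (6 * k + 2) * (2 * (4 * s ^ 2 + 5 * s + 1) + 1) +
        (4 * s ^ 2 + 5 * s + 1) + 1 + (12 * k + 5) * (3 * k + 1) * (2 * f + 1), by ring⟩
  have hgen : ∀ p y : ℕ, p.Prime → p ≠ 3 → y ∣ 12 * Th x w 1 2 → p ∣ y → p ∣ Th x w 1 2 := by
    intro p y hp h3 hy hpy
    by_cases h2 : p = 2
    · rw [h2]; exact h2T
    refine odd_prime_dvd hp hpy hy fun h12 => ?_
    rw [show 12 = 2 * 2 * 3 by norm_num] at h12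
    rcases hp.dvd_mul.1 h12 with h | h
    · rcases hp.dvd_mul.1 h with h | h <;>
        exact h2 ((Nat.prime_dvd_prime_iff_eq hp Nat.prime_two).1 h)
    · exact h3 ((Nat.prime_dvd_prime_iff_eq hp Nat.prime_three).1 h)
  by_cases hT : 3 ∣ Th x w 1 2
  · left
    intro p hp h
    by_cases h3 : p = 3
    · rw [h3]; exact hT
    · exact hgen p _ hp h3 hd0 h
  by_cases h0 : 3 ∣ x - t0
  · by_cases h1 : 3 ∣ x - t1
    · exfalso
      obtain ⟨u, hu⟩ := h0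
      obtain ⟨v, hv⟩ := h1
      rw [hu, hv] at hprod
      have e : 3 * ((w + 1) * (u * v * ((w + 2 + t0) * (w + 2 + t1)))) = 4 * Th x w 1 2 := by
        have : 3 * (3 * ((w + 1) * (u * v * ((w + 2 + t0) * (w + 2 + t1))))) = 3 * (4 * Th x w 1 2) := by
          calc 3 * (3 * ((w + 1) * (u * v * ((w + 2 + t0) * (w + 2 + t1))))) =
              (w + 1) * (3 * u * (3 * v) * ((w + 2 + t0) * (w + 2 + t1))) := by ring
            _ = 12 * Th x w 1 2 := hprod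
            _ = _ := by ring
        omega
      have h4 : 3 ∣ 4 * Th x w 1 2 := ⟨_, e.symm⟩
      exact hT ((Nat.Coprime.dvd_mul_left (by norm_num : Nat.Coprime 3 4)).1 h4)
    · right
      intro p hp h
      exact hgen p _ hp (fun h3 => h1 (h3 ▸ h)) hd1 h
  · left
    intro p hp h
    exact hgen p _ hp (fun h3 => h0 (h3 ▸ h)) hd0 h

end Pool.Agent.BZ
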