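import Mathlib
import Pool.Agent.BetaF.T2
import Pool.Agent.BX.D2
import Pool.Agent.BX.Fin
import Pool.Agent.BetaL.Asym
import Pool.Agent.BY.Fin3
import Pool.Agent.BZ.S0
import Pool.Agent.BZ.S3
import Pool.Agent.BZ.M2
import Pool.Agent.BZ.M3

set_option autoImplicit false

namespace Pool.Agent.BZ

open Finset Pool.Agent.BetaL Pool.Agent.MP_1e96f1_co Pool.Agent.BX Pool.Agent.BY

variable {Ω : Type*} [Fintype Ω] [DecidableEq Ω]

/-- The oriented case. -/
theorem side {Bs : Finset (Finset Ω)} {v k d n a : ℕ} (hD : IsDesign Bs v k d) (hd : 0 < d)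
    (hB : IsBeta Bs v d (n + 1)) (ha : a ≤ 1) (hk : k = d + 2 * n + 1 + a) (hv : 2 * k ≤ v)
    (hn : 2 ≤ n) : False := by
  obtain ⟨hdk, hkv⟩ := design_facts hD
  have hT := Pool.Agent.BetaF.tits hD hd hB (by omega) (by omega)
  have hN : n ^ 2 + 4 * n + 1 ≤ d + 2 * n := by nlinarith
  -- the known bounds
  have hbig : 2 ^ (2 ^ (2 ^ (n + 1))) ≤ v := by
    have h1 := main3 hD hd hB (by omega) (by omega)
    have e : min (n + 1) (k - d + 1 - (n + 1)) = n + 1 := by omega
    rw [e] at h1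
    exact h1
  have hgap := (Pool.Agent.BetaL.main hD hd hB (by omega) (by omega)).1
  obtain ⟨w, hw⟩ : ∃ w, w = v - k := ⟨_, rfl⟩
  have hkw : k ≤ w := by omega
  have hgap' : 16 * (w - k) ^ 4 ≤ (2 * n + a) ^ 8 * k ^ 3 := by
    have e1 : (v : ℤ) - 2 * k = ((w - k : ℕ) : ℤ) := by omega
    have e2 : (k : ℤ) - d - 1 = ((2 * n + a : ℕ) : ℤ) := by omega
    rw [e1, e2] at hgap
    exact_mod_cast hgap
  have hbig' : 2 ^ (2 ^ (2 ^ (n + 1))) ≤ k + w := by
    have e : k + w = v := by omega
    rw [e]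
    exact hbig
  obtain ⟨T, t, ht, hTN, hTsq, hprod, hwin⟩ := setup_all hD hB ha hk hv hn hN
  rw [← hw] at hprod hwin
  have hk' : k = (d + 2 * n) + 1 + a := hk
  obtain ⟨-, s2, s3, -, -⟩ := sizes hn ha hk' hkw hbig' hgap' hTsq
  have hwin' := hwin (by omega) (by omega)
  have hΘ : 0 < Th (d + 2 * n + 1) w a n := by
    by_contra hcon
    have h0 : Th (d + 2 * n + 1) w a n = 0 := by omega
    rw [h0, mul_zero] at hprod
    have h1 : 0 < (w + 1) ^ a * ((∏ j, (d + 2 * n + 1 - t j)) * ∏ j, (w + a + 1 + t j)) := by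
      refine Nat.mul_pos (by positivity) (Nat.mul_pos ?_ ?_)
      · refine Finset.prod_pos fun j _ => ?_
        have := (ht j).2
        omega
      · exact Finset.prod_pos fun j _ => by omega
    omega
  have hdvd : ∏ j, (d + 2 * n + 1 - t j) ∣
      n.factorial * (n + a).factorial * Th (d + 2 * n + 1) w a n := by
    rw [← hprod]
    exact Dvd.dvd.mul_left (Dvd.intro _ rfl) _
  rcases Nat.lt_or_ge n 3 with hn3 | hn3
  · -- n = 2
    have hn2 : n = 2 := by omega
    subst hn2
    obtain ⟨hdiv1, hdiv1'⟩ := div_block hD hB (by omega) (by omega)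
    have hD' := design_co hD
    have hkd : k - d - (2 + 1) + 1 = (2 + a) + 1 := by omega
    have hB' := beta_co hD (by omega) hB
    rw [hkd] at hB'
    obtain ⟨hdiv2, hdiv2'⟩ := div_block hD' hB' (by omega) (by omega)
    have t0 := ht 0
    have t1 := ht 1
    have hpar : (∀ p, p.Prime → p ∣ d + 2 * 2 + 1 - t 0 → p ∣ Th (d + 2 * 2 + 1) w a 2) ∨
        (∀ p, p.Prime → p ∣ d + 2 * 2 + 1 - t 1 → p ∣ Th (d + 2 * 2 + 1) w a 2) := by
      rw [Fin.prod_univ_two, Fin.prod_univ_two] at hprod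
      rcases (by omega : a = 0 ∨ a = 1) with rfl | rfl
      · refine parity0 ?_ ?_ (by omega) (by omega) (by omega) (by omega) ?_
        · have e1 : d + 2 * 2 + 1 - 1 = d + 2 + 2 := by omega
          have e2 : d + 2 * 2 + 1 - 2 = d + 2 + 1 := by omega
          rw [e1, e2]
          exact hdiv1'
        · have e1 : w - 1 = v + d - 2 * k + (2 + 0) + 2 := by omega
          have e2 : w - 2 = v + d - 2 * k + (2 + 0) + 1 := by omega
          rw [e1, e2]
          exact hdiv2'
        · have h4 : (2).factorial * (2 + 0).factorial = 4 := rfl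
          rw [h4, pow_zero, one_mul, add_zero] at hprod
          exact hprod
      · refine parity1 ?_ ?_ (by omega) (by omega) ?_
        · have h3 : (d + 2 * 2 + 1) % 12 = (d % 12 + 5) % 12 := by omega
          have h4 : d % 3 = 0 := by omega
          have h5 : ((d % 12 + 2 + 2) * (d % 12 + 2 + 1)) % 12 = 0 := by
            have h6 := Nat.mod_eq_zero_of_dvd hdiv1'
            have e : (2 + 1) * (2 + 2) = 12 := rfl
            rw [e] at h6
            rw [Nat.mul_mod] at h6 ⊢
            have e1 : (d + 2 + 2) % 12 = (d % 12 + 2 + 2) % 12 := by omega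
            have e2 : (d + 2 + 1) % 12 = (d % 12 + 2 + 1) % 12 := by omega
            rw [e1, e2] at h6
            exact h6
          rw [h3]
          have h7 : d % 12 < 12 := Nat.mod_lt _ (by norm_num)
          have h8 : (d % 12) % 3 = 0 := by omega
          generalize d % 12 = r at h5 h7 h8
          interval_cases r <;> simp_all
        · have e : (2 + 1 + 1) = 4 := rfl
          rw [e] at hdiv2
          omega
        · have h4 : (2).factorial * (2 + 1).factorial = 12 := rfl
          rw [h4, pow_one] at hprod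
          exact hprod
    rcases hpar with hp | hp
    · exact arith2 ha hk' hkw hbig' hgap' hTsq t0.2 hp hwin'
    · exact arith2 ha hk' hkw hbig' hgap' hTsq t1.2 hp hwin'
  · exact arith3 hn3 ha hk' hkw hbig' hgap' hTsq ht hΘ hdvd hwin'

/-- the case `k - d = 2 (n + 1)` -/
private lemma even_case {Bs : Finset (Finset Ω)} {v k d n : ℕ} (hD : IsDesign Bs v k d) (hd : 0 < d)
    (hB : IsBeta Bs v d (n + 1)) (hk : k - d = 2 * (n + 1)) (hn : 2 ≤ n) : False := by
  obtain ⟨hdk, hkv⟩ := design_facts hD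
  have hlow := noda_lower hD hB (by omega)
  rw [hk] at hlow
  have h1 : (n + 1) * (2 * (d + 2 * n + 2)) ≤ (n + 1) * v := by
    calc (n + 1) * (2 * (d + 2 * n + 2)) = (d + 2 * n + 2) * (2 * (n + 1)) := by ring
      _ ≤ _ := hlow
  have h2 := Nat.le_of_mul_le_mul_left h1 (by omega)
  exact side hD hd hB (a := 1) le_rfl (by omega) (by omega) hn

/-- `v - 2 k + d > 0` -/
private lemma co_pos {Bs : Finset (Finset Ω)} {v k d i : ℕ} (hD : IsDesign Bs v k d) (hd : 0 < d)
    (hB : IsBeta Bs v d i) (hi : 1 < i) (hi' : i < k - d) : 0 < v + d - 2 * k := by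
  obtain ⟨hdk, hkv⟩ := design_facts hD
  rcases Nat.eq_zero_or_pos (v + d - 2 * k) with h0 | h0
  · exfalso
    obtain ⟨n, rfl⟩ : ∃ n, i = n + 1 := ⟨i - 1, by omega⟩
    have hlow := noda_lower hD hB (by omega)
    obtain ⟨q, hq⟩ : ∃ q, k = d + q := ⟨k - d, by omega⟩
    have e1 : k - d = q := by omega
    have e2 : v = d + 2 * q := by omega
    have e3 : n + 2 ≤ q := by omega
    rw [e1] at hlow
    rw [e2] at hlow
    obtain ⟨r, hr⟩ : ∃ r, q = n + 2 + r := ⟨q - (n + 2), by omega⟩
    rw [hr] at hlow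
    nlinarith
  · exact h0

/-- **Main theorem.** -/
theorem main {Bs : Finset (Finset Ω)} {v k d i : ℕ} (hD : IsDesign Bs v k d) (hd : 0 < d)
    (hB : IsBeta Bs v d i) (hi : 1 < i) (hi' : i < k - d) :
    (i = 2 ∧ (k - d = 3 ∨ k - d = 4)) ∨ (i = 3 ∧ k - d = 4) := by
  obtain ⟨hdk, hkv⟩ := design_facts hD
  obtain ⟨hm1, hm2⟩ := Pool.Agent.BX.main hD hd hB hi hi'
  have hd' := co_pos hD hd hB hi hi'
  by_contra hcon
  obtain ⟨n, rfl⟩ : ∃ n, i = n + 1 := ⟨i - 1, by omega⟩
  have hB' := beta_co hD (by omega) hB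
  have hD' := design_co hD
  have hkd' : v - k - (v + d - 2 * k) = k - d := by omega
  rcases (by omega : k - d = 2 * (n + 1) ∨ k - d = 2 * n + 1 ∨ k - d = 2 * n) with h | h | h
  · exact even_case hD hd hB h (by omega)
  · rcases Nat.lt_or_ge v (2 * k) with h2 | h2
    · have e1 : k - d - (n + 1) + 1 = n + 1 := by omega
      rw [e1] at hB'
      exact side hD' hd' hB' (a := 0) (by omega) (by omega) (by omega) (by omega)
    · exact side hD hd hB (a := 0) (by omega) (by omega) h2 (by omega)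
  · obtain ⟨m, rfl⟩ : ∃ m, n = m + 1 := ⟨n - 1, by omega⟩
    have e1 : k - d - (m + 1 + 1) + 1 = m + 1 := by omega
    rw [e1] at hB'
    exact even_case hD' hd' hB' (by omega) (by omega)

end Pool.Agent.BZ
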