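import Mathlib
import Pool.Agent.MP_1e96f1_co.Defs
import Pool.Agent.BetaL.Noda
import Pool.Agent.MP_1e96f1_co.Main

set_option autoImplicit false

namespace Pool.Agent.BZ

open Finset Pool.Agent.MP_1e96f1_co

variable {Ω : Type*} [Fintype Ω] [DecidableEq Ω]

/-- two sets of the same size `k`: a set `X` of size `k` with `|X \ A| = s` and `|X \ B| = |A \ B| - s`. -/
private lemma between {A B : Finset Ω} {k s : ℕ} (hA : A.card = k) (hB : B.card = k)
    (hs : s ≤ (A \ B).card) :
    ∃ X : Finset Ω, X.card = k ∧ (X \ A).card = s ∧ (X \ B).card = (A \ B).card - s := by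
  have hAB : (A \ B).card = (B \ A).card := by
    have h1 := Finset.card_sdiff_add_card_inter A B
    have h2 := Finset.card_sdiff_add_card_inter B A
    rw [Finset.inter_comm] at h2
    omega
  obtain ⟨U, hU, hUc⟩ := Finset.exists_subset_card_eq hs
  obtain ⟨V, hV, hVc⟩ := Finset.exists_subset_card_eq (hAB ▸ hs)
  have hUA : U ⊆ A := hU.trans Finset.sdiff_subset
  have hdis : Disjoint (A \ U) V := by
    rw [Finset.disjoint_left]
    intro a ha hv
    exact (Finset.mem_sdiff.mp (hV hv)).2 (Finset.mem_sdiff.mp ha).1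
  refine ⟨(A \ U) ∪ V, ?_, ?_, ?_⟩
  · rw [Finset.card_union_of_disjoint hdis, Finset.card_sdiff_of_subset hUA]
    have := Finset.card_le_card hUA
    omega
  · have e : ((A \ U) ∪ V) \ A = V := by
      ext a
      simp only [Finset.mem_sdiff, Finset.mem_union]
      constructor
      · rintro ⟨h | h, h2⟩
        · exact absurd h.1 h2
        · exact h
      · intro h
        exact ⟨Or.inr h, (Finset.mem_sdiff.mp (hV h)).2⟩
    rw [e, hVc]
  · have e : ((A \ U) ∪ V) \ B = (A \ B) \ U := by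
      ext a
      simp only [Finset.mem_sdiff, Finset.mem_union]
      constructor
      · rintro ⟨h | h, h2⟩
        · exact ⟨⟨h.1, h2⟩, h.2⟩
        · exact absurd (Finset.mem_sdiff.mp (hV h)).1 h2
      · rintro ⟨⟨h1, h2⟩, h3⟩
        exact ⟨Or.inl ⟨h1, h3⟩, h2⟩
    rw [e, Finset.card_sdiff_of_subset hU, hUc]

/-- A nontrivial perfect `e`-code in a Johnson graph has minimum distance `2 e + 1`, and it is a `β(e + 1)` design
with `k - d = 2 e + 1`, `d > 0`. -/
theorem perfect_beta {k e d : ℕ} {C : Finset (Finset Ω)} (hk : ∀ A ∈ C, A.card = k) (h2 : 2 ≤ C.card)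
    (hp : ∀ X : Finset Ω, X.card = k → ∃! A, A ∈ C ∧ (X \ A).card ≤ e) (hd1 : 1 < d) (hdk : d < k)
    (hmin : ∀ A ∈ C, ∀ B ∈ C, A ≠ B → d ≤ (A \ B).card)
    (hex : ∃ A ∈ C, ∃ B ∈ C, A ≠ B ∧ (A \ B).card = d) :
    1 ≤ e ∧ d = 2 * e + 1 ∧ IsDesign C (Fintype.card Ω) k (k - d) ∧ IsBeta C (Fintype.card Ω) (k - d) (e + 1) := by
  obtain ⟨A, hA, B, hB, hAB, hABd⟩ := hex
  have hlow : 2 * e + 1 ≤ d := by
    by_contra hcon
    obtain ⟨X, hX, h1, h3⟩ := between (s := d / 2) (hk A hA) (hk B hB) (by omega)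
    obtain ⟨Y, -, hY⟩ := hp X hX
    have e1 := hY A ⟨hA, by omega⟩
    have e2 := hY B ⟨hB, by omega⟩
    exact hAB (e1.trans e2.symm)
  have hup : d ≤ 2 * e + 1 := by
    by_contra hcon
    obtain ⟨X, hX, h1, h3⟩ := between (s := e + 1) (hk A hA) (hk B hB) (by omega)
    obtain ⟨Y, ⟨hYC, hYX⟩, -⟩ := hp X hX
    have hne : Y ≠ A := by
      rintro rfl
      omega
    have h4 := hmin Y hYC A hA hne
    have h5 : (Y \ A).card ≤ (Y \ X).card + (X \ A).card := by
      refine le_trans (Finset.card_le_card ?_) (Finset.card_union_le _ _)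
      intro a ha
      rw [Finset.mem_sdiff] at ha
      rw [Finset.mem_union, Finset.mem_sdiff, Finset.mem_sdiff]
      by_cases hx : a ∈ X
      · exact Or.inr ⟨hx, ha.2⟩
      · exact Or.inl ⟨ha.1, hx⟩
    have h6 : (Y \ X).card = (X \ Y).card := by
      have c1 := Finset.card_sdiff_add_card_inter X Y
      have c2 := Finset.card_sdiff_add_card_inter Y X
      rw [Finset.inter_comm] at c2
      have := hk Y hYC
      omega
    omega
  have hde : d = 2 * e + 1 := le_antisymm hup hlow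
  have hinter : ∀ X Y : Finset Ω, X.card = k → (X ∩ Y).card = k - (X \ Y).card := by
    intro X Y hX
    have c1 := Finset.card_sdiff_add_card_inter X Y
    omega
  refine ⟨by omega, hde, ?_, ?_⟩
  · refine ⟨rfl, h2, hk, ?_, A, hA, B, hB, hAB, ?_⟩
    · intro X hX Y hY hne
      rw [hinter X Y (hk X hX)]
      have := hmin X hX Y hY hne
      omega
    · rw [hinter A B (hk A hA), hABd]
  · refine ⟨by omega, ?_, ?_⟩
    · have h5 : k ≤ Fintype.card Ω := by
        rw [← hk A hA]
        exact Finset.card_le_univ A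
      omega
    · intro X hX
      have hXk : X.card = k := by omega
      obtain ⟨Y, ⟨hYC, hYX⟩, hY⟩ := hp X hXk
      refine ⟨Y, ⟨hYC, ?_⟩, ?_⟩
      · rw [hinter X Y hXk]
        omega
      · rintro Z ⟨hZ, hZX⟩
        refine hY Z ⟨hZ, ?_⟩
        rw [hinter X Z hXk] at hZX
        have c1 := Finset.card_sdiff_add_card_inter X Z
        omega

end Pool.Agent.BZ
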